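import Pool.Agent.Run7.h349.Coef

set_option autoImplicit false
set_option linter.unusedSectionVars false

/-!
# Uniquely colourable graphs whose two-coloured subgraphs have at most one cycle
-/

namespace Run7.h349

open MvPolynomial Finset

/-- A product over all ordered pairs as a product over the increasing pairs. -/
theorem prod_pairs {k : ℕ} (f : Fin k → Fin k → ℝ) :
    ∏ q : Fin k × Fin k, f q.1 q.2 =
      (∏ i, f i i) * ∏ q ∈ (univ : Finset (Fin k × Fin k)).filter (fun q => q.1 < q.2),
        (f q.1 q.2 * f q.2 q.1) := by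
  classical
  have h1 : (univ : Finset (Fin k × Fin k)) =
      (univ.filter fun q => q.1 = q.2) ∪ ((univ.filter fun q => q.1 < q.2) ∪
        (univ.filter fun q => q.2 < q.1)) := by
    ext q
    simp only [mem_univ, mem_union, mem_filter, true_and, true_iff]
    rcases lt_trichotomy q.1 q.2 with h | h | h
    · exact Or.inr (Or.inl h)
    · exact Or.inl h
    · exact Or.inr (Or.inr h)
  rw [h1, prod_union, prod_union, prod_mul_distrib]
  · congr 1
    · refine (Finset.prod_nbij' (fun i => (i, i)) (fun q => q.1) ?_ ?_ ?_ ?_ ?_).symm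
      · intro i _; simp
      · intro q _; simp
      · intro i _; rfl
      · intro q hq
        simp only [mem_filter] at hq
        exact Prod.ext rfl hq.2
      · intro i _; rfl
    · have h2 : ((univ : Finset (Fin k × Fin k)).filter (fun q => q.1 = q.2) ∪
          (univ.filter (fun q => q.1 < q.2) ∪ univ.filter (fun q => q.2 < q.1))).filter
          (fun q : Fin k × Fin k => q.1 < q.2) = univ.filter (fun q => q.1 < q.2) := by
        rw [← h1]
      rw [h2]
      congr 1
      refine Finset.prod_nbij' (fun q => (q.2, q.1)) (fun q => (q.2, q.1)) ?_ ?_ ?_ ?_ ?_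
      · intro q hq
        simp only [mem_filter] at hq ⊢
        exact ⟨mem_univ _, hq.2⟩
      · intro q hq
        simp only [mem_filter] at hq ⊢
        exact ⟨mem_univ _, hq.2⟩
      · intro q _; rfl
      · intro q _; rfl
      · intro q _; rfl
  · rw [disjoint_left]
    intro q hq hq2
    simp only [mem_filter] at hq hq2
    exact absurd hq.2 (lt_asymm hq2.2)
  · rw [disjoint_left]
    intro q hq hq2
    simp only [mem_filter, mem_union] at hq hq2
    rcases hq2 with h | h
    · exact absurd hq.2 h.2.ne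
    · exact absurd hq.2 h.2.ne'

section main

variable {V : Type} [Fintype V] [LinearOrder V] (G : SimpleGraph V) {k : ℕ} (c : V → Fin k)

/-- The number of edges from colour `i` to colour `j`, oriented by the order of the vertices. -/
noncomputable def eo (i j : Fin k) : ℕ := ((edg G).filter fun p => c p.1 = i ∧ c p.2 = j).card

/-- The size of a colour class. -/
def sz (i : Fin k) : ℕ := (univ.filter fun v => c v = i).card

theorem prod_edges (hc : ∀ p ∈ edg G, c p.1 ≠ c p.2) (y : Fin k → ℝ) :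
    ∏ p ∈ edg G, (y (c p.1) - y (c p.2)) =
      ∏ q ∈ (univ : Finset (Fin k × Fin k)).filter (fun q => q.1 < q.2),
        ((y q.1 - y q.2) ^ eo G c q.1 q.2 * (y q.2 - y q.1) ^ eo G c q.2 q.1) := by
  classical
  have h1 : ∏ p ∈ edg G, (y (c p.1) - y (c p.2)) =
      ∏ q : Fin k × Fin k, (y q.1 - y q.2) ^ eo G c q.1 q.2 := by
    rw [← Finset.prod_fiberwise_of_maps_to (s := edg G) (t := univ)
      (g := fun p : V × V => (c p.1, c p.2)) (fun _ _ => Finset.mem_univ _)]
    apply Finset.prod_congr rfl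
    intro q _
    unfold eo
    rw [← Finset.prod_const]
    have h2 : (edg G).filter (fun p => (c p.1, c p.2) = q) =
        (edg G).filter (fun p => c p.1 = q.1 ∧ c p.2 = q.2) := by
      apply Finset.filter_congr
      intro p _
      rw [Prod.ext_iff]
    rw [h2]
    apply Finset.prod_congr rfl
    intro p hp
    simp only [mem_filter] at hp
    rw [hp.2.1, hp.2.2]
  rw [h1, prod_pairs (fun i j => (y i - y j) ^ eo G c i j)]
  have h3 : ∏ i, (y i - y i) ^ eo G c i i = 1 := by
    apply Finset.prod_eq_one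
    intro i _
    have h4 : eo G c i i = 0 := by
      unfold eo
      rw [Finset.card_eq_zero, Finset.filter_eq_empty_iff]
      intro p hp h
      exact hc p hp (h.1.trans h.2.symm)
    rw [h4, pow_zero]
  rw [h3, one_mul]

theorem prod_lam (x : Fin k → ℝ) (π : Equiv.Perm (Fin k)) :
    ∏ v, lam x (π (c v)) =
      ∏ q ∈ (univ : Finset (Fin k × Fin k)).filter (fun q => q.1 < q.2),
        (((x (π q.1) - x (π q.2))⁻¹) ^ sz c q.1 * ((x (π q.2) - x (π q.1))⁻¹) ^ sz c q.2) := by
  classical
  have h1 : ∀ i : Fin k, lam x (π i) = ∏ j, if i = j then 1 else (x (π i) - x (π j))⁻¹ := by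
    intro i
    unfold lam
    rw [← Finset.prod_inv_distrib]
    have h2 : ∏ j, (if i = j then (1 : ℝ) else (x (π i) - x (π j))⁻¹) =
        ∏ j ∈ univ.erase i, (x (π i) - x (π j))⁻¹ := by
      rw [← Finset.mul_prod_erase univ _ (mem_univ i), if_pos rfl, one_mul]
      apply Finset.prod_congr rfl
      intro j hj
      rw [if_neg (fun h => Finset.ne_of_mem_erase hj h.symm)]
    rw [h2]
    refine Finset.prod_nbij' (fun b => π.symm b) (fun j => π j) ?_ ?_ ?_ ?_ ?_
    · intro b hb
      rw [mem_erase] at hb ⊢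
      refine ⟨fun h => hb.1 ?_, mem_univ _⟩
      rw [← h, Equiv.apply_symm_apply]
    · intro j hj
      rw [mem_erase] at hj ⊢
      exact ⟨fun h => hj.1 (π.injective h), mem_univ _⟩
    · intro b _; simp
    · intro j _; simp
    · intro b _; simp
  have h3 : ∏ v, lam x (π (c v)) = ∏ i, lam x (π i) ^ sz c i := by
    rw [← Finset.prod_fiberwise_of_maps_to (s := univ) (t := univ)
      (g := fun v : V => c v) (fun _ _ => Finset.mem_univ _)]
    apply Finset.prod_congr rfl
    intro i _
    unfold sz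
    rw [← Finset.prod_const]
    apply Finset.prod_congr rfl
    intro v hv
    rw [(mem_filter.1 hv).2]
  rw [h3]
  have h4 : ∏ i, lam x (π i) ^ sz c i = ∏ q : Fin k × Fin k,
      (if q.1 = q.2 then (1 : ℝ) else (x (π q.1) - x (π q.2))⁻¹) ^ sz c q.1 := by
    rw [Fintype.prod_prod_type'
      (fun i j : Fin k => (if i = j then (1 : ℝ) else (x (π i) - x (π j))⁻¹) ^ sz c i)]
    apply Finset.prod_congr rfl
    intro i _
    rw [h1 i, Finset.prod_pow]
  rw [h4, prod_pairs (fun i j => (if i = j then (1 : ℝ) else (x (π i) - x (π j))⁻¹) ^ sz c i)]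
  have h5 : ∏ i : Fin k, (if i = i then (1 : ℝ) else (x (π i) - x (π i))⁻¹) ^ sz c i = 1 := by
    apply Finset.prod_eq_one
    intro i _
    rw [if_pos rfl, one_pow]
  rw [h5, one_mul]
  apply Finset.prod_congr rfl
  intro q hq
  have hq2 := (mem_filter.1 hq).2
  rw [if_neg hq2.ne, if_neg hq2.ne']

/-- The pairs of colours whose two-coloured subgraph has one edge less than vertices. -/
def tp (q : Fin k × Fin k) : Prop :=
  eo G c q.1 q.2 + eo G c q.2 q.1 + 1 = sz c q.1 + sz c q.2

/-- The sign. -/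
noncomputable def sgn : ℝ := ∏ q ∈ (univ : Finset (Fin k × Fin k)).filter (fun q => q.1 < q.2),
  (-1 : ℝ) ^ (eo G c q.2 q.1 + sz c q.2)

theorem sgn_ne : sgn G c ≠ 0 := by
  unfold sgn
  rw [Finset.prod_ne_zero_iff]
  intro q _
  exact pow_ne_zero _ (by norm_num)

open Classical in
theorem term_eq (hc : ∀ p ∈ edg G, c p.1 ≠ c p.2)
    (he : ∀ i j : Fin k, i < j → eo G c i j + eo G c j i = sz c i + sz c j ∨
      eo G c i j + eo G c j i + 1 = sz c i + sz c j)
    (x : Fin k → ℝ) (hx : Function.Injective x) (π : Equiv.Perm (Fin k)) :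
    (∏ p ∈ edg G, (x (π (c p.1)) - x (π (c p.2)))) * ∏ v, lam x (π (c v)) =
      sgn G c * ∏ q ∈ (univ : Finset (Fin k × Fin k)).filter (fun q => q.1 < q.2),
        (if tp G c q then (x (π q.1) - x (π q.2))⁻¹ else 1) := by
  rw [prod_edges G c hc (fun i => x (π i)), prod_lam c x π, ← Finset.prod_mul_distrib]
  unfold sgn
  rw [← Finset.prod_mul_distrib]
  apply Finset.prod_congr rfl
  intro q hq
  have hq2 := (mem_filter.1 hq).2
  set z : ℝ := x (π q.1) - x (π q.2) with hz
  have hz0 : z ≠ 0 := by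
    rw [hz, sub_ne_zero]
    intro h
    exact hq2.ne (π.injective (hx h))
  have hz2 : x (π q.2) - x (π q.1) = -z := by rw [hz]; ring
  rw [hz2]
  have e1 : (-z) ^ eo G c q.2 q.1 = (-1) ^ eo G c q.2 q.1 * z ^ eo G c q.2 q.1 := by
    rw [neg_pow]
  have e2 : ((-z)⁻¹) ^ sz c q.2 = (-1) ^ sz c q.2 * (z⁻¹) ^ sz c q.2 := by
    rw [inv_neg, neg_pow]
  rw [e1, e2]
  have e3 : z ^ eo G c q.1 q.2 * ((-1) ^ eo G c q.2 q.1 * z ^ eo G c q.2 q.1) *
      (z⁻¹ ^ sz c q.1 * ((-1) ^ sz c q.2 * z⁻¹ ^ sz c q.2)) =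
      (-1) ^ (eo G c q.2 q.1 + sz c q.2) *
        (z ^ (eo G c q.1 q.2 + eo G c q.2 q.1) * z⁻¹ ^ (sz c q.1 + sz c q.2)) := by
    rw [pow_add, pow_add, pow_add]
    ring
  rw [e3]
  congr 1
  split_ifs with ht
  · unfold tp at ht
    rw [← ht, pow_succ, ← mul_assoc, ← mul_pow, mul_inv_cancel₀ hz0, one_pow, one_mul]
  · rcases he q.1 q.2 hq2 with h | h
    · rw [h, ← mul_pow, mul_inv_cancel₀ hz0, one_pow]
    · exact absurd h ht

open Classical in
/-- The number of larger colours paired with `i`. -/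
noncomputable def tn (i : Fin k) : ℕ := (univ.filter fun j => i < j ∧ tp G c (i, j)).card

open Classical in
theorem prod_tn (g : Fin k → ℝ) :
    ∏ i, g i ^ tn G c i = ∏ q ∈ (univ : Finset (Fin k × Fin k)).filter (fun q => q.1 < q.2),
        (if tp G c q then g q.1 else 1) := by
  rw [Finset.prod_filter, Fintype.prod_prod_type'
    (fun i j : Fin k => if i < j then (if tp G c (i, j) then g i else 1) else 1)]
  apply Finset.prod_congr rfl
  intro i _
  unfold tn
  rw [← Finset.prod_const, Finset.prod_filter]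
  apply Finset.prod_congr rfl
  intro j _
  by_cases h1 : i < j
  · by_cases h2 : tp G c (i, j)
    · rw [if_pos ⟨h1, h2⟩, if_pos h1, if_pos h2]
    · rw [if_neg (fun h => h2 h.2), if_pos h1, if_neg h2]
  · rw [if_neg (fun h => h1 h.1), if_neg h1]

/-- A sum over all ordered pairs as a sum over the increasing pairs. -/
theorem sum_pairs {k : ℕ} (f : Fin k → Fin k → ℕ) :
    ∑ q : Fin k × Fin k, f q.1 q.2 =
      (∑ i, f i i) + ∑ q ∈ (univ : Finset (Fin k × Fin k)).filter (fun q => q.1 < q.2),
        (f q.1 q.2 + f q.2 q.1) := by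
  have h := prod_pairs (fun i j => (2 : ℝ) ^ f i j)
  simp only [← pow_add, Finset.prod_pow_eq_pow_sum] at h
  exact Nat.pow_right_injective (le_refl 2) (by exact_mod_cast h)

/-- The edges counted by pairs of colours. -/
theorem card_edges (hc : ∀ p ∈ edg G, c p.1 ≠ c p.2) :
    (edg G).card = ∑ q ∈ (univ : Finset (Fin k × Fin k)).filter (fun q => q.1 < q.2),
      (eo G c q.1 q.2 + eo G c q.2 q.1) := by
  classical
  have h1 : (edg G).card = ∑ q : Fin k × Fin k, eo G c q.1 q.2 := by
    rw [Finset.card_eq_sum_card_fiberwise (s := edg G) (t := univ)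
      (f := fun p : V × V => (c p.1, c p.2)) (fun _ _ => Finset.mem_univ _)]
    apply Finset.sum_congr rfl
    intro q _
    unfold eo
    congr 1
    apply Finset.filter_congr
    intro p _
    rw [Prod.ext_iff]
  rw [h1, sum_pairs (fun i j => eo G c i j)]
  have h3 : ∑ i, eo G c i i = 0 := by
    apply Finset.sum_eq_zero
    intro i _
    unfold eo
    rw [Finset.card_eq_zero, Finset.filter_eq_empty_iff]
    intro p hp h
    exact hc p hp (h.1.trans h.2.symm)
  rw [h3, zero_add]

theorem sum_sz : ∑ i, sz c i = Fintype.card V := by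
  classical
  rw [← Finset.card_univ, Finset.card_eq_sum_card_fiberwise (s := univ) (t := univ)
      (f := fun v : V => c v) (fun _ _ => Finset.mem_univ _)]
  rfl

theorem sum_sz_pairs : ∑ q ∈ (univ : Finset (Fin k × Fin k)).filter (fun q => q.1 < q.2),
    (sz c q.1 + sz c q.2) = Fintype.card V * (k - 1) := by
  have h := sum_pairs (fun i j : Fin k => if i = j then 0 else sz c i)
  have h1 : ∑ q : Fin k × Fin k, (if q.1 = q.2 then 0 else sz c q.1) =
      Fintype.card V * (k - 1) := by
    rw [Fintype.sum_prod_type' (fun i j : Fin k => if i = j then 0 else sz c i), ← sum_sz c,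
      Finset.sum_mul]
    apply Finset.sum_congr rfl
    intro i _
    have h2 : ∑ j : Fin k, (if i = j then 0 else sz c i) = ∑ j ∈ univ.erase i, sz c i := by
      rw [← Finset.add_sum_erase univ _ (mem_univ i), if_pos rfl, zero_add]
      apply Finset.sum_congr rfl
      intro j hj
      rw [if_neg (fun h => Finset.ne_of_mem_erase hj h.symm)]
    rw [h2, Finset.sum_const, Finset.card_erase_of_mem (mem_univ i), Finset.card_univ,
      Fintype.card_fin, smul_eq_mul, mul_comm]
  rw [h1] at h
  rw [h]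
  have h3 : ∑ i : Fin k, (if i = i then 0 else sz c i) = 0 := by
    apply Finset.sum_eq_zero
    intro i _
    rw [if_pos rfl]
  rw [h3, zero_add]
  apply Finset.sum_congr rfl
  intro q hq
  have hq2 := (mem_filter.1 hq).2
  rw [if_neg hq2.ne, if_neg hq2.ne']

theorem sum_tn : ∑ i, tn G c i = ∑ q ∈ (univ : Finset (Fin k × Fin k)).filter
    (fun q => q.1 < q.2), (open Classical in if tp G c q then 1 else 0) := by
  classical
  have h := prod_tn G c (fun _ => (2 : ℝ))
  rw [Finset.prod_pow_eq_pow_sum] at h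
  have h2 : ∏ q ∈ (univ : Finset (Fin k × Fin k)).filter (fun q => q.1 < q.2),
        (if tp G c q then (2 : ℝ) else 1) = 2 ^ (∑ q ∈ (univ : Finset (Fin k × Fin k)).filter
    (fun q => q.1 < q.2), (if tp G c q then 1 else 0)) := by
    rw [← Finset.prod_pow_eq_pow_sum]
    apply Finset.prod_congr rfl
    intro q _
    split_ifs <;> simp
  rw [h2] at h
  exact Nat.pow_right_injective (le_refl 2) (by exact_mod_cast h)

end main

section limit

open Filter Topology

theorem tendsto_ratio {k : ℕ} (a b : Fin k) (hab : a ≠ b) :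
    Tendsto (fun t : ℝ => t ^ (a : ℕ) * (t ^ (a : ℕ) - t ^ (b : ℕ))⁻¹) atTop
      (𝓝 (if b < a then 1 else 0)) := by
  rcases lt_or_gt_of_ne hab with h | h
  · rw [if_neg (lt_asymm h)]
    obtain ⟨d, hd⟩ : ∃ d : ℕ, (b : ℕ) = a + (d + 1) := ⟨b - a - 1, by
      have : (a : ℕ) < b := h
      omega⟩
    have h1 : Tendsto (fun t : ℝ => (1 - t ^ (d + 1))⁻¹) atTop (𝓝 0) := by
      apply Tendsto.comp tendsto_inv_atBot_zero
      have h2 : Tendsto (fun t : ℝ => t ^ (d + 1)) atTop atTop := tendsto_pow_atTop (by omega)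
      exact tendsto_atBot_add_const_left atTop 1 (tendsto_neg_atTop_atBot.comp h2)
    refine h1.congr' ?_
    filter_upwards [eventually_gt_atTop (1 : ℝ)] with t ht
    have ht0 : t ^ (a : ℕ) ≠ 0 := pow_ne_zero _ (by linarith)
    have ht1 : 1 - t ^ (d + 1) ≠ 0 := by
      have : (1 : ℝ) < t ^ (d + 1) := one_lt_pow₀ ht (by omega)
      linarith
    rw [hd, pow_add t (a : ℕ) (d + 1)]
    have e : t ^ (a : ℕ) - t ^ (a : ℕ) * t ^ (d + 1) = t ^ (a : ℕ) * (1 - t ^ (d + 1)) := by ring
    rw [e, mul_inv, ← mul_assoc, mul_inv_cancel₀ ht0, one_mul]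
  · rw [if_pos h]
    obtain ⟨d, hd⟩ : ∃ d : ℕ, (a : ℕ) = b + (d + 1) := ⟨a - b - 1, by
      have : (b : ℕ) < a := h
      omega⟩
    have h1 : Tendsto (fun t : ℝ => (1 - (t ^ (d + 1))⁻¹)⁻¹) atTop (𝓝 1) := by
      have h2 : Tendsto (fun t : ℝ => t ^ (d + 1)) atTop atTop := tendsto_pow_atTop (by omega)
      have h3 : Tendsto (fun t : ℝ => (t ^ (d + 1))⁻¹) atTop (𝓝 0) :=
        tendsto_inv_atTop_zero.comp h2
      have h4 : Tendsto (fun t : ℝ => 1 - (t ^ (d + 1))⁻¹) atTop (𝓝 (1 - 0)) :=
        tendsto_const_nhds.sub h3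
      have h5 := h4.inv₀ (by norm_num)
      simpa using h5
    refine h1.congr' ?_
    filter_upwards [eventually_gt_atTop (1 : ℝ)] with t ht
    have ht0 : t ^ (b : ℕ) ≠ 0 := pow_ne_zero _ (by linarith)
    have ht1 : (1 : ℝ) < t ^ (d + 1) := one_lt_pow₀ ht (by omega)
    have ht2 : t ^ (d + 1) ≠ 0 := by linarith
    have ht3 : t ^ (d + 1) - 1 ≠ 0 := by linarith
    rw [hd, pow_add t (b : ℕ) (d + 1)]
    have e : t ^ (b : ℕ) * t ^ (d + 1) - t ^ (b : ℕ) = t ^ (b : ℕ) * (t ^ (d + 1) - 1) := by ring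
    have e2 : 1 - (t ^ (d + 1))⁻¹ = (t ^ (d + 1) - 1) * (t ^ (d + 1))⁻¹ := by
      rw [sub_mul, mul_inv_cancel₀ ht2, one_mul]
    rw [e, e2, mul_inv, mul_inv, inv_inv]
    field_simp

end limit

section final

open Filter Topology

variable {V : Type} [Fintype V] [LinearOrder V] (G : SimpleGraph V) {k : ℕ} (c : V → Fin k)

theorem prod_weight (hs : Function.Surjective c) (g : Fin k → ℝ) :
    ∏ v, g (c v) ^ (if v = Function.surjInv hs (c v) then tn G c (c v) else 0) =
      ∏ i, g i ^ tn G c i := by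
  classical
  rw [← Finset.prod_fiberwise_of_maps_to (s := univ) (t := univ)
      (g := fun v : V => c v) (fun _ _ => Finset.mem_univ _)]
  apply Finset.prod_congr rfl
  intro i _
  have h1 : ∏ v ∈ univ.filter (fun v => c v = i),
      g (c v) ^ (if v = Function.surjInv hs (c v) then tn G c (c v) else 0) =
      ∏ v ∈ univ.filter (fun v => c v = i),
        (if v = Function.surjInv hs i then g i ^ tn G c i else 1) := by
    apply Finset.prod_congr rfl
    intro v hv
    rw [(mem_filter.1 hv).2]
    split_ifs <;> simp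
  rw [h1, Finset.prod_ite_eq']
  rw [if_pos]
  rw [mem_filter]
  exact ⟨mem_univ _, Function.surjInv_eq hs i⟩

/-- A graph with a unique `k`-colouring (up to the names of the colours) in which every two colour
classes induce a subgraph with as many edges as vertices, or one less, is `k`-choosable. -/
theorem uniq_choosable (hk : 0 < k) (hs : Function.Surjective c)
    (hc : ∀ p ∈ edg G, c p.1 ≠ c p.2)
    (hu : ∀ c' : V → Fin k, (∀ p ∈ edg G, c' p.1 ≠ c' p.2) →
      ∃ π : Equiv.Perm (Fin k), ∀ v, c' v = π (c v))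
    (he : ∀ i j : Fin k, i < j → eo G c i j + eo G c j i = sz c i + sz c j ∨
      eo G c i j + eo G c j i + 1 = sz c i + sz c j)
    (L : V → Finset ℕ) (hL : ∀ v, k ≤ (L v).card) :
    ∃ f : V → ℕ, (∀ v, f v ∈ L v) ∧ ∀ u v, G.Adj u v → f u ≠ f v := by
  classical
  set w : V → ℕ := fun v => if v = Function.surjInv hs (c v) then tn G c (c v) else 0 with hw
  have hsum : ∑ v, w v = ∑ i, tn G c i := by
    have h := prod_weight G c hs (fun _ => (2 : ℝ))
    rw [Finset.prod_pow_eq_pow_sum, Finset.prod_pow_eq_pow_sum] at h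
    exact Nat.pow_right_injective (le_refl 2) (by exact_mod_cast h)
  have hdeg : (edg G).card + ∑ v, w v = Fintype.card V * (k - 1) := by
    rw [hsum, sum_tn, card_edges G c hc, ← sum_sz_pairs c, ← Finset.sum_add_distrib]
    apply Finset.sum_congr rfl
    intro q hq
    have hq2 := (mem_filter.1 hq).2
    by_cases h : tp G c q
    · rw [if_pos h]
      exact h
    · rw [if_neg h, add_zero]
      rcases he q.1 q.2 hq2 with h1 | h1
      · exact h1
      · exact absurd h1 h
  apply choosable_of_coeff G hk w hdeg.le ?_ L hL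
  -- the coefficient is a sum over the permutations of the colours
  have key : ∀ t : ℝ, 1 < t → coeff (ex V k) (gp G w) = sgn G c * ∑ π : Equiv.Perm (Fin k),
      ∏ q ∈ (univ : Finset (Fin k × Fin k)).filter (fun q => q.1 < q.2),
        (if tp G c q then t ^ (π q.1 : ℕ) * (t ^ (π q.1 : ℕ) - t ^ (π q.2 : ℕ))⁻¹ else 1) := by
    intro t ht
    have hx : Function.Injective (fun a : Fin k => t ^ (a : ℕ)) := by
      intro a b hab
      exact Fin.ext ((pow_right_strictMono₀ ht).injective hab)
    rw [coeff_formula (fun a : Fin k => t ^ (a : ℕ)) hk hx _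
      ((totalDegree_gp G w).trans hdeg.le)]
    have h1 : ∑ c' : V → Fin k, (∏ e, lam (fun a : Fin k => t ^ (a : ℕ)) (c' e)) *
        eval (fun e => t ^ (c' e : ℕ)) (gp G w) =
        ∑ π : Equiv.Perm (Fin k), (∏ e, lam (fun a : Fin k => t ^ (a : ℕ)) (π (c e))) *
        eval (fun e => t ^ (π (c e) : ℕ)) (gp G w) := by
      have h2 : ∑ c' ∈ univ.image (fun π : Equiv.Perm (Fin k) => (fun v => π (c v))),
          (∏ e, lam (fun a : Fin k => t ^ (a : ℕ)) (c' e)) *
          eval (fun e => t ^ (c' e : ℕ)) (gp G w) =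
          ∑ c' : V → Fin k, (∏ e, lam (fun a : Fin k => t ^ (a : ℕ)) (c' e)) *
          eval (fun e => t ^ (c' e : ℕ)) (gp G w) := by
        apply Finset.sum_subset (Finset.subset_univ _)
        intro c' _ hc'
        have h3 : ∃ p ∈ edg G, c' p.1 = c' p.2 := by
          by_contra hcon
          push Not at hcon
          obtain ⟨π, hπ⟩ := hu c' hcon
          apply hc'
          rw [mem_image]
          exact ⟨π, mem_univ _, (funext hπ).symm⟩
        obtain ⟨p, hp, hpe⟩ := h3
        rw [eval_gp]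
        have h4 : ∏ p ∈ edg G, (t ^ (c' p.1 : ℕ) - t ^ (c' p.2 : ℕ)) = 0 := by
          apply Finset.prod_eq_zero hp
          rw [hpe, sub_self]
        rw [h4, zero_mul, mul_zero]
      rw [← h2, Finset.sum_image]
      intro π _ ρ _ h
      apply Equiv.ext
      intro i
      obtain ⟨v, hv⟩ := hs i
      have := congrFun h v
      simp only at this
      rw [← hv]
      exact this
    rw [h1, Finset.mul_sum]
    apply Finset.sum_congr rfl
    intro π _
    rw [eval_gp]
    have h5 : ∏ v, (t ^ (π (c v) : ℕ)) ^ w v = ∏ i, (t ^ (π i : ℕ)) ^ tn G c i :=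
      prod_weight G c hs (fun i => t ^ (π i : ℕ))
    have h6 := term_eq G c hc he (fun a : Fin k => t ^ (a : ℕ)) hx π
    calc (∏ e, lam (fun a : Fin k => t ^ (a : ℕ)) (π (c e))) *
          ((∏ p ∈ edg G, (t ^ (π (c p.1) : ℕ) - t ^ (π (c p.2) : ℕ))) *
            ∏ v, (t ^ (π (c v) : ℕ)) ^ w v) =
          ((∏ p ∈ edg G, (t ^ (π (c p.1) : ℕ) - t ^ (π (c p.2) : ℕ))) *
          (∏ e, lam (fun a : Fin k => t ^ (a : ℕ)) (π (c e)))) *
            ∏ v, (t ^ (π (c v) : ℕ)) ^ w v := by ring
      _ = _ := by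
        rw [h6, h5, prod_tn G c (fun i => t ^ (π i : ℕ)), mul_assoc, ← Finset.prod_mul_distrib]
        congr 1
        apply Finset.prod_congr rfl
        intro q _
        split_ifs
        · rw [mul_comm]
        · rw [mul_one]
  -- let `t` tend to infinity
  have hlim : Tendsto (fun t : ℝ => sgn G c * ∑ π : Equiv.Perm (Fin k),
      ∏ q ∈ (univ : Finset (Fin k × Fin k)).filter (fun q => q.1 < q.2),
        (if tp G c q then t ^ (π q.1 : ℕ) * (t ^ (π q.1 : ℕ) - t ^ (π q.2 : ℕ))⁻¹ else 1)) atTop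
      (𝓝 (sgn G c * ∑ π : Equiv.Perm (Fin k),
      ∏ q ∈ (univ : Finset (Fin k × Fin k)).filter (fun q => q.1 < q.2),
        (if tp G c q then (if π q.2 < π q.1 then (1 : ℝ) else 0) else 1))) := by
    apply Tendsto.const_mul
    apply tendsto_finsetSum
    intro π _
    apply tendsto_finsetProd
    intro q hq
    have hq2 := (mem_filter.1 hq).2
    by_cases h : tp G c q
    · simp only [if_pos h]
      exact tendsto_ratio _ _ (fun h2 => hq2.ne (π.injective h2))
    · simp only [if_neg h]
      exact tendsto_const_nhds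
  have hconst : Tendsto (fun _ : ℝ => coeff (ex V k) (gp G w)) atTop
      (𝓝 (sgn G c * ∑ π : Equiv.Perm (Fin k),
      ∏ q ∈ (univ : Finset (Fin k × Fin k)).filter (fun q => q.1 < q.2),
        (if tp G c q then (if π q.2 < π q.1 then (1 : ℝ) else 0) else 1))) := by
    refine hlim.congr' ?_
    filter_upwards [eventually_gt_atTop (1 : ℝ)] with t ht
    exact (key t ht).symm
  rw [tendsto_nhds_unique tendsto_const_nhds hconst]
  apply mul_ne_zero (sgn_ne G c)
  apply ne_of_gt
  apply Finset.sum_pos'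
  · intro π _
    apply Finset.prod_nonneg
    intro q _
    split_ifs <;> norm_num
  · refine ⟨Fin.revPerm, mem_univ _, ?_⟩
    apply Finset.prod_pos
    intro q hq
    have hq2 := (mem_filter.1 hq).2
    split_ifs with h1 h2
    · norm_num
    · exact absurd (Fin.rev_lt_rev.2 hq2) h2
    · norm_num

end final

end Run7.h349
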