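import Pool.Agent.Run7.h349.Str
import Pool.Agent.Run7.h349.Uniq

set_option autoImplicit false
set_option linter.unusedSectionVars false

/-!
# The auxiliary graph of an extremal periodic colouring
-/

namespace Run7.h349

open Finset

variable {n k : ℕ}

/-- The residue of an integer, as a vertex. -/
def res (hn : 0 < n) (i : ℤ) : Fin n :=
  ⟨(i % n).toNat, by
    have hn' : (0 : ℤ) < n := by exact_mod_cast hn
    have h1 := Int.emod_nonneg i hn'.ne'
    have h2 := Int.emod_lt_of_pos i hn'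
    omega⟩

theorem res_cast (hn : 0 < n) (i : ℤ) : ((res hn i : ℕ) : ℤ) = i % n := by
  have hn' : (0 : ℤ) < n := by exact_mod_cast hn
  exact Int.toNat_of_nonneg (Int.emod_nonneg i hn'.ne')

theorem res_fin (hn : 0 < n) (v : Fin n) : res hn (v : ℕ) = v := by
  apply Fin.ext
  have h := res_cast hn ((v : ℕ) : ℤ)
  rw [Int.emod_eq_of_lt (Int.natCast_nonneg _) (by exact_mod_cast v.isLt)] at h
  exact_mod_cast h

theorem res_eq_iff (hn : 0 < n) (i j : ℤ) : res hn i = res hn j ↔ (n : ℤ) ∣ i - j := by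
  constructor
  · intro h
    have h1 := res_cast hn i
    have h2 := res_cast hn j
    rw [h, h2] at h1
    exact Int.ModEq.dvd (show j ≡ i [ZMOD n] from h1)
  · intro h
    apply Fin.ext
    have h1 := res_cast hn i
    have h2 := res_cast hn j
    have h3 : j ≡ i [ZMOD n] := Int.modEq_iff_dvd.2 h
    have h4 : j % n = i % n := h3
    rw [← h4, ← h2] at h1
    exact_mod_cast h1

theorem res_add (hn : 0 < n) (i : ℤ) : res hn (i + n) = res hn i := by
  rw [res_eq_iff]
  exact ⟨1, by ring⟩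

theorem c_res (hn : 0 < n) {c : ℤ → Fin k} (hc : ∀ i, c (i + n) = c i) (i : ℤ) :
    c ((res hn i : ℕ) : ℤ) = c i := by
  apply c_dvd hc
  rw [← res_eq_iff hn, res_fin]

/-- Consecutive elements, of different colours, in the union of their classes. -/
def HR (c : ℤ → Fin k) (i j : ℤ) : Prop :=
  i < j ∧ c i ≠ c j ∧ ∀ w, i < w → w < j → c w ≠ c i ∧ c w ≠ c j

/-- The auxiliary graph. -/
def HG (hn : 0 < n) (c : ℤ → Fin k) (hc : ∀ i, c (i + n) = c i) : SimpleGraph (Fin n) where
  Adj u v := ∃ i j : ℤ, HR c i j ∧ ((res hn i = u ∧ res hn j = v) ∨ (res hn i = v ∧ res hn j = u))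
  symm := ⟨fun u v ⟨i, j, h1, h2⟩ => ⟨i, j, h1, h2.symm⟩⟩
  loopless := ⟨by
    rintro u ⟨i, j, h1, h2⟩
    have h3 : res hn i = res hn j := by
      rcases h2 with h | h
      · rw [h.1, h.2]
      · rw [h.1, h.2]
    rw [res_eq_iff] at h3
    exact h1.2.1 (c_dvd hc h3)⟩

theorem HR_shift {c : ℤ → Fin k} (hc : ∀ i, c (i + n) = c i) {i j : ℤ} (g : ℤ) (h : HR c i j) :
    HR c (i + n * g) (j + n * g) := by
  obtain ⟨h1, h2, h3⟩ := h
  refine ⟨by linarith, ?_, ?_⟩
  · rw [c_mul hc, c_mul hc]; exact h2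
  · intro w hw1 hw2
    have h4 := h3 (w - n * g) (by linarith) (by linarith)
    rw [c_mul hc, c_mul hc]
    have e : c (w - n * g) = c w := c_dvd hc ⟨-g, by ring⟩
    rw [e] at h4
    exact h4

section

variable {c : ℤ → Fin k} (hn : 0 < n) (hc : ∀ i, c (i + n) = c i) (hE : Ext n c)

/-- The colouring of the vertices. -/
def cb (n : ℕ) (c : ℤ → Fin k) (v : Fin n) : Fin k := c ((v : ℕ) : ℤ)

include hn hc in
theorem adj_ne {u v : Fin n} (h : (HG hn c hc).Adj u v) : cb n c u ≠ cb n c v := by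
  obtain ⟨i, j, h1, h2⟩ := h
  unfold cb
  rcases h2 with ⟨h3, h4⟩ | ⟨h3, h4⟩
  · rw [← h3, ← h4, c_res hn hc, c_res hn hc]; exact h1.2.1
  · rw [← h3, ← h4, c_res hn hc, c_res hn hc]; exact h1.2.1.symm

include hn in
theorem ss_one (hc : ∀ i, c (i + n) = c i) {a : Fin k} {x0 : ℤ} (h0 : c x0 = a) :
    ss n c a = 1 ↔ ∀ x, c x = a → (n : ℤ) ∣ x - x0 := by
  have h1 := cnt_erase hn (cl_per hc a) h0
  have hP : Per n (fun i => c i = a ∧ ¬ (n : ℤ) ∣ i - x0) := by
    intro i
    change (c (i + n) = a ∧ ¬ (n : ℤ) ∣ i + n - x0) ↔ (c i = a ∧ ¬ (n : ℤ) ∣ i - x0)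
    rw [hc]
    have e : i + (n : ℤ) - x0 = (i - x0) + n := by ring
    rw [e, dvd_add_self_right]
  constructor
  · intro h x hx
    by_contra hnd
    have h2 := cnt_pos hP hn (i0 := x) ⟨hx, hnd⟩
    have h3 : ss n c a = cnt n (fun i => c i = a) := rfl
    omega
  · intro h
    have h2 : cnt n (fun i => c i = a ∧ ¬ (n : ℤ) ∣ i - x0) = 0 := by
      by_contra h3
      obtain ⟨x, hx1, hx2⟩ := exists_of_cnt_pos (Nat.pos_of_ne_zero h3)
      exact hx2 (h x hx1)
    have h3 : ss n c a = cnt n (fun i => c i = a) := rfl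
    omega

open Classical in
include hE in
theorem nbr {a b : Fin k} (hab : a ≠ b) (hs : ss n c b ≤ ss n c a) {v : Fin n}
    (hv : cb n c v = b) :
    (univ.filter fun u => cb n c u = a ∧ (HG hn c hc).Adj u v) =
      {res hn (nx (DD c a b) (v : ℕ)), res hn (pv (DD c a b) (v : ℕ))} := by
  have hD := DD_per hc a b
  have hvb : c ((v : ℕ) : ℤ) = b := hv
  have hvD : DD c a b ((v : ℕ) : ℤ) := Or.inr hv
  have hca : c (nx (DD c a b) (v : ℕ)) = a := mc hn hc hE hab hs hv
  have hca' : c (pv (DD c a b) (v : ℕ)) = a := mc_pv hn hc hE hab hs hv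
  ext u
  rw [mem_filter, mem_insert, mem_singleton]
  constructor
  · rintro ⟨_, h1, i, j, h2, h3⟩
    have h1' : c ((u : ℕ) : ℤ) = a := h1
    rcases h3 with ⟨h4, h5⟩ | ⟨h4, h5⟩
    · -- `i` is the previous element
      right
      have h6 : (n : ℤ) ∣ j - (v : ℕ) := by rw [← res_eq_iff hn, h5, res_fin]
      obtain ⟨g, hg⟩ := h6
      have h7 := HR_shift hc (-g) h2
      have h8 : j + n * (-g) = (v : ℕ) := by linarith
      rw [h8] at h7
      have h9 : c (i + n * (-g)) = a := by
        rw [c_mul hc, ← c_res hn hc i, h4]; exact h1'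
      have h10 : pv (DD c a b) (v : ℕ) = i + n * (-g) := by
        apply pv_unique hD hn hvD h7.1 (Or.inl h9)
        intro w hw1 hw2 hw3
        have h11 := h7.2.2 w hw1 hw2
        rw [h9, hvb] at h11
        rcases hw3 with h | h
        · exact h11.1 h
        · exact h11.2 h
      rw [h10, ← h4, res_eq_iff]
      exact ⟨g, by ring⟩
    · left
      have h6 : (n : ℤ) ∣ i - (v : ℕ) := by rw [← res_eq_iff hn, h4, res_fin]
      obtain ⟨g, hg⟩ := h6
      have h7 := HR_shift hc (-g) h2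
      have h8 : i + n * (-g) = (v : ℕ) := by linarith
      rw [h8] at h7
      have h9 : c (j + n * (-g)) = a := by
        rw [c_mul hc, ← c_res hn hc j, h5]; exact h1'
      have h10 : nx (DD c a b) (v : ℕ) = j + n * (-g) := by
        apply nx_unique hD hn hvD h7.1 (Or.inl h9)
        intro w hw1 hw2 hw3
        have h11 := h7.2.2 w hw1 hw2
        rw [h9, hvb] at h11
        rcases hw3 with h | h
        · exact h11.2 h
        · exact h11.1 h
      rw [h10, ← h5, res_eq_iff]
      exact ⟨g, by ring⟩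
  · rintro (h | h)
    · refine ⟨mem_univ _, ?_, (v : ℕ), nx (DD c a b) (v : ℕ), ⟨nx_gt hD hn hvD _, ?_, ?_⟩, ?_⟩
      · unfold cb; rw [h, c_res hn hc]; exact hca
      · rw [hvb, hca]; exact hab.symm
      · intro w hw1 hw2
        have h1 := nx_min hD hn hvD hw1 hw2
        rw [hvb, hca]
        exact ⟨fun h2 => h1 (Or.inr h2), fun h2 => h1 (Or.inl h2)⟩
      · right
        exact ⟨res_fin hn v, h.symm⟩
    · refine ⟨mem_univ _, ?_, pv (DD c a b) (v : ℕ), (v : ℕ), ⟨pv_lt hD hn hvD _, ?_, ?_⟩, ?_⟩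
      · unfold cb; rw [h, c_res hn hc]; exact hca'
      · rw [hvb, hca']; exact hab
      · intro w hw1 hw2
        have h1 := pv_min hD hn hvD hw1 hw2
        rw [hvb, hca']
        exact ⟨fun h2 => h1 (Or.inl h2), fun h2 => h1 (Or.inr h2)⟩
      · left
        exact ⟨h.symm, res_fin hn v⟩

open Classical in
include hE in
theorem nbr_card {a b : Fin k} (hab : a ≠ b) (hs : ss n c b ≤ ss n c a) {v : Fin n}
    (hv : cb n c v = b) :
    (univ.filter fun u => cb n c u = a ∧ (HG hn c hc).Adj u v).card =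
      if ss n c a = 1 then 1 else 2 := by
  rw [nbr hn hc hE hab hs hv]
  have hD := DD_per hc a b
  have hvb : c ((v : ℕ) : ℤ) = b := hv
  have hvD : DD c a b ((v : ℕ) : ℤ) := Or.inr hv
  have hca : c (nx (DD c a b) (v : ℕ)) = a := mc hn hc hE hab hs hv
  have hca' : c (pv (DD c a b) (v : ℕ)) = a := mc_pv hn hc hE hab hs hv
  by_cases h1 : ss n c a = 1
  · rw [if_pos h1]
    have h2 := (ss_one hn hc hca').1 h1 _ hca
    rw [(res_eq_iff hn _ _).2 h2]
    simp
  · rw [if_neg h1, Finset.card_pair]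
    intro h2
    rw [res_eq_iff] at h2
    apply h1
    rw [ss_one hn hc hca']
    intro x hx
    set p := pv (DD c a b) (v : ℕ) with hp
    set q := nx (DD c a b) (v : ℕ) with hq
    have hn' : (0 : ℤ) < n := by exact_mod_cast hn
    have hpv : p < (v : ℕ) := pv_lt hD hn hvD _
    have hvq : ((v : ℕ) : ℤ) < q := nx_gt hD hn hvD _
    -- shift `x` into `(p, p + n]`
    have h3 := Int.emod_nonneg (x - p - 1) hn'.ne'
    have h4 := Int.emod_lt_of_pos (x - p - 1) hn'
    have h5 := Int.emod_add_mul_ediv (x - p - 1) n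
    set x' := p + 1 + (x - p - 1) % n with hx'
    have h6 : c x' = a := by
      rw [← hx]
      apply c_dvd hc
      exact ⟨-((x - p - 1) / n), by linarith⟩
    have h7 : x' ≠ (v : ℕ) := by
      intro h
      rw [h, hvb] at h6
      exact hab h6.symm
    have h8 : ((v : ℕ) : ℤ) ≤ x' := by
      by_contra h
      push Not at h
      exact pv_min hD hn hvD (i := ((v : ℕ) : ℤ)) (w := x') (by omega) h (Or.inl h6)
    have h9 : q ≤ x' := nx_le hD hn hvD (lt_of_le_of_ne h8 (Ne.symm h7)) (Or.inl h6)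
    obtain ⟨g, hg⟩ := h2
    have h10 : 1 ≤ g := by
      by_contra h
      push Not at h
      nlinarith
    have h11 : p + n ≤ q := by nlinarith
    have h12 : x' = p + n := by omega
    exact ⟨1 + (x - p - 1) / n, by linarith⟩

include hn in
theorem sz_eq (a : Fin k) : sz (cb n c) a = ss n c a := by
  classical
  unfold sz ss cnt cb
  refine Finset.card_bij (fun v _ => (v : ℕ)) ?_ ?_ ?_
  · intro v hv
    simp only [mem_filter, mem_univ, true_and, mem_range] at hv ⊢
    exact ⟨v.isLt, hv⟩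
  · intro u _ v _ h
    exact Fin.ext h
  · intro t ht
    simp only [mem_filter, mem_range] at ht
    refine ⟨⟨t, ht.1⟩, ?_, rfl⟩
    simp only [mem_filter, mem_univ, true_and]
    exact ht.2

end

open Classical in
/-- The number of edges between two classes, counted as ordered pairs. -/
theorem eo_add {V : Type} [Fintype V] [LinearOrder V] (G : SimpleGraph V) (c : V → Fin k)
    {a b : Fin k} (_hab : a ≠ b) :
    eo G c a b + eo G c b a =
      ∑ v ∈ univ.filter (fun v => c v = b), (univ.filter fun u => c u = a ∧ G.Adj u v).card := by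
  have h1 : ∑ v ∈ univ.filter (fun v => c v = b),
      (univ.filter fun u => c u = a ∧ G.Adj u v).card =
      ((univ : Finset (V × V)).filter fun p => c p.1 = a ∧ c p.2 = b ∧ G.Adj p.1 p.2).card := by
    rw [Finset.card_eq_sum_card_fiberwise (s := (univ : Finset (V × V)).filter
      fun p => c p.1 = a ∧ c p.2 = b ∧ G.Adj p.1 p.2) (t := univ.filter (fun v => c v = b))
      (f := fun p => p.2)]
    · apply Finset.sum_congr rfl
      intro v hv
      rw [mem_filter] at hv
      refine Finset.card_bij (fun u _ => (u, v)) ?_ ?_ ?_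
      · intro u hu
        rw [mem_filter] at hu ⊢
        rw [mem_filter]
        exact ⟨⟨mem_univ _, hu.2.1, hv.2, hu.2.2⟩, rfl⟩
      · intro u _ u' _ h
        exact (Prod.ext_iff.1 h).1
      · rintro ⟨u, v'⟩ hp
        rw [mem_filter, mem_filter] at hp
        obtain ⟨⟨_, h2, h3, h4⟩, h5⟩ := hp
        simp only at h2 h3 h4 h5
        subst h5
        exact ⟨u, by rw [mem_filter]; exact ⟨mem_univ _, h2, h4⟩, rfl⟩
    · intro p hp
      rw [Finset.mem_coe, mem_filter] at hp
      rw [Finset.mem_coe, mem_filter]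
      exact ⟨mem_univ _, hp.2.2.1⟩
  rw [h1]
  have h2 : ((univ : Finset (V × V)).filter fun p => c p.1 = a ∧ c p.2 = b ∧ G.Adj p.1 p.2) =
      ((edg G).filter fun p => c p.1 = a ∧ c p.2 = b) ∪
      ((edg G).filter fun p => c p.1 = b ∧ c p.2 = a).image Prod.swap := by
    ext ⟨u, v⟩
    simp only [mem_filter, mem_union, mem_image, edg, mem_univ, true_and, Prod.exists,
      Prod.swap_prod_mk, Prod.mk.injEq]
    constructor
    · rintro ⟨h3, h4, h5⟩
      rcases lt_trichotomy u v with h | h | h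
      · left; exact ⟨⟨h, h5⟩, h3, h4⟩
      · exact absurd h h5.ne
      · right; exact ⟨v, u, ⟨⟨h, h5.symm⟩, h4, h3⟩, rfl, rfl⟩
    · rintro (⟨⟨_, h3⟩, h4, h5⟩ | ⟨v', u', ⟨⟨_, h3⟩, h4, h5⟩, rfl, rfl⟩)
      · exact ⟨h4, h5, h3⟩
      · exact ⟨h5, h4, h3.symm⟩
  rw [h2, Finset.card_union_of_disjoint, Finset.card_image_of_injective _ Prod.swap_injective]
  · rfl
  · rw [Finset.disjoint_left]
    rintro ⟨u, v⟩ h3 h4
    simp only [mem_filter, mem_image, edg, mem_univ, true_and, Prod.exists,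
      Prod.swap_prod_mk, Prod.mk.injEq] at h3 h4
    obtain ⟨v', u', ⟨⟨h5, _⟩, _, _⟩, rfl, rfl⟩ := h4
    exact lt_asymm h5 h3.1.1

section

variable {c : ℤ → Fin k} (hn : 0 < n) (hc : ∀ i, c (i + n) = c i) (hE : Ext n c)
include hE

theorem edges_ok (hk : k ≤ n) {a b : Fin k} (hab : a ≠ b) (hs : ss n c b ≤ ss n c a) :
    eo (HG hn c hc) (cb n c) a b + eo (HG hn c hc) (cb n c) b a =
      sz (cb n c) a + sz (cb n c) b ∨
    eo (HG hn c hc) (cb n c) a b + eo (HG hn c hc) (cb n c) b a + 1 =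
      sz (cb n c) a + sz (cb n c) b := by
  classical
  rw [eo_add _ _ hab]
  have h1 : ∑ v ∈ univ.filter (fun v => cb n c v = b),
      (univ.filter fun u => cb n c u = a ∧ (HG hn c hc).Adj u v).card =
      ss n c b * (if ss n c a = 1 then 1 else 2) := by
    rw [← sz_eq hn b]
    unfold sz
    rw [← smul_eq_mul, ← Finset.sum_const]
    apply Finset.sum_congr rfl
    intro v hv
    exact nbr_card hn hc hE hab hs (mem_filter.1 hv).2
  rw [h1, sz_eq hn, sz_eq hn]
  have h2 := ss_le_succ hn hc hE a b (class_nonempty hn hc hE hk a)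
  have h3 : 0 < ss n c b := by
    obtain ⟨i, hi⟩ := class_nonempty hn hc hE hk b
    exact cnt_pos (cl_per hc b) hn (i0 := i) hi
  by_cases h4 : ss n c a = 1
  · rw [if_pos h4]
    omega
  · rw [if_neg h4]
    omega

theorem HG_choosable (hk : k ≤ n) (hk0 : 0 < k) (L : Fin n → Finset ℕ)
    (hL : ∀ v, k ≤ (L v).card) :
    ∃ f : Fin n → ℕ, (∀ v, f v ∈ L v) ∧ ∀ u v, (HG hn c hc).Adj u v → f u ≠ f v := by
  apply uniq_choosable (HG hn c hc) (cb n c) hk0 ?_ ?_ ?_ ?_ L hL
  · intro j
    obtain ⟨i, hi⟩ := class_nonempty hn hc hE hk j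
    refine ⟨res hn i, ?_⟩
    unfold cb
    rw [c_res hn hc]
    exact hi
  · intro p hp
    have h1 : (HG hn c hc).Adj p.1 p.2 := by
      classical
      unfold edg at hp
      exact (mem_filter.1 hp).2.2
    exact adj_ne hn hc h1
  · intro c' hc'
    have hadj : ∀ u v, (HG hn c hc).Adj u v → c' u ≠ c' v := by
      intro u v h
      rcases lt_trichotomy u v with h1 | h1 | h1
      · exact hc' (u, v) (by classical exact mem_filter.2 ⟨mem_univ _, h1, h⟩)
      · exact absurd h1 h.ne
      · exact (hc' (v, u) (by classical exact mem_filter.2 ⟨mem_univ _, h1, h.symm⟩)).symm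
    have h1 := classes_eq hn hc hE hk hk0 (fun i => c' (res hn i))
      (fun i => by rw [res_add])
      (by
        intro x u v huv hu hv hne
        by_contra hcon
        push Not at hcon
        have h2 : (HG hn c hc).Adj (res hn u) (res hn v) :=
          ⟨u, v, ⟨huv, hne, fun w h3 h4 => hcon w h3 h4⟩, Or.inl ⟨rfl, rfl⟩⟩
        have h3 := hadj _ _ h2
        exact h3 (hu.trans hv.symm))
    choose f hf using h1
    have hinj : Function.Injective f := by
      intro x y hxy
      obtain ⟨i, hi⟩ := class_nonempty hn hc hE hk (f x)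
      have h2 := (hf x i).2 hi
      have h3 := (hf y i).2 (by rw [← hxy]; exact hi)
      rw [← h2, ← h3]
    have hbij : Function.Bijective f := Finite.injective_iff_bijective.1 hinj
    refine ⟨(Equiv.ofBijective f hbij).symm, ?_⟩
    intro v
    rw [Equiv.eq_symm_apply, Equiv.ofBijective_apply]
    have h2 := (hf (c' v) (v : ℕ)).1 (by rw [res_fin])
    unfold cb
    exact h2.symm
  · intro i j hij
    rcases le_total (ss n c j) (ss n c i) with h | h
    · exact edges_ok hn hc hE hk hij.ne h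
    · have h1 := edges_ok hn hc hE hk hij.ne' h
      rw [add_comm (eo _ _ j i), add_comm (sz _ j)] at h1
      exact h1

end

/-- Circular interval graphs, in terms of a relation on the integers closed under subintervals. -/
theorem choosable_of_rel (hn : 0 < n) (hk : k ≤ n) (hk0 : 0 < k) (R : ℤ → ℤ → Prop)
    (hR : ∀ i i' j' j, i ≤ i' → i' ≤ j' → j' ≤ j → R i j → R i' j')
    (G : SimpleGraph (Fin n))
    (hG : ∀ u v, G.Adj u v → ∃ i j : ℤ, i < j ∧ R i j ∧
      ((res hn i = u ∧ res hn j = v) ∨ (res hn i = v ∧ res hn j = u)))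
    (c0 : Fin n → Fin k) (hc0 : ∀ i j : ℤ, i < j → R i j → c0 (res hn i) ≠ c0 (res hn j))
    (L : Fin n → Finset ℕ) (hL : ∀ v, k ≤ (L v).card) :
    ∃ f : Fin n → ℕ, (∀ v, f v ∈ L v) ∧ ∀ u v, G.Adj u v → f u ≠ f v := by
  obtain ⟨c, hc, hg, hE⟩ := extremal (k := k) hn R hR ⟨fun i => c0 (res hn i),
    fun i => by change c0 (res hn (i + n)) = c0 (res hn i); rw [res_add], hc0⟩
  obtain ⟨f, hf1, hf2⟩ := HG_choosable hn hc hE hk hk0 L hL
  refine ⟨f, hf1, ?_⟩
  intro u v huv
  apply hf2
  obtain ⟨i, j, hij, hRij, h⟩ := hG u v huv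
  refine ⟨i, j, ⟨hij, hg i j hij hRij, ?_⟩, h⟩
  intro w hw1 hw2
  constructor
  · exact fun h1 => hg i w hw1 (hR i i w j le_rfl hw1.le hw2.le hRij) h1.symm
  · exact hg w j hw2 (hR i w j j hw1.le hw2.le le_rfl hRij)

end Run7.h349
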