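import Pool.Agent.Run7.h349.Circ

/-!
# Circular interval graphs are chromatic-choosable

The circular interval graphs (proper circular-arc graphs) are one of the basic classes of the
structure theorem of Chudnovsky and Seymour for claw-free graphs.
-/

set_option autoImplicit false

namespace Run7.h349.CircularIntervalGraphs

/-- The closed arc of the circle `ℝ / ℤ` that starts at `x` and has length `l`. -/
def arc (x l : ℝ) : Set (AddCircle (1 : ℝ)) :=
  (fun t : ℝ => (t : AddCircle (1 : ℝ))) '' Set.Icc x (x + l)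

/-- Circular interval graphs: the vertices are distinct points of a circle, and two distinct
vertices are adjacent if and only if some arc of a given family of arcs contains both. Here the
circle is `ℝ / ℤ` and a pair `f` of the family `F` stands for the arc with starting point `f.1` and
length `f.2`, where `0 < f.2 < 1`. -/
def IsCircularInterval {V : Type} (G : SimpleGraph V) : Prop :=
  ∃ (p : V → AddCircle (1 : ℝ)) (F : Set (ℝ × ℝ)), Function.Injective p ∧
    (∀ f ∈ F, 0 < f.2 ∧ f.2 < 1) ∧
    ∀ u v, G.Adj u v ↔ u ≠ v ∧ ∃ f ∈ F, p u ∈ arc f.1 f.2 ∧ p v ∈ arc f.1 f.2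

theorem coe_eq_iff (s t : ℝ) :
    (s : AddCircle (1 : ℝ)) = (t : AddCircle (1 : ℝ)) ↔ ∃ m : ℤ, s = t + m := by
  rw [← sub_eq_zero, ← AddCircle.coe_sub, AddCircle.coe_eq_zero_iff]
  constructor
  · rintro ⟨m, hm⟩
    refine ⟨m, ?_⟩
    rw [zsmul_eq_mul, mul_one] at hm
    linarith
  · rintro ⟨m, hm⟩
    refine ⟨m, ?_⟩
    rw [zsmul_eq_mul, mul_one]
    linarith

open Run7.h349 in
theorem main_card {V : Type} [Fintype V] (G : SimpleGraph V) (hG : IsCircularInterval G)
    (hn : 0 < Fintype.card V) (k : ℕ) (hk0 : 0 < k) (hk : k ≤ Fintype.card V)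
    (hcol : G.Colorable k) (L : V → Finset ℕ) (hL : ∀ v, k ≤ (L v).card) :
    ∃ col : V → ℕ, (∀ v, col v ∈ L v) ∧ ∀ u v, G.Adj u v → col u ≠ col v := by
  classical
  obtain ⟨p, F, hp, hF, hadj⟩ := hG
  have : Fact ((0 : ℝ) < 1) := ⟨one_pos⟩
  set n := Fintype.card V with hndef
  have hn' : (0 : ℤ) < n := by exact_mod_cast hn
  -- representatives in `[0, 1)`
  have hrep : ∀ v, ∃ t : ℝ, t ∈ Set.Ico (0 : ℝ) 1 ∧ (t : AddCircle (1 : ℝ)) = p v := by
    intro v
    have h1 := (AddCircle.equivIco (1 : ℝ) 0 (p v)).2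
    refine ⟨(AddCircle.equivIco (1 : ℝ) 0 (p v) : ℝ), ?_, ?_⟩
    · simpa using h1
    · exact (AddCircle.equivIco (1 : ℝ) 0).symm_apply_apply (p v)
  choose θ hθ1 hθ2 using hrep
  have hθinj : Function.Injective θ := by
    intro u v huv
    apply hp
    rw [← hθ2 u, ← hθ2 v, huv]
  let : LinearOrder V := LinearOrder.lift' θ hθinj
  have hlt : ∀ u v : V, u < v → θ u < θ v := fun u v h => h
  let e : Fin n ≃o V := Fintype.orderIsoFinOfCardEq V rfl
  -- the positions of the lifts
  set x : ℤ → ℝ := fun i => θ (e (res hn i)) + ((i / n : ℤ) : ℝ) with hx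
  have hxmono : StrictMono x := by
    intro i j hij
    simp only [hx]
    have h1 := Int.emod_add_mul_ediv i n
    have h2 := Int.emod_add_mul_ediv j n
    have h3 : i / n ≤ j / n := Int.ediv_le_ediv hn' hij.le
    rcases eq_or_lt_of_le h3 with h4 | h4
    · rw [h4]
      have h5 : res hn i < res hn j := by
        rw [Fin.lt_def]
        have h6 := res_cast hn i
        have h7 := res_cast hn j
        rw [h4] at h1
        have h8 : i % n < j % n := by linarith
        rw [← h6, ← h7] at h8
        exact_mod_cast h8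
      have h9 := hlt _ _ (e.strictMono h5)
      linarith
    · have h5 := (hθ1 (e (res hn i))).2
      have h6 := (hθ1 (e (res hn j))).1
      have h7 : ((i / n : ℤ) : ℝ) + 1 ≤ ((j / n : ℤ) : ℝ) := by exact_mod_cast h4
      linarith
  have hxadd : ∀ i g : ℤ, x (i + n * g) = x i + g := by
    intro i g
    simp only [hx]
    have h1 : res hn (i + n * g) = res hn i := by
      rw [res_eq_iff]
      exact ⟨g, by ring⟩
    have h2 : (i + n * g) / (n : ℤ) = i / n + g := by
      rw [Int.add_mul_ediv_left _ _ hn'.ne']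
    rw [h1, h2]
    push_cast
    ring
  have hxp : ∀ i, ((x i : ℝ) : AddCircle (1 : ℝ)) = p (e (res hn i)) := by
    intro i
    rw [← hθ2, coe_eq_iff]
    exact ⟨i / n, rfl⟩
  -- the relation
  set R : ℤ → ℤ → Prop := fun i j => ∃ f ∈ F, ∃ m : ℤ, f.1 + m ≤ x i ∧ x j ≤ f.1 + m + f.2 with hR
  have hRsub : ∀ i i' j' j, i ≤ i' → i' ≤ j' → j' ≤ j → R i j → R i' j' := by
    rintro i i' j' j h1 _ h3 ⟨f, hf, m, h4, h5⟩
    have h6 := hxmono.monotone h1
    have h7 := hxmono.monotone h3
    exact ⟨f, hf, m, by linarith, by linarith⟩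
  have hRadj : ∀ i j : ℤ, i < j → R i j → G.Adj (e (res hn i)) (e (res hn j)) := by
    rintro i j hij ⟨f, hf, m, h4, h5⟩
    have h6 := hxmono hij
    have h7 := (hF f hf).2
    rw [hadj]
    refine ⟨?_, f, hf, ?_, ?_⟩
    · intro h8
      have h9 := e.injective h8
      rw [eq_comm, res_eq_iff] at h9
      obtain ⟨g, hg⟩ := h9
      have h10 : j = i + n * g := by linarith
      have h11 := hxadd i g
      rw [← h10] at h11
      have h12 : 0 < g := by
        by_contra h13
        push Not at h13
        nlinarith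
      have h13 : (1 : ℝ) ≤ g := by exact_mod_cast h12
      linarith
    · refine ⟨x i - m, ⟨by linarith, by linarith⟩, ?_⟩
      rw [← hxp, coe_eq_iff]
      exact ⟨-m, by push_cast; ring⟩
    · refine ⟨x j - m, ⟨by linarith, by linarith⟩, ?_⟩
      rw [← hxp, coe_eq_iff]
      exact ⟨-m, by push_cast; ring⟩
  obtain ⟨C⟩ := hcol
  have hmain := choosable_of_rel hn hk hk0 R hRsub (G.comap e) ?_ (fun a => C (e a)) ?_
    (fun a => L (e a)) (fun a => hL (e a))
  · obtain ⟨f, hf1, hf2⟩ := hmain
    refine ⟨fun v => f (e.symm v), fun v => ?_, fun u v huv => ?_⟩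
    · have h1 := hf1 (e.symm v)
      rwa [e.apply_symm_apply] at h1
    · apply hf2
      rw [SimpleGraph.comap_adj]
      simpa using huv
  · -- adjacent vertices have lifts in the relation
    intro a b hab
    rw [SimpleGraph.comap_adj] at hab
    obtain ⟨hne, f, hf, ⟨t, ht, hta⟩, ⟨t', ht', htb⟩⟩ := (hadj _ _).1 hab
    have key : ∀ (a : Fin n) (t : ℝ), (t : AddCircle (1 : ℝ)) = p (e a) →
        ∃ i : ℤ, res hn i = a ∧ x i = t := by
      intro a t hta
      rw [← hθ2, coe_eq_iff] at hta
      obtain ⟨m, hm⟩ := hta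
      refine ⟨(a : ℕ) + n * m, ?_, ?_⟩
      · rw [← res_fin hn a, res_eq_iff, res_fin]
        exact ⟨m, by ring⟩
      · rw [hxadd]
        simp only [hx]
        rw [res_fin]
        have h1 : (((a : ℕ) : ℤ) / n) = 0 :=
          Int.ediv_eq_zero_of_lt (Int.natCast_nonneg _) (by exact_mod_cast a.isLt)
        rw [h1, hm]
        simp
    obtain ⟨i, hi1, hi2⟩ := key a t hta
    obtain ⟨j, hj1, hj2⟩ := key b t' htb
    have hij : i ≠ j := by
      intro h
      apply hne
      rw [← hi1, ← hj1, h]
    rcases lt_or_gt_of_ne hij with h | h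
    · exact ⟨i, j, h, ⟨f, hf, 0, by rw [hi2]; simpa using ht.1, by rw [hj2]; simpa using ht'.2⟩,
        Or.inl ⟨hi1, hj1⟩⟩
    · exact ⟨j, i, h, ⟨f, hf, 0, by rw [hj2]; simpa using ht'.1, by rw [hi2]; simpa using ht.2⟩,
        Or.inr ⟨hj1, hi1⟩⟩
  · intro i j hij hRij
    exact C.valid (hRadj i j hij hRij)

/-- Every finite circular interval graph `G` satisfies `ch(G) = χ(G)`: if `G` can be properly
coloured with `k` colours, then it can be properly coloured from all lists of at least `k`
colours. -/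
theorem result : ∀ (V : Type) [Fintype V] (G : SimpleGraph V), IsCircularInterval G →
    ∀ k : ℕ, G.Colorable k → ∀ L : V → Finset ℕ, (∀ v, k ≤ (L v).card) →
      ∃ col : V → ℕ, (∀ v, col v ∈ L v) ∧ ∀ u v, G.Adj u v → col u ≠ col v := by
  intro V _ G hG k hcol L hL
  rcases Nat.eq_zero_or_pos (Fintype.card V) with h0 | hn
  · have : IsEmpty V := Fintype.card_eq_zero_iff.1 h0
    exact ⟨fun v => isEmptyElim v, fun v => isEmptyElim v, fun v => isEmptyElim v⟩
  have hk0 : 0 < k := by
    rcases Nat.eq_zero_or_pos k with h | h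
    · exfalso
      subst h
      obtain ⟨C⟩ := hcol
      obtain ⟨v⟩ := Fintype.card_pos_iff.1 hn
      exact (C v).elim0
    · exact h
  rcases le_total k (Fintype.card V) with h | h
  · exact main_card G hG hn k hk0 h hcol L hL
  · exact main_card G hG hn (Fintype.card V) hn le_rfl G.colorable_of_fintype L
      (fun v => h.trans (hL v))

end Run7.h349.CircularIntervalGraphs
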