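import Mathlib

set_option autoImplicit false
set_option linter.unusedSectionVars false

/-!
# The coefficient formula and the polynomial method for list colourings
-/

namespace Run7.h349

open MvPolynomial Finset

section lagrange

variable {F : Type} [Field F] {k : ℕ} (s : Fin k → F)

/-- Lagrange weights. -/
noncomputable def lam (a : Fin k) : F := (∏ b ∈ univ.erase a, (s a - s b))⁻¹

theorem lam_ne (hs : Function.Injective s) (a : Fin k) : lam s a ≠ 0 := by
  unfold lam
  apply inv_ne_zero
  rw [Finset.prod_ne_zero_iff]
  intro b hb h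
  exact Finset.ne_of_mem_erase hb (hs (sub_eq_zero.1 h)).symm

theorem sum_lam (hs : Function.Injective s) {j : ℕ} (hj : j < k) :
    ∑ a, lam s a * s a ^ j = if j = k - 1 then 1 else 0 := by
  have h1 := Lagrange.coeff_eq_sum (s := (univ : Finset (Fin k))) (v := s) (P := Polynomial.X ^ j)
    (hs.injOn) (by
      rw [Polynomial.degree_X_pow, Finset.card_univ, Fintype.card_fin]
      exact_mod_cast hj)
  rw [Finset.card_univ, Fintype.card_fin, Polynomial.coeff_X_pow] at h1
  simp only [Polynomial.eval_pow, Polynomial.eval_X] at h1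
  have h2 : (if k - 1 = j then (1 : F) else 0) = if j = k - 1 then 1 else 0 := by
    by_cases h : j = k - 1
    · rw [if_pos h, if_pos h.symm]
    · rw [if_neg h, if_neg (fun h3 => h h3.symm)]
  rw [← h2, h1]
  apply Finset.sum_congr rfl
  intro a _
  rw [lam, div_eq_mul_inv, mul_comm]

variable {E : Type} [Fintype E] [DecidableEq E]

/-- The exponent `k - 1` for every variable. -/
noncomputable def ex (E : Type) [Fintype E] (k : ℕ) : E →₀ ℕ :=
  Finsupp.equivFunOnFinite.symm fun _ => k - 1

/-- The coefficient formula. -/
theorem coeff_formula (hk : 0 < k) (hs : Function.Injective s) (f : MvPolynomial E F)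
    (hf : f.totalDegree ≤ Fintype.card E * (k - 1)) :
    coeff (ex E k) f = ∑ c : E → Fin k, (∏ e, lam s (c e)) * eval (fun e => s (c e)) f := by
  simp_rw [eval_eq', Finset.mul_sum]
  rw [Finset.sum_comm]
  have h1 : ∀ d ∈ f.support, ∑ c : E → Fin k, (∏ e, lam s (c e)) *
      (coeff d f * ∏ i, s (c i) ^ d i) = coeff d f * if d = ex E k then 1 else 0 := by
    intro d hd
    have h2 : ∑ c : E → Fin k, (∏ e, lam s (c e)) * (coeff d f * ∏ i, s (c i) ^ d i) =
        coeff d f * ∏ e : E, ∑ a : Fin k, lam s a * s a ^ d e := by
      rw [Finset.prod_univ_sum, Fintype.piFinset_univ, Finset.mul_sum]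
      apply Finset.sum_congr rfl
      intro c _
      rw [Finset.prod_mul_distrib]
      ring
    rw [h2]
    congr 1
    by_cases hde : d = ex E k
    · rw [if_pos hde]
      apply Finset.prod_eq_one
      intro e _
      have h3 : d e = k - 1 := DFunLike.congr_fun hde e
      rw [h3, sum_lam s hs (by omega), if_pos rfl]
    · rw [if_neg hde]
      have h3 : ∃ e, d e < k - 1 := by
        by_contra hcon
        push Not at hcon
        have h4 : d.degree ≤ Fintype.card E * (k - 1) := by
          refine le_trans ?_ hf
          exact le_totalDegree hd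
        have h5 : ∃ e, k - 1 < d e := by
          by_contra hcon2
          push Not at hcon2
          apply hde
          ext e
          exact le_antisymm (hcon2 e) (hcon e)
        obtain ⟨e0, he0⟩ := h5
        have h6 : Fintype.card E * (k - 1) < d.degree := by
          rw [Finsupp.degree_eq_sum, ← Finset.card_univ, ← smul_eq_mul, ← Finset.sum_const]
          exact Finset.sum_lt_sum (fun e _ => hcon e) ⟨e0, Finset.mem_univ _, he0⟩
        omega
      obtain ⟨e, he⟩ := h3
      apply Finset.prod_eq_zero (Finset.mem_univ e)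
      rw [sum_lam s hs (by omega), if_neg (by omega)]
  rw [Finset.sum_congr rfl h1]
  simp only [mul_ite, mul_one, mul_zero]
  rw [Finset.sum_ite_eq']
  split_ifs with h
  · rfl
  · rw [mem_support_iff, not_not] at h
    exact h

end lagrange

section choose

variable {V : Type} [Fintype V] [LinearOrder V] (G : SimpleGraph V) {k : ℕ}

open Classical in
/-- The edges, each once, with the smaller end first. -/
noncomputable def edg : Finset (V × V) := univ.filter fun p => p.1 < p.2 ∧ G.Adj p.1 p.2

/-- The graph polynomial times a monomial. -/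
noncomputable def gp (w : V → ℕ) : MvPolynomial V ℝ :=
  (∏ p ∈ edg G, (X p.1 - X p.2)) * ∏ v, X v ^ w v

theorem eval_gp (w : V → ℕ) (y : V → ℝ) :
    eval y (gp G w) = (∏ p ∈ edg G, (y p.1 - y p.2)) * ∏ v, y v ^ w v := by
  unfold gp
  rw [map_mul, map_prod, map_prod]
  simp

theorem totalDegree_gp (w : V → ℕ) :
    (gp G w).totalDegree ≤ (edg G).card + ∑ v, w v := by
  unfold gp
  refine (totalDegree_mul _ _).trans (Nat.add_le_add ?_ ?_)
  · refine (totalDegree_finsetProd _ _).trans ?_
    rw [Finset.card_eq_sum_ones]
    apply Finset.sum_le_sum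
    intro e _
    refine (totalDegree_sub _ _).trans (max_le ?_ ?_)
    · exact (totalDegree_monomial_le _ _).trans (by simp)
    · exact (totalDegree_monomial_le _ _).trans (by simp)
  · refine (totalDegree_finsetProd _ _).trans ?_
    apply Finset.sum_le_sum
    intro v _
    refine (totalDegree_pow _ _).trans ?_
    rw [totalDegree_X]
    omega

/-- The polynomial method: if the signed count of the `k`-colourings does not vanish, the graph is
`k`-choosable. -/
theorem choosable_of_coeff (hk : 0 < k) (w : V → ℕ)
    (hdeg : (edg G).card + ∑ v, w v ≤ Fintype.card V * (k - 1))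
    (hc : coeff (ex V k) (gp G w) ≠ 0)
    (L : V → Finset ℕ) (hL : ∀ v, k ≤ (L v).card) :
    ∃ f : V → ℕ, (∀ v, f v ∈ L v) ∧ ∀ u v, G.Adj u v → f u ≠ f v := by
  classical
  have hinj : Function.Injective (fun n : ℕ => (n : ℝ)) := Nat.cast_injective
  have hd : (ex V k).degree = Fintype.card V * (k - 1) := by
    rw [Finsupp.degree_eq_sum]
    change ∑ _e : V, (k - 1) = _
    simp
  have htd : (gp G w).totalDegree = (ex V k).degree := by
    apply le_antisymm
    · rw [hd]
      exact (totalDegree_gp G w).trans hdeg
    · exact le_totalDegree (mem_support_iff.2 hc)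
  obtain ⟨g, hg1, hg2⟩ := combinatorial_nullstellensatz_exists_eval_nonzero (gp G w)
    (ex V k) hc htd (fun e => (L e).image (fun n : ℕ => (n : ℝ)))
    (by
      intro e
      rw [Finset.card_image_of_injective _ hinj]
      change k - 1 < _
      have := hL e
      omega)
  have h3 : ∀ e, ∃ n ∈ L e, (n : ℝ) = g e := by
    intro e
    exact Finset.mem_image.1 (hg1 e)
  choose f hf1 hf2 using h3
  refine ⟨f, hf1, ?_⟩
  rw [eval_gp] at hg2
  have hg3 := (mul_ne_zero_iff.1 hg2).1
  rw [Finset.prod_ne_zero_iff] at hg3
  have key : ∀ u v, u < v → G.Adj u v → f u ≠ f v := by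
    intro u v huv hadj he
    apply hg3 (u, v) (by simp [edg, huv, hadj])
    simp only
    rw [← hf2 u, ← hf2 v, he, sub_self]
  intro u v hadj
  rcases lt_trichotomy u v with h | h | h
  · exact key u v h hadj
  · exact absurd h hadj.ne
  · exact (key v u h hadj.symm).symm

end choose

end Run7.h349
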