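import Pool.Agent.Run7.h349.Ord

set_option autoImplicit false
set_option linter.unusedSectionVars false

/-!
# Arcs of a circle in coordinates
-/

namespace Run7.h349

open Finset

/-- Points and arcs of the circle `ℝ / ℤ` in coordinates: `θ v` is the position of the vertex `v`,
the arc `i` is `[X i, X i + l i]`. No two arcs have a common end, and none contains another. -/
structure Mdl (V I : Type) where
  θ : V → ℝ
  X : I → ℝ
  l : I → ℝ
  hθ : ∀ v, 0 ≤ θ v ∧ θ v < 1
  hX : ∀ i, 0 ≤ X i ∧ X i < 1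
  hl : ∀ i, 0 < l i ∧ l i < 1
  e1 : ∀ i j, X i = X j → i = j
  e2 : ∀ i j, X i ≠ X j + l j ∧ X i + 1 ≠ X j + l j
  e3 : ∀ i j, (X i + l i = X j + l j ∨ X i + l i = X j + l j + 1) → i = j
  nn : ∀ i j, i ≠ j → ¬ (X j ≤ X i ∧ X i + l i ≤ X j + l j) ∧ ¬ (X i + 1 + l i ≤ X j + l j)

namespace Mdl

variable {V I : Type} (M : Mdl V I)

/-- The vertex `v` lies on the arc `i`. -/
def mem (i : I) (v : V) : Prop :=
  (M.X i ≤ M.θ v ∧ M.θ v ≤ M.X i + M.l i) ∨ M.θ v + 1 ≤ M.X i + M.l i

/-- The vertex `v` is the final end of the arc `i`. -/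
def en (i : I) (v : V) : Prop := M.θ v = M.X i + M.l i ∨ M.θ v + 1 = M.X i + M.l i

/-- The vertices lie on a common arc. -/
def Sd (u v : V) : Prop := u ≠ v ∧ ∃ i, M.mem i u ∧ M.mem i v

variable {M}

theorem Sd_symm {u v : V} (h : M.Sd u v) : M.Sd v u := by
  obtain ⟨h1, i, h2, h3⟩ := h
  exact ⟨h1.symm, i, h3, h2⟩

theorem mem_congr {i : I} {u v : V} (h : M.θ u = M.θ v) : M.mem i u ↔ M.mem i v := by
  unfold mem
  rw [h]

theorem en_congr {i : I} {u v : V} (h : M.θ u = M.θ v) : M.en i u ↔ M.en i v := by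
  unfold en
  rw [h]

theorem Sd_congr {u v w : V} (h : M.θ u = M.θ v) (hw : w ≠ v) (hS : M.Sd w u) : M.Sd w v := by
  obtain ⟨_, i, h2, h3⟩ := hS
  exact ⟨hw, i, h2, (mem_congr h).1 h3⟩

theorem mem_start {i : I} {u : V} (h : M.θ u = M.X i) : M.mem i u := by
  left
  have := M.hl i
  exact ⟨h.ge, by linarith⟩

theorem mem_en {i : I} {u : V} (h : M.en i u) : M.mem i u := by
  have := M.hl i
  rcases h with h | h
  · left
    exact ⟨by linarith, h.le⟩
  · right
    exact h.le

theorem not_start_en {i j : I} {u : V} (h : M.θ u = M.X i) : ¬ M.en j u := by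
  rintro (h1 | h1)
  · exact (M.e2 i j).1 (by linarith)
  · exact (M.e2 i j).2 (by linarith)

theorem en_unique {i j : I} {u : V} (h : M.en i u) (h' : M.en j u) : i = j := by
  rcases h with h | h <;> rcases h' with h' | h'
  · exact M.e3 i j (Or.inl (by linarith))
  · exact (M.e3 j i (Or.inr (by linarith))).symm
  · exact M.e3 i j (Or.inr (by linarith))
  · exact M.e3 i j (Or.inl (by linarith))

variable {k : ℕ} {c : V → Fin k}

/-- The colouring is good: vertices of the same colour on an arc are its two ends. -/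
def Good (M : Mdl V I) (c : V → Fin k) : Prop :=
  ∀ i u v, u ≠ v → M.mem i u → M.mem i v → c u = c v →
    (M.θ u = M.X i ∧ M.en i v) ∨ (M.θ v = M.X i ∧ M.en i u)

theorem Good.unique (hg : Good M c) {i : I} {u v : V} (hu : M.mem i u) (h : M.θ u = M.θ v)
    (hc : c u = c v) : u = v := by
  by_contra hne
  rcases hg i u v hne hu ((mem_congr h).1 hu) hc with ⟨h1, h2⟩ | ⟨h1, h2⟩
  · exact not_start_en (h.symm.trans h1) h2
  · exact not_start_en (h.trans h1) h2

/-- The vertex has a partner of the same colour. -/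
def mt (M : Mdl V I) (c : V → Fin k) (v : V) : Prop := ∃ u, M.Sd u v ∧ c u = c v

open Classical in
/-- The secondary key: matched initial ends come first, matched final ends come last. -/
noncomputable def kap (M : Mdl V I) (c : V → Fin k) (v : V) : ℕ :=
  if mt M c v then (if ∃ i, M.θ v = M.X i then 0 else 2) else 1

theorem kap_zero {v : V} (h : kap M c v = 0) : mt M c v ∧ ∃ i, M.θ v = M.X i := by
  unfold kap at h
  by_cases h1 : mt M c v
  · rw [if_pos h1] at h
    by_cases h2 : ∃ i, M.θ v = M.X i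
    · exact ⟨h1, h2⟩
    · rw [if_neg h2] at h
      omega
  · rw [if_neg h1] at h
    omega

theorem kap_start {v : V} (h1 : mt M c v) (h2 : ∃ i, M.θ v = M.X i) : kap M c v = 0 := by
  unfold kap
  rw [if_pos h1, if_pos h2]

theorem kap_two {v : V} (h : 2 ≤ kap M c v) : mt M c v ∧ ¬ ∃ i, M.θ v = M.X i := by
  unfold kap at h
  by_cases h1 : mt M c v
  · rw [if_pos h1] at h
    by_cases h2 : ∃ i, M.θ v = M.X i
    · rw [if_pos h2] at h
      omega
    · exact ⟨h1, h2⟩
  · rw [if_neg h1] at h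
    omega

theorem kap_end {v : V} (h1 : mt M c v) (h2 : ¬ ∃ i, M.θ v = M.X i) : kap M c v = 2 := by
  unfold kap
  rw [if_pos h1, if_neg h2]

theorem kap_le (v : V) : kap M c v ≤ 2 := by
  unfold kap
  split_ifs <;> omega

/-- A matched initial end is matched to the final end of the same arc. -/
theorem Good.partner_start (hg : Good M c) {i : I} {v : V} (h : mt M c v) (hv : M.θ v = M.X i) :
    ∃ w, M.en i w ∧ c w = c v := by
  obtain ⟨u, ⟨hne, j, hu, hv'⟩, hc⟩ := h
  rcases hg j u v hne hu hv' hc with ⟨_, h2⟩ | ⟨h1, h2⟩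
  · exact absurd h2 (not_start_en hv)
  · have h3 := M.e1 i j (hv.symm.trans h1)
    subst h3
    exact ⟨u, h2, hc⟩

/-- A matched final end is matched to the initial end of the same arc. -/
theorem Good.partner_end (hg : Good M c) {i : I} {v : V} (h : mt M c v) (hv : M.en i v) :
    ∃ w, M.θ w = M.X i ∧ c w = c v := by
  obtain ⟨u, ⟨hne, j, hu, hv'⟩, hc⟩ := h
  rcases hg j u v hne hu hv' hc with ⟨h1, h2⟩ | ⟨h1, h2⟩
  · have h3 := en_unique hv h2
    subst h3
    exact ⟨u, h1, hc⟩
  · exact absurd hv (not_start_en h1)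

theorem mt_of_ends {i : I} {u v : V} (hu : M.θ u = M.X i) (hv : M.en i v) (hc : c u = c v) :
    mt M c u ∧ mt M c v := by
  have hne : u ≠ v := by
    rintro rfl
    exact not_start_en hu hv
  exact ⟨⟨v, ⟨hne.symm, i, mem_en hv, mem_start hu⟩, hc.symm⟩,
    ⟨u, ⟨hne, i, mem_start hu, mem_en hv⟩, hc⟩⟩

/-- The order of the vertices. -/
def Ordered [LinearOrder V] (M : Mdl V I) (c : V → Fin k) : Prop :=
  ∀ u v : V, u < v → M.θ u < M.θ v ∨ (M.θ u = M.θ v ∧
    (kap M c u < kap M c v ∨ (kap M c u = kap M c v ∧ c u ≤ c v)))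

theorem exists_order [Fintype V] (M : Mdl V I) (c : V → Fin k) :
    ∃ _ : LinearOrder V, Ordered M c := by
  have hinj : Function.Injective
      (fun v : V => toLex (M.θ v, toLex (kap M c v, toLex (c v, Fintype.equivFin V v)))) := by
    intro u v h
    have h1 := congrArg (fun p => (ofLex (ofLex (ofLex p).2).2).2) h
    exact (Fintype.equivFin V).injective h1
  refine ⟨LinearOrder.lift' _ hinj, ?_⟩
  intro u v h
  have h1 : toLex (M.θ u, toLex (kap M c u, toLex (c u, Fintype.equivFin V u))) <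
    toLex (M.θ v, toLex (kap M c v, toLex (c v, Fintype.equivFin V v))) := h
  rw [Prod.Lex.toLex_lt_toLex] at h1
  rcases h1 with h1 | ⟨h1, h2⟩
  · exact Or.inl h1
  · right
    refine ⟨h1, ?_⟩
    simp only at h2
    rw [Prod.Lex.toLex_lt_toLex] at h2
    rcases h2 with h2 | ⟨h2, h3⟩
    · exact Or.inl h2
    · right
      refine ⟨h2, ?_⟩
      simp only at h3
      rw [Prod.Lex.toLex_lt_toLex] at h3
      rcases h3 with h3 | ⟨h3, _⟩
      · exact h3.le
      · exact h3.le

end Mdl

end Run7.h349
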