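import Pool.Agent.Run7.h349.Fz1

set_option autoImplicit false
set_option linter.unusedSectionVars false

/-!
# The colours missing on an arc with matched ends
-/

namespace Run7.h349

open Finset

namespace Mdl

variable {V I : Type} [Fintype V] [LinearOrder V] {M : Mdl V I} {k : ℕ} {c : V → Fin k}

theorem Ordered.le (ho : Ordered M c) {u v : V} (h : u ≤ v) : M.θ u ≤ M.θ v := by
  rcases eq_or_lt_of_le h with h | h
  · rw [h]
  · rcases ho u v h with h1 | h1
    · exact h1.le
    · exact h1.1.le

theorem Ordered.lt (ho : Ordered M c) {u v : V} (h : M.θ u < M.θ v) : u < v := by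
  by_contra hcon
  push Not at hcon
  have := ho.le hcon
  linarith

theorem Ordered.kap_le (ho : Ordered M c) {u v : V} (h : u < v) (h1 : M.θ u = M.θ v) :
    kap M c u ≤ kap M c v := by
  rcases ho u v h with h2 | ⟨_, h2 | h2⟩
  · linarith
  · exact h2.le
  · exact h2.1.le

theorem Ordered.col_le (ho : Ordered M c) {u v : V} (h : u < v) (h1 : M.θ u = M.θ v)
    (h2 : kap M c u = kap M c v) : c u ≤ c v := by
  rcases ho u v h with h3 | ⟨_, h3 | h3⟩
  · linarith
  · omega
  · exact h3.2

section tight

variable (ho : Ordered M c) (hg : Good M c) {f : I} (hf : M.X f + M.l f = 1) {a b : V}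
  (ha : M.θ a = M.X f) (hb : M.θ b = 0) {α γ : Fin k} (hca : c a = α) (hcb : c b = α)
  (hγ : ∀ v, c v = γ → ¬ M.mem f v)

include hg hf ha hb hca hcb hγ

theorem tight_pos {v : V} (hv : c v = α ∨ c v = γ) :
    (v = a ∨ v = b ∨ (0 < M.θ v ∧ M.θ v < M.X f)) := by
  by_cases hm : M.mem f v
  · have h1 : c v = α := by
      rcases hv with h | h
      · exact h
      · exact absurd hm (hγ v h)
    by_cases hva : v = a
    · exact Or.inl hva
    · right; left
      rcases hg f v a hva hm (mem_start ha) (h1.trans hca.symm) with ⟨_, h2⟩ | ⟨_, h2⟩
      · exact absurd h2 (not_start_en ha)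
      · have h3 : M.θ v = M.θ b := by
          have := M.hθ v
          rcases h2 with h2 | h2 <;> linarith
        exact hg.unique hm h3 (h1.trans hcb.symm)
  · right; right
    unfold mem at hm
    push Not at hm
    have h1 := M.hθ v
    obtain ⟨h2, h3⟩ := hm
    constructor
    · linarith
    · by_contra h4
      push Not at h4
      have := h2 h4
      linarith

theorem tight_le {v : V} (hv : c v = α ∨ c v = γ) : M.θ v ≤ M.X f := by
  rcases tight_pos hg hf ha hb hca hcb hγ hv with h | h | h
  · rw [h, ha]
  · rw [h, hb]
    exact (M.hX f).1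
  · exact h.2.le

include ho

theorem no_cross {g1 g2 u v : V} (h1 : c g1 = α ∨ c g1 = γ) (h2 : c g2 = α ∨ c g2 = γ)
    (h12 : g1 < g2) (hcons : ∀ w, (c w = α ∨ c w = γ) → g1 < w → g2 ≤ w)
    (hc12 : c g1 = c g2) (hu : c u = α ∨ c u = γ) (hv : c v = α ∨ c v = γ) (hu1 : u ≤ g1)
    (hv2 : g2 ≤ v) (hS : M.Sd u v) : c u = c v := by
  by_contra hne
  obtain ⟨_, j, hju, hjv⟩ := hS
  have t1 := ho.le hu1
  have t2 := ho.le h12.le
  have t3 := ho.le hv2
  have hXf := M.hX f
  have hlj := M.hl j
  have hXj := M.hX j
  have b1 := tight_le hg hf ha hb hca hcb hγ hu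
  have b2 := tight_le hg hf ha hb hca hcb hγ hv
  by_cases hjf : j = f
  · subst hjf
    apply hne
    have e1 : c u = α := by
      rcases hu with h | h
      · exact h
      · exact absurd hju (hγ u h)
    have e2 : c v = α := by
      rcases hv with h | h
      · exact h
      · exact absurd hjv (hγ v h)
    rw [e1, e2]
  · have hnn := (M.nn f j (fun h => hjf h.symm)).1
    rw [hf] at hnn
    by_cases hcase : M.X f < M.X j
    · -- the arc `j` starts inside `f`
      have e1 : M.θ v + 1 ≤ M.X j + M.l j := by
        rcases hjv with h | h
        · linarith [h.1]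
        · exact h
      have m1 : M.mem j g1 := Or.inr (by linarith)
      have m2 : M.mem j g2 := Or.inr (by linarith)
      rcases hg j g1 g2 h12.ne m1 m2 hc12 with ⟨h, _⟩ | ⟨h, _⟩
      · linarith
      · linarith
    · push Not at hcase
      have hlt : M.X j + M.l j < 1 := by
        by_contra h
        push Not at h
        exact hnn ⟨hcase, h⟩
      have e1 : M.X j ≤ M.θ u := by
        rcases hju with h | h
        · exact h.1
        · have := M.hθ u
          linarith
      have e2 : M.θ v ≤ M.X j + M.l j := by
        rcases hjv with h | h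
        · exact h.2
        · have := M.hθ v
          linarith
      have m1 : M.mem j g1 := Or.inl ⟨by linarith, by linarith⟩
      have m2 : M.mem j g2 := Or.inl ⟨by linarith, by linarith⟩
      rcases hg j g1 g2 h12.ne m1 m2 hc12 with ⟨hs, he⟩ | ⟨hs, he⟩
      · have he' : M.θ g2 = M.X j + M.l j := by
          rcases he with h | h
          · exact h
          · have := M.hθ g2
            linarith
        have eu : M.θ u = M.θ g1 := by linarith
        have ev : M.θ v = M.θ g2 := by linarith
        have hmt := mt_of_ends hs he hc12
        have kg1 : kap M c g1 = 0 := kap_start hmt.1 ⟨j, hs⟩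
        have kg2 : kap M c g2 = 2 := kap_end hmt.2 (by
          rintro ⟨i, hi⟩
          exact not_start_en hi he)
        by_cases hcu : c u = c g1
        · have hug : u = g1 := hg.unique hju eu hcu
          have hvg : g2 < v := by
            rcases eq_or_lt_of_le hv2 with h | h
            · exfalso
              apply hne
              rw [hcu, hc12, h]
            · exact h
          have kv : kap M c v = 2 := by
            have h3 := ho.kap_le hvg ev.symm
            have h4 := kap_le (M := M) (c := c) v
            omega
          have hmv := kap_two (by omega : 2 ≤ kap M c v)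
          have hev : M.en j v := (en_congr ev.symm).1 he
          obtain ⟨w, hw1, hw2⟩ := hg.partner_end hmv.1 hev
          have hwD : c w = α ∨ c w = γ := by rw [hw2]; exact hv
          have hwne : w ≠ g1 := by
            rintro rfl
            apply hne
            rw [hcu, hw2]
          have hwlt : w < g1 := by
            rcases lt_or_gt_of_ne hwne with h | h
            · exact h
            · exfalso
              have h3 := ho.le (hcons w hwD h)
              linarith
          have kw : kap M c w = 0 := kap_start (mt_of_ends hw1 hev hw2).1 ⟨j, hw1⟩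
          have h5 := ho.col_le hwlt (by rw [hw1, hs]) (by rw [kw, kg1])
          have h6 := ho.col_le hvg ev.symm (by rw [kg2, kv])
          rw [hw2] at h5
          apply hne
          rw [hcu]
          apply le_antisymm
          · rw [hc12]; exact h6
          · exact h5
        · have hcv : c v = c g2 := by
            rw [← hc12]
            rcases hu with h | h <;> rcases hv with h' | h' <;> rcases h1 with h'' | h''
            · exact absurd (h.trans h'.symm) hne
            · exact absurd (h.trans h'.symm) hne
            · exact absurd (h.trans h''.symm) hcu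
            · exact h'.trans h''.symm
            · exact h'.trans h''.symm
            · exact absurd (h.trans h''.symm) hcu
            · exact absurd (h.trans h'.symm) hne
            · exact absurd (h.trans h'.symm) hne
          have hvg : v = g2 := hg.unique hjv ev hcv
          have hug : u < g1 := by
            rcases eq_or_lt_of_le hu1 with h | h
            · exfalso
              apply hcu
              rw [h]
            · exact h
          have ku : kap M c u = 0 := by
            have h3 := ho.kap_le hug eu
            omega
          have hmu := kap_zero ku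
          have hsu : M.θ u = M.X j := eu.trans hs
          obtain ⟨w, hw1, hw2⟩ := hg.partner_start hmu.1 hsu
          have hwθ : M.θ w = M.X j + M.l j := by
            rcases hw1 with h | h
            · exact h
            · have := M.hθ w
              linarith
          have hwD : c w = α ∨ c w = γ := by rw [hw2]; exact hu
          have hgw : g1 < w := ho.lt (by linarith)
          have hwne : g2 ≠ w := by
            rintro rfl
            apply hcu
            rw [← hw2, hc12]
          have hlt2 : g2 < w := lt_of_le_of_ne (hcons w hwD hgw) hwne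
          have kw : kap M c w = 2 := kap_end (mt_of_ends hsu hw1 hw2.symm).2 (by
            rintro ⟨i, hi⟩
            exact not_start_en hi hw1)
          have h5 := ho.col_le hlt2 (by rw [hwθ, he']) (by rw [kw, kg2])
          have h6 := ho.col_le hug eu (by rw [ku, kg1])
          apply hcu
          apply le_antisymm h6
          rw [hc12, ← hw2]
          exact h5
      · have : M.θ g1 = M.X j + M.l j := by
          rcases he with h | h
          · exact h
          · have := M.hθ g1
            linarith
        linarith

/-- Consecutive elements of the two colour classes have different colours. -/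
theorem alternate (hαγ : α ≠ γ)
    (hR : ∀ c1 : V → Fin k, (∀ u v, M.Sd u v → c u ≠ c v → c1 u ≠ c1 v) → c1 a = c1 b)
    {g1 g2 : V} (h1 : c g1 = α ∨ c g1 = γ) (h2 : c g2 = α ∨ c g2 = γ)
    (h12 : g1 < g2) (hcons : ∀ w, (c w = α ∨ c w = γ) → g1 < w → g2 ≤ w) :
    c g1 ≠ c g2 := by
  classical
  intro hc12
  set c1 : V → Fin k := fun v => if (c v = α ∨ c v = γ) ∧ v ≤ g1 then
    (if c v = α then γ else α) else c v with hc1
  have hin : ∀ v, (c v = α ∨ c v = γ) ∧ v ≤ g1 → c1 v = if c v = α then γ else α := by
    intro v hv
    simp only [hc1]
    rw [if_pos hv]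
  have hout : ∀ v, ¬ ((c v = α ∨ c v = γ) ∧ v ≤ g1) → c1 v = c v := by
    intro v hv
    simp only [hc1]
    rw [if_neg hv]
  have hmem : ∀ v, (c v = α ∨ c v = γ) ∧ v ≤ g1 → (c1 v = α ∨ c1 v = γ) := by
    intro v hv
    rw [hin v hv]
    split_ifs
    · exact Or.inr rfl
    · exact Or.inl rfl
  have hprop : ∀ u v, M.Sd u v → c u ≠ c v → c1 u ≠ c1 v := by
    have key : ∀ u v, M.Sd u v → c u ≠ c v → ((c u = α ∨ c u = γ) ∧ u ≤ g1) →
        ¬ ((c v = α ∨ c v = γ) ∧ v ≤ g1) → c1 u ≠ c1 v := by
      intro u v hS hne hu hv
      rw [hout v hv]
      by_cases hvD : c v = α ∨ c v = γ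
      · exfalso
        apply hne
        have hgv : g1 < v := by
          by_contra h
          push Not at h
          exact hv ⟨hvD, h⟩
        exact no_cross ho hg hf ha hb hca hcb hγ h1 h2 h12 hcons hc12 hu.1 hvD hu.2
          (hcons v hvD hgv) hS
      · intro h
        apply hvD
        rw [← h]
        exact hmem u hu
    intro u v hS hne
    by_cases hu : (c u = α ∨ c u = γ) ∧ u ≤ g1
    · by_cases hv : (c v = α ∨ c v = γ) ∧ v ≤ g1
      · rw [hin u hu, hin v hv]
        split_ifs with h3 h4
        · exact absurd (h3.trans h4.symm) hne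
        · exact hαγ.symm
        · exact hαγ
        · rcases hu.1 with h5 | h5
          · exact absurd h5 h3
          · rcases hv.1 with h6 | h6
            · contradiction
            · exact absurd (h5.trans h6.symm) hne
      · exact key u v hS hne hu hv
    · by_cases hv : (c v = α ∨ c v = γ) ∧ v ≤ g1
      · exact (key v u (Sd_symm hS) hne.symm hv hu).symm
      · rw [hout u hu, hout v hv]
        exact hne
  have h3 := hR c1 hprop
  have hbg : b ≤ g1 := by
    by_contra h
    push Not at h
    have h4 := ho.le h.le
    have h5 := M.hθ g1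
    have hm : M.mem f g1 := Or.inr (by linarith)
    have h6 : c g1 = α := by
      rcases h1 with h6 | h6
      · exact h6
      · exact absurd hm (hγ g1 h6)
    have h7 : g1 = b := hg.unique hm (by linarith) (h6.trans hcb.symm)
    exact absurd h7 h.ne
  have hga : ¬ a ≤ g1 := by
    intro h
    have h4 := ho.le h
    have h5 := ho.le h12.le
    have h6 := tight_le hg hf ha hb hca hcb hγ h2
    have hXf := M.hX f
    have hlf := M.hl f
    have hm : M.mem f g2 := Or.inl ⟨by linarith, by linarith⟩
    have h7 : c g2 = α := by
      rcases h2 with h7 | h7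
      · exact h7
      · exact absurd hm (hγ g2 h7)
    have h8 : g2 = a := hg.unique hm (by linarith) (h7.trans hca.symm)
    rw [h8] at h12
    exact absurd h (not_le.2 h12)
  rw [hout a (fun h => hga h.2), hin b ⟨Or.inl hcb, hbg⟩, if_pos hcb, hca] at h3
  exact hαγ h3

open Classical in
/-- A colour missing on an arc with matched ends occurs less often than the colour of the ends. -/
theorem tight
    (hR : ∀ c1 : V → Fin k, (∀ u v, M.Sd u v → c u ≠ c v → c1 u ≠ c1 v) → c1 a = c1 b) :
    (univ.filter fun v => c v = γ).card < (univ.filter fun v => c v = α).card := by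
  have hαγ : α ≠ γ := by
    intro h
    exact hγ a (hca.trans h) (mem_start ha)
  have hpos : ∀ v, c v = γ → 0 < M.θ v ∧ M.θ v < M.X f := by
    intro v hv
    rcases tight_pos hg hf ha hb hca hcb hγ (Or.inr hv) with h | h | h
    · exact absurd (mem_start (by rw [h, ha])) (hγ v hv)
    · exfalso
      apply hγ v hv
      rw [h]
      exact Or.inr (by linarith)
    · exact h
  have hne : ∀ v, c v = γ → (univ.filter fun w => (c w = α ∨ c w = γ) ∧ v < w).Nonempty := by
    intro v hv
    refine ⟨a, ?_⟩
    rw [mem_filter]
    refine ⟨mem_univ _, Or.inl hca, ho.lt ?_⟩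
    rw [ha]
    exact (hpos v hv).2
  set nxt : V → V := fun v => if h : c v = γ then
    (univ.filter fun w => (c w = α ∨ c w = γ) ∧ v < w).min' (hne v h) else v with hnxt
  have hn : ∀ v (h : c v = γ), nxt v = (univ.filter fun w => (c w = α ∨ c w = γ) ∧ v < w).min'
      (hne v h) := by
    intro v h
    simp only [hnxt]
    rw [dif_pos h]
  have hn1 : ∀ v, c v = γ → (c (nxt v) = α ∨ c (nxt v) = γ) ∧ v < nxt v := by
    intro v h
    have h1 := Finset.min'_mem _ (hne v h)
    rw [← hn v h] at h1
    exact (mem_filter.1 h1).2
  have hn2 : ∀ v, c v = γ → ∀ w, (c w = α ∨ c w = γ) → v < w → nxt v ≤ w := by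
    intro v h w h1 h2
    rw [hn v h]
    exact Finset.min'_le _ _ (mem_filter.2 ⟨mem_univ _, h1, h2⟩)
  have hn3 : ∀ v, c v = γ → c (nxt v) = α := by
    intro v h
    have h1 := hn1 v h
    rcases h1.1 with h2 | h2
    · exact h2
    · exfalso
      exact alternate ho hg hf ha hb hca hcb hγ hαγ hR (Or.inr h) h1.1 h1.2 (hn2 v h)
        (h.trans h2.symm)
  have hcard : (univ.filter fun v => c v = γ).card ≤
      ((univ.filter fun v => c v = α).erase b).card := by
    apply Finset.card_le_card_of_injOn nxt
    · intro v hv
      rw [Finset.mem_coe, mem_filter] at hv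
      rw [Finset.mem_coe, mem_erase, mem_filter]
      refine ⟨?_, mem_univ _, hn3 v hv.2⟩
      intro h
      have h1 := (hn1 v hv.2).2
      rw [h] at h1
      have h2 := ho.le h1.le
      have h3 := (hpos v hv.2).1
      linarith
    · intro v hv w hw he
      rw [Finset.mem_coe, mem_filter] at hv hw
      rcases lt_trichotomy v w with h | h | h
      · exfalso
        have h1 := hn2 v hv.2 w (Or.inr hw.2) h
        have h2 := (hn1 w hw.2).2
        rw [he] at h1
        exact absurd h2 (not_lt.2 h1)
      · exact h
      · exfalso
        have h1 := hn2 w hw.2 v (Or.inr hv.2) h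
        have h2 := (hn1 v hv.2).2
        rw [← he] at h1
        exact absurd h2 (not_lt.2 h1)
  have hbm : b ∈ univ.filter fun v => c v = α := mem_filter.2 ⟨mem_univ _, hcb⟩
  have h1 := Finset.card_erase_of_mem hbm
  have h2 : 0 < (univ.filter fun v => c v = α).card := Finset.card_pos.2 ⟨b, hbm⟩
  omega

end tight

end Mdl

end Run7.h349
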