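import Pool.Agent.Run7.h349.Fz2

set_option autoImplicit false
set_option linter.unusedSectionVars false

/-!
# The surplus edges
-/

namespace Run7.h349

open Finset

namespace Mdl

variable {V I : Type} [Fintype V] [LinearOrder V] {M : Mdl V I} {k : ℕ} {c : V → Fin k}

/-- Surplus edges. -/
def Sur (M : Mdl V I) (c : V → Fin k) (u v : V) : Prop :=
  u < v ∧ M.Sd u v ∧ c u ≠ c v ∧ ∃ w, u < w ∧ w < v ∧ c w = c u ∧ M.Sd w v

/-- Surplus edges between two matched pairs of an arc that does not contain the base point. -/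
def Nt (M : Mdl V I) (c : V → Fin k) (u v : V) : Prop :=
  ∃ i, M.θ u = M.X i ∧ M.θ v = M.X i + M.l i ∧ c u < c v ∧
    (∃ w, M.θ w = M.X i + M.l i ∧ c w = c u) ∧ ∃ w, M.θ w = M.X i ∧ c w = c v

/-- Surplus edges that wrap around the base point. -/
def Wt (M : Mdl V I) (i0 : I) (u v : V) : Prop :=
  ∃ j, M.θ u + 1 ≤ M.X j + M.l j ∧ M.X j ≤ M.θ v ∧ M.θ u < M.l i0

theorem en_lt {i : I} {v : V} (h : M.en i v) (hw : M.X i + M.l i < 1) :
    M.θ v = M.X i + M.l i := by
  rcases h with h | h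
  · exact h
  · have := M.hθ v
    linarith

theorem en_of_le {i : I} {v : V} (h : M.en i v) (hw : M.X i ≤ M.θ v) :
    M.θ v = M.X i + M.l i := by
  rcases h with h | h
  · exact h
  · have := M.hl i
    linarith

theorem wrap_lt (i0 : I) (h0 : M.X i0 = 0) {j : I} {u : V} (h : M.θ u + 1 ≤ M.X j + M.l j) :
    M.θ u < M.l i0 := by
  have hu := M.hθ u
  have hl0 := M.hl i0
  by_contra hcon
  push Not at hcon
  by_cases hj : j = i0
  · subst hj
    linarith
  · exact (M.nn i0 j (fun h => hj h.symm)).2 (by linarith)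

variable (i0 : I) (h0 : M.X i0 = 0) (ho : Ordered M c) (hg : Good M c)

include h0 in
theorem mem_i0 {v : V} : M.mem i0 v ↔ M.θ v ≤ M.l i0 := by
  have hl0 := M.hl i0
  have hv := M.hθ v
  unfold mem
  constructor
  · rintro (h | h)
    · linarith [h.2]
    · linarith
  · intro h
    left
    constructor <;> linarith

include h0 hg in
/-- Vertices of the same colour on the first arc. -/
theorem same_i0 {u v : V} (hu : M.θ u < M.l i0) (hv : M.θ v < M.l i0) (hc : c u = c v) :
    u = v := by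
  by_contra hne
  rcases hg i0 u v hne ((mem_i0 i0 h0).2 hu.le) ((mem_i0 i0 h0).2 hv.le) hc with ⟨_, h⟩ | ⟨_, h⟩
  · have := en_of_le h (by rw [h0]; exact (M.hθ v).1)
    linarith
  · have := en_of_le h (by rw [h0]; exact (M.hθ u).1)
    linarith

include ho hg in
theorem Sur.normal {u v : V} (h : Sur M c u v) {i : I} (h1 : M.X i ≤ M.θ u)
    (h2 : M.θ v ≤ M.X i + M.l i) : Nt M c u v := by
  obtain ⟨huv, _, hne, w, hw1, hw2, hw3, _⟩ := h
  have e1 := ho.le hw1.le
  have e2 := ho.le hw2.le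
  have mu : M.mem i u := Or.inl ⟨h1, by linarith⟩
  have mw : M.mem i w := Or.inl ⟨by linarith, by linarith⟩
  rcases hg i u w hw1.ne mu mw hw3.symm with ⟨hs, he⟩ | ⟨hs, he⟩
  · have hwe := en_of_le he (by linarith)
    have hve : M.θ v = M.X i + M.l i := by linarith
    have hmt := mt_of_ends hs he hw3.symm
    have kw : kap M c w = 2 := kap_end hmt.2 (by
      rintro ⟨i', hi'⟩
      exact not_start_en hi' he)
    have hθ : M.θ w = M.θ v := by rw [hwe, hve]
    have kv : kap M c v = 2 := by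
      have h3 := ho.kap_le hw2 hθ
      have h4 := kap_le (M := M) (c := c) v
      omega
    have hmv := kap_two (by omega : 2 ≤ kap M c v)
    obtain ⟨v', hv1, hv2⟩ := hg.partner_end hmv.1 ((en_congr hθ).1 he)
    have hcl := ho.col_le hw2 hθ (by rw [kw, kv])
    rw [hw3] at hcl
    exact ⟨i, hs, hve, lt_of_le_of_ne hcl hne, ⟨w, hwe, hw3⟩, v', hv1, hv2⟩
  · exfalso
    have : M.θ u = M.X i := by linarith
    exact not_start_en this he

include h0 ho hg in
theorem Sur.kind {u v : V} (h : Sur M c u v) : Nt M c u v ∨ Wt M i0 u v := by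
  have h' := h
  obtain ⟨huv, ⟨_, j, hju, hjv⟩, _⟩ := h'
  have e1 := ho.le huv.le
  rcases hju with hju | hju
  · rcases hjv with hjv | hjv
    · left
      exact h.normal ho hg hju.1 hjv.2
    · left
      have h1 := wrap_lt i0 h0 hjv
      exact h.normal ho hg (i := i0) (by rw [h0]; exact (M.hθ u).1) (by rw [h0]; linarith)
  · rcases hjv with hjv | hjv
    · right
      exact ⟨j, hju, hjv.1, wrap_lt i0 h0 hju⟩
    · left
      have h1 := wrap_lt i0 h0 hjv
      exact h.normal ho hg (i := i0) (by rw [h0]; exact (M.hθ u).1) (by rw [h0]; linarith)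

/-- Two vertices of the same colour in the two parts of a wrapping arc. -/
theorem wrap_pair (hg : Good M c) {j : I} {u v : V} (hu : M.θ u + 1 ≤ M.X j + M.l j)
    (hv : M.X j ≤ M.θ v) (hc : c u = c v) : M.θ v = M.X j ∧ M.en j u := by
  have hl := M.hl j
  have hlt : M.θ u < M.θ v := by linarith
  have hvv := M.hθ v
  have huu := M.hθ u
  have hne : u ≠ v := by
    rintro rfl
    exact lt_irrefl _ hlt
  rcases hg j u v hne (Or.inr hu) (Or.inl ⟨hv, by linarith⟩) hc with ⟨h1, _⟩ | h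
  · linarith
  · exact h

/-- Two vertices of the same colour in the main part of a wrapping arc. -/
theorem wrap_main (hg : Good M c) {j : I} {v1 v2 : V} (hj : 1 ≤ M.X j + M.l j)
    (h1 : M.X j ≤ M.θ v1) (h2 : M.X j ≤ M.θ v2) (hc : c v1 = c v2) : v1 = v2 := by
  by_contra hne
  have e1 := M.hθ v1
  have e2 := M.hθ v2
  rcases hg j v1 v2 hne (Or.inl ⟨h1, by linarith⟩) (Or.inl ⟨h2, by linarith⟩) hc with
    ⟨_, h⟩ | ⟨_, h⟩
  · have := en_of_le h h2
    linarith
  · have := en_of_le h h1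
    linarith

include h0 ho hg in
/-- Case A: the colours of the first vertices agree. -/
theorem sur_same {u1 v1 u2 v2 : V} (s1 : Sur M c u1 v1) (s2 : Sur M c u2 v2)
    (b1 : M.θ u1 ≤ M.l i0) (b2 : M.θ u2 ≤ M.l i0) (hu : c u1 = c u2) (hv : c v1 = c v2) :
    u1 = u2 ∧ v1 = v2 := by
  -- `u1 = u2`
  have huu : u1 = u2 := by
    have key : ∀ x y y' : V, Sur M c y y' → c x = c y → M.θ x ≤ M.l i0 → M.θ y ≤ M.l i0 →
        M.θ x = M.X i0 → M.en i0 y → False := by
      intro x y y' s _ _ _ _ he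
      have hye := en_of_le he (by rw [h0]; exact (M.hθ y).1)
      rcases s.kind i0 h0 ho hg with ⟨i, h1, _⟩ | ⟨j, h1, _, h3⟩
      · exact not_start_en h1 he
      · rw [h0] at hye
        linarith
    by_contra hne
    rcases hg i0 u1 u2 hne ((mem_i0 i0 h0).2 b1) ((mem_i0 i0 h0).2 b2) hu with ⟨h1, h2⟩ | ⟨h1, h2⟩
    · exact key u1 u2 v2 s2 hu b1 b2 h1 h2
    · exact key u2 u1 v1 s1 hu.symm b2 b1 h1 h2
  refine ⟨huu, ?_⟩
  subst huu
  -- `v1 = v2`
  have key : ∀ x y : V, Sur M c u1 x → Sur M c u1 y → c x = c y → x < y → False := by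
    intro x y sx sy hxy hlt
    obtain ⟨hux, _, _, w, hw1, hw2, hw3, _⟩ := id sx
    rcases sy.kind i0 h0 ho hg with ⟨i, hi1, hi2, _⟩ | ⟨j, hj1, hj2, _⟩
    · -- normal
      have e0 := ho.le hw1.le
      have e0' := ho.le hw2.le
      have e1 := ho.le hux.le
      have e2 := ho.le hlt.le
      rcases hg i x y hlt.ne (Or.inl ⟨by linarith, by linarith⟩)
        (Or.inl ⟨by linarith, by linarith⟩) hxy with ⟨h1, _⟩ | ⟨h1, _⟩
      · have h3 : M.θ u1 = M.θ w := by linarith
        exact hw1.ne (hg.unique (mem_start hi1) h3 hw3.symm)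
      · have h3 := M.hl i
        linarith
    · have hy1 := M.hθ y
      have hu1 := M.hθ u1
      have e2 := ho.le hlt.le
      rcases le_or_gt (M.X j) (M.θ x) with hx | hx
      · exact hlt.ne (wrap_main hg (by linarith) hx hj2 hxy)
      · rcases sx.kind i0 h0 ho hg with ⟨i, hi1, hi2, _, _, x', hx1, hx2⟩ | ⟨j1, ha, hb, _⟩
        · have h4 := (wrap_pair hg (j := j) (u := x') (v := y) (by rw [hx1, ← hi1]; exact hj1) hj2
            (hx2.trans hxy)).2
          exact not_start_en hx1 h4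
        · exact hlt.ne (wrap_main hg (by linarith) hb (by linarith) hxy)
  rcases lt_trichotomy v1 v2 with h | h | h
  · exact absurd h (fun h => key v1 v2 s1 s2 hv h)
  · exact h
  · exact absurd h (fun h => key v2 v1 s2 s1 hv.symm h)

include h0 ho hg in
/-- Case B: the colours of the first vertices differ. -/
theorem sur_diff {u1 v1 u2 v2 : V} (s1 : Sur M c u1 v1) (s2 : Sur M c u2 v2)
    (b1 : M.θ u1 ≤ M.l i0) (b2 : M.θ u2 ≤ M.l i0) (hu : c u1 = c v2) (hv : c v1 = c u2) :
    False := by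
  -- normal and wrapping
  have nw : ∀ x1 y1 x2 y2 : V, M.θ x1 ≤ M.l i0 → c x1 = c y2 → c y1 = c x2 →
      Nt M c x1 y1 → Wt M i0 x2 y2 → False := by
    rintro x1 y1 x2 y2 hb hxy hyx ⟨i, hi1, hi2, _, _, z, hz1, hz2⟩ ⟨j, hj1, hj2, hj3⟩
    have hzx : z = x2 := by
      by_contra hne
      rcases hg i0 z x2 hne ((mem_i0 i0 h0).2 (by linarith)) ((mem_i0 i0 h0).2 hj3.le)
        (hz2.trans hyx) with ⟨_, h⟩ | ⟨_, h⟩
      · have := en_of_le h (by rw [h0]; exact (M.hθ x2).1)
        rw [h0] at this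
        linarith
      · exact not_start_en hz1 h
    have h5 := (wrap_pair hg (j := j) (u := x1) (v := y2)
      (by rw [hi1, ← hz1, hzx]; exact hj1) hj2 hxy).2
    exact not_start_en hi1 h5
  -- wrapping and wrapping
  have ww : ∀ x1 y1 x2 y2 : V, c x1 = c y2 → c y1 = c x2 → Sur M c x1 y1 →
      Wt M i0 x1 y1 → Wt M i0 x2 y2 → y1 < y2 → False := by
    rintro x1 y1 x2 y2 hxy hyx s ⟨j1, ha1, hb1, hc1⟩ ⟨j2, ha2, hb2, hc2⟩ hlt
    obtain ⟨hx1y1, _, hne1, w, hw1, hw2, hw3, hw4⟩ := id s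
    have e1 := ho.le hlt.le
    have h3 := wrap_pair hg (j := j1) (u := x1) (v := y2) ha1 (by linarith) hxy
    have hy12 : M.θ y1 = M.θ y2 := by linarith [h3.1]
    have hy1 : M.θ y1 = M.X j1 := by rw [hy12, h3.1]
    have hmt := mt_of_ends h3.1 h3.2 hxy.symm
    -- `w` is on the arc of `w` and `y1`
    obtain ⟨_, m, hm1, hm2⟩ := hw4
    have hwy2 : w ≠ y2 := by
      rintro rfl
      exact absurd hlt (lt_asymm hw2)
    rcases hg m w y2 hwy2 hm1 ((mem_congr hy12).1 hm2) (hw3.trans hxy) with ⟨_, h⟩ | ⟨h, h'⟩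
    · exact not_start_en h3.1 h
    · have hm : j1 = m := M.e1 j1 m (h3.1.symm.trans h)
      subst hm
      have hwx : M.θ x1 = M.θ w := by
        have q1 := M.hθ w
        have q2 := M.hθ x1
        have q3 := ho.le hw2.le
        have hl := M.hl j1
        rcases h' with h' | h' <;> rcases h3.2 with h'' | h'' <;> linarith
      exact hw1.ne (hg.unique (Or.inr ha1) hwx hw3.symm)
  rcases s1.kind i0 h0 ho hg with k1 | k1 <;> rcases s2.kind i0 h0 ho hg with k2 | k2
  · obtain ⟨_, _, _, h1, _⟩ := k1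
    obtain ⟨_, _, _, h2, _⟩ := k2
    rw [hu, hv] at h1
    exact lt_asymm h1 h2
  · exact nw u1 v1 u2 v2 b1 hu hv k1 k2
  · exact nw u2 v2 u1 v1 b2 hv.symm hu.symm k2 k1
  · rcases lt_trichotomy v1 v2 with h | h | h
    · exact ww u1 v1 u2 v2 hu hv s1 k1 k2 h
    · apply s1.2.2.1
      rw [hu, h]
    · exact ww u2 v2 u1 v1 hv.symm hu.symm s2 k2 k1 h

end Mdl

end Run7.h349
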