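import Pool.Agent.Run7.h349.Fz3

set_option autoImplicit false
set_option linter.unusedSectionVars false

/-!
# Nodes, and the number of edges between two classes
-/

namespace Run7.h349

open Finset

namespace Mdl

variable {V I : Type} [Fintype V] [LinearOrder V] {M : Mdl V I} {k : ℕ} {c : V → Fin k}

/-- The graph of the conflicts that the colouring respects. -/
def Gp (M : Mdl V I) (c : V → Fin k) : SimpleGraph V where
  Adj u v := M.Sd u v ∧ c u ≠ c v
  symm := ⟨fun _ _ h => ⟨Sd_symm h.1, h.2.symm⟩⟩
  loopless := ⟨fun _ h => h.2 rfl⟩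

/-- The colour `j` is matched on the arc `n`. -/
def MN (M : Mdl V I) (c : V → Fin k) (n : I) (j : Fin k) : Prop :=
  ∃ a b, M.θ a = M.X n ∧ M.θ b = M.X n + M.l n ∧ c a = j ∧ c b = j

/-- Arcs that start after the first arc and do not contain the base point. -/
def Nd (M : Mdl V I) (i0 n : I) : Prop := M.l i0 < M.X n ∧ M.X n + M.l n < 1

/-- The matched ends of an arc. -/
def inN (M : Mdl V I) (c : V → Fin k) (n : I) (v : V) : Prop :=
  (M.θ v = M.X n ∨ M.θ v = M.X n + M.l n) ∧ MN M c n (c v)

/-- The forbidden pairs. -/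
def Xb (M : Mdl V I) (c : V → Fin k) (i0 : I) (v : V) (j : Fin k) : Prop :=
  ∃ n, Nd M i0 n ∧ inN M c n v ∧ MN M c n j

theorem inN_unique {n n' : I} {v : V} (h : inN M c n v) (h' : inN M c n' v) : n = n' := by
  rcases h.1 with h1 | h1 <;> rcases h'.1 with h2 | h2
  · exact M.e1 n n' (h1.symm.trans h2)
  · exact absurd (Or.inl h2) (not_start_en h1)
  · exact absurd (Or.inl h1) (not_start_en h2)
  · exact en_unique (Or.inl h1) (Or.inl h2)

variable (i0 : I) (h0 : M.X i0 = 0) (ho : Ordered M c) (hg : Good M c)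
  (hss : ∀ u v, M.Sd u v → c u = c v → ∃ w, c w = c u ∧ M.θ w ≤ M.l i0)

include ho hss in
/-- The first vertices of the matched colours are early. -/
theorem fst_early {n : I} {j : Fin k} (hm : MN M c n j) {t : V} (ht : Fst c t) (hc : c t = j) :
    M.θ t ≤ M.l i0 := by
  obtain ⟨a, b, ha, hb, hca, hcb⟩ := hm
  have hne : a ≠ b := by
    rintro rfl
    exact not_start_en ha (Or.inl hb)
  obtain ⟨w, hw1, hw2⟩ := hss a b ⟨hne, n, mem_start ha, mem_en (Or.inl hb)⟩ (hca.trans hcb.symm)
  by_contra hcon
  push Not at hcon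
  have hlt : w < t := ho.lt (by linarith)
  exact ht w hlt (by rw [hw1, hca, hc])

include ho hss in
/-- A first vertex of a matched colour is before every late vertex. -/
theorem fst_before {n : I} {j : Fin k} (hm : MN M c n j) {t x : V} (ht : Fst c t) (hc : c t = j)
    (hx : M.l i0 < M.θ x) : t < x := by
  have := fst_early i0 ho hss hm ht hc
  exact ho.lt (by linarith)

include hg in
theorem MN_of_start {n : I} {v : V} (hm : mt M c v) (hv : M.θ v = M.X n)
    (hw : M.X n + M.l n < 1) : MN M c n (c v) := by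
  obtain ⟨w, h1, h2⟩ := hg.partner_start hm hv
  exact ⟨v, w, hv, en_lt h1 hw, rfl, h2⟩

include hg in
theorem MN_of_end {n : I} {v : V} (hm : mt M c v) (hv : M.θ v = M.X n + M.l n) :
    MN M c n (c v) := by
  obtain ⟨w, h1, h2⟩ := hg.partner_end hm (Or.inl hv)
  exact ⟨w, v, h1, hv, h2, rfl⟩

theorem kap_A {n : I} {v : V} (hv : M.θ v = M.X n) (hm : MN M c n (c v)) (hg : Good M c) :
    kap M c v = 0 := by
  obtain ⟨a, b, ha, hb, hca, hcb⟩ := hm
  exact kap_start (mt_of_ends hv (Or.inl hb) hcb.symm).1 ⟨n, hv⟩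

theorem kap_B {n : I} {v : V} (hv : M.θ v = M.X n + M.l n) (hm : MN M c n (c v)) :
    kap M c v = 2 := by
  obtain ⟨a, b, ha, hb, hca, hcb⟩ := hm
  refine kap_end (mt_of_ends ha (Or.inl hv) hca).2 ?_
  rintro ⟨i, hi⟩
  exact not_start_en hi (Or.inl hv)

include ho hg in
/-- The matched initial ends of a node come before the other vertices at the same position. -/
theorem A_before {n : I} (hn : M.X n + M.l n < 1) {d w : V} (hd : M.θ d = M.X n)
    (hdm : MN M c n (c d)) (hw : M.θ d ≤ M.θ w) (hwm : ¬ inN M c n w) : d < w := by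
  rcases eq_or_lt_of_le hw with h | h
  · by_contra hcon
    push Not at hcon
    have hne : w ≠ d := by
      rintro rfl
      exact hwm ⟨Or.inl hd, hdm⟩
    have h1 := ho.kap_le (lt_of_le_of_ne hcon hne) h.symm
    rw [kap_A hd hdm hg] at h1
    have h2 := kap_zero (Nat.le_zero.1 h1)
    have h3 : M.θ w = M.X n := by rw [← h, hd]
    exact hwm ⟨Or.inl h3, MN_of_start hg h2.1 h3 hn⟩
  · exact ho.lt h

include ho hg in
/-- The matched final ends of a node come after the other vertices at the same position. -/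
theorem B_after {n : I} {d w : V} (hd : M.θ d = M.X n + M.l n)
    (hdm : MN M c n (c d)) (hw : M.θ w ≤ M.θ d) (hwm : ¬ inN M c n w) : w < d := by
  rcases eq_or_lt_of_le hw with h | h
  · by_contra hcon
    push Not at hcon
    have hne : d ≠ w := by
      rintro rfl
      exact hwm ⟨Or.inr hd, hdm⟩
    have h1 := ho.kap_le (lt_of_le_of_ne hcon hne) h.symm
    rw [kap_B hd hdm] at h1
    have h2 := kap_two h1
    have h3 : M.θ w = M.X n + M.l n := by rw [h, hd]
    exact hwm ⟨Or.inr h3, MN_of_end hg h2.1 h3⟩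
  · exact ho.lt h

include h0 ho hg hss in
/-- The numbers of edges of the auxiliary graph. -/
theorem count (hs : Function.Surjective c) (i j : Fin k) (hij : i ≠ j) :
    eo (HH (Gp M c) c (Xb M c i0)) c i j + eo (HH (Gp M c) c (Xb M c i0)) c j i ≤
      sz c i + sz c j := by
  classical
  have ht : ∀ j, ∃ v, c v = j ∧ Fst c v := by
    intro j
    obtain ⟨v0, hv0⟩ := hs j
    obtain ⟨v, h1, h2, _⟩ := exists_Fst (c := c) v0
    exact ⟨v, h1.trans hv0, h2⟩
  choose t ht1 ht2 using ht
  have hsur : ∀ u v, u < v → (Gp M c).Adj u v → Ex (Gp M c) c u v → Sur M c u v := by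
    rintro u v huv hG ⟨w, hw1, hw2, hw3, hw4⟩
    exact ⟨huv, hG.1, hG.2, w, hw1, hw2, hw3, hw4.1⟩
  have hkind : ∀ u v, Sur M c u v → M.l i0 < M.θ u → Nt M c u v := by
    intro u v hS hl
    rcases hS.kind i0 h0 ho hg with h | ⟨j, _, _, h⟩
    · exact h
    · linarith
  have hfree : ∀ u v, Sur M c u v → M.l i0 < M.θ u →
      (∀ w, w < u → c w = c v → ¬ hr (Gp M c) c (Xb M c i0) w u) ∧
      (∀ w, Fst c w → (c w = c u ∨ c w = c v) → w < u) := by
    intro u v hS hl
    obtain ⟨n, hn1, hn2, hn3, ⟨b, hb1, hb2⟩, a, ha1, ha2⟩ := hkind u v hS hl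
    have hmu : MN M c n (c u) := ⟨u, b, hn1, hb1, rfl, hb2⟩
    have hmv : MN M c n (c v) := ⟨a, v, ha1, hn2, ha2, rfl⟩
    have hnw : M.X n + M.l n < 1 := by rw [← hn2]; exact (M.hθ v).2
    have hnd : Nd M i0 n := ⟨by rw [← hn1]; exact hl, hnw⟩
    refine ⟨?_, ?_⟩
    · rintro w hw hcw ⟨_, _, h | h | h⟩
      · obtain ⟨_, m, hm1, hm2⟩ := h.1
        have hwa : w ≠ a := by
          rintro rfl
          have e1 : M.θ w = M.θ u := by rw [ha1, hn1]
          have e2 := ho.col_le hw e1 (by
            rw [kap_A ha1 (by rw [ha2]; exact hmv) hg, kap_A hn1 hmu hg])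
          rw [ha2] at e2
          exact absurd hn3 (not_lt.2 e2)
        have e1 := ho.le hw.le
        rcases hg m w a hwa hm1 ((mem_congr (by rw [ha1, hn1])).1 hm2) (hcw.trans ha2.symm) with
          ⟨_, h⟩ | ⟨h, h'⟩
        · exact not_start_en ha1 h
        · have hmn : n = m := M.e1 n m (ha1.symm.trans h)
          subst hmn
          have e2 := en_lt h' hnw
          have e3 := M.hl n
          linarith
      · have e2 := fst_early i0 ho hss hmu h rfl
        linarith
      · exact h.2.2 ⟨n, hnd, ⟨Or.inl hn1, hmu⟩, by rw [hcw]; exact hmv⟩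
    · intro w hw hcw
      rcases hcw with hcw | hcw
      · exact fst_before i0 ho hss hmu hw hcw hl
      · exact fst_before i0 ho hss hmv hw hcw hl
  apply count_le hij (fun u _ => if M.l i0 < M.θ u then u else max (t i) (t j))
  · intro u v huv hG hcol _ hE
    have hS := hsur u v huv hG hE
    by_cases hl : M.l i0 < M.θ u
    · rw [if_pos hl]
      obtain ⟨f1, f2⟩ := hfree u v hS hl
      refine ⟨?_, ?_, ?_⟩
      · rcases hcol with h | h
        · exact Or.inl h.1
        · exact Or.inr h.1
      · intro t' ht' h3 h4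
        exfalso
        have h5 : t' < u := by
          apply f2 t' ht'
          rcases hcol with h | h <;> rcases h4 with h4 | h4
          · left; rw [h4, h.1]
          · right; rw [h4, h.2]
          · right; rw [h4, h.2]
          · left; rw [h4, h.1]
        exact absurd h3 (lt_asymm h5)
      · right
        intro w hw h4 hh
        by_cases h5 : c w = c v
        · exact f1 w hw h5 hh
        · apply hh.2.1
          rcases hcol with h | h <;> rcases h4 with h4 | h4
          · rw [h4, h.1]
          · exact absurd (h4.trans h.2.symm) h5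
          · exact absurd (h4.trans h.2.symm) h5
          · rw [h4, h.1]
    · rw [if_neg hl]
      refine ⟨?_, ?_, ?_⟩
      · rcases max_choice (t i) (t j) with h | h
        · rw [h]; exact Or.inl (ht1 i)
        · rw [h]; exact Or.inr (ht1 j)
      · intro t' ht' h3 h4
        exfalso
        rcases h4 with h4 | h4
        · have h5 := Fst_unique ht' (ht2 i) (h4.trans (ht1 i).symm)
          rw [h5] at h3
          exact absurd (le_max_left (t i) (t j)) (not_le.2 h3)
        · have h5 := Fst_unique ht' (ht2 j) (h4.trans (ht1 j).symm)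
          rw [h5] at h3
          exact absurd (le_max_right (t i) (t j)) (not_le.2 h3)
      · left
        rcases max_choice (t i) (t j) with h | h
        · rw [h]; exact ht2 i
        · rw [h]; exact ht2 j
  · intro u v u' v' huv hG hcol _ hE huv' hG' hcol' _ hE' heq
    have hS := hsur u v huv hG hE
    have hS' := hsur u' v' huv' hG' hE'
    have hmax : Fst c (max (t i) (t j)) ∧
        (c (max (t i) (t j)) = i ∨ c (max (t i) (t j)) = j) := by
      rcases max_choice (t i) (t j) with h | h
      · rw [h]; exact ⟨ht2 i, Or.inl (ht1 i)⟩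
      · rw [h]; exact ⟨ht2 j, Or.inr (ht1 j)⟩
    have hno : ∀ x y, Sur M c x y → ((c x = i ∧ c y = j) ∨ (c x = j ∧ c y = i)) →
        M.l i0 < M.θ x → x ≠ max (t i) (t j) := by
      intro x y hxy hcxy hl he
      have h1 := (hfree x y hxy hl).2 (max (t i) (t j)) hmax.1 (by
        rcases hcxy with h | h <;> rcases hmax.2 with h4 | h4
        · left; rw [h4, h.1]
        · right; rw [h4, h.2]
        · right; rw [h4, h.2]
        · left; rw [h4, h.1])
      rw [← he] at h1
      exact lt_irrefl _ h1
    by_cases hl : M.l i0 < M.θ u <;> by_cases hl' : M.l i0 < M.θ u'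
    · rw [if_pos hl, if_pos hl'] at heq
      subst heq
      refine ⟨rfl, ?_⟩
      obtain ⟨n, hn1, hn2, _⟩ := hkind u v hS hl
      obtain ⟨n', hn1', hn2', _⟩ := hkind u v' hS' hl'
      have hnn : n = n' := M.e1 n n' (hn1.symm.trans hn1')
      subst hnn
      apply hg.unique (mem_en (Or.inl hn2)) (hn2.trans hn2'.symm)
      rcases hcol with h | h <;> rcases hcol' with h' | h'
      · rw [h.2, h'.2]
      · exact absurd (h.1.symm.trans h'.1) hij
      · exact absurd (h'.1.symm.trans h.1) hij
      · rw [h.2, h'.2]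
    · rw [if_pos hl, if_neg hl'] at heq
      exact absurd heq (hno u v hS hcol hl)
    · rw [if_neg hl, if_pos hl'] at heq
      exact absurd heq.symm (hno u' v' hS' hcol' hl')
    · push Not at hl hl'
      rcases hcol with h | h <;> rcases hcol' with h' | h'
      · exact sur_same i0 h0 ho hg hS hS' hl hl' (by rw [h.1, h'.1]) (by rw [h.2, h'.2])
      · exact (sur_diff i0 h0 ho hg hS hS' hl hl' (by rw [h.1, h'.2]) (by rw [h.2, h'.1])).elim
      · exact (sur_diff i0 h0 ho hg hS hS' hl hl' (by rw [h.1, h'.2]) (by rw [h.2, h'.1])).elim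
      · exact sur_same i0 h0 ho hg hS hS' hl hl' (by rw [h.1, h'.1]) (by rw [h.2, h'.2])

end Mdl

end Run7.h349
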