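import Pool.Agent.Run7.h349.Fz4

set_option autoImplicit false
set_option linter.unusedSectionVars false

/-!
# The colourings of the auxiliary graph
-/

namespace Run7.h349

open Finset

namespace Mdl

variable {V I : Type} [Fintype V] [LinearOrder V] {M : Mdl V I} {k : ℕ} {c : V → Fin k}

variable (i0 : I) (ho : Ordered M c) (hg : Good M c)
  (hss : ∀ u v, M.Sd u v → c u = c v → ∃ w, c w = c u ∧ M.θ w ≤ M.l i0)
  (c' : V → Fin k) (hc' : ∀ u v, (HH (Gp M c) c (Xb M c i0)).Adj u v → c' u ≠ c' v)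
  (π : Equiv.Perm (Fin k)) (t : Fin k → V) (ht1 : ∀ j, c (t j) = j) (ht2 : ∀ j, Fst c (t j))
  (hπ : ∀ j, c' (t j) = π j)

theorem Adj_of_Sd {u v : V} (h : M.Sd u v) (hc : c u ≠ c v) :
    (HH (Gp M c) c (Xb M c i0)).Adj u v := by
  rcases lt_trichotomy u v with h1 | h1 | h1
  · exact (HH_adj h1).2 ⟨h1, hc, Or.inl ⟨h, hc⟩⟩
  · exact absurd h1 h.1
  · have h2 : (HH (Gp M c) c (Xb M c i0)).Adj v u :=
      (HH_adj h1).2 ⟨h1, hc.symm, Or.inl ⟨Sd_symm h, hc.symm⟩⟩
    exact h2.symm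

include hg hc' in
/-- If the matched initial ends of an arc take matched colours, they take all of them. -/
theorem fullA {n : I} (h : ∀ w, M.θ w = M.X n → MN M c n (c w) →
    ∃ j, MN M c n j ∧ c' w = π j) {j : Fin k} (hj : MN M c n j) :
    ∃ w, M.θ w = M.X n ∧ MN M c n (c w) ∧ c' w = π j := by
  classical
  set A : Finset V := univ.filter fun w => M.θ w = M.X n ∧ MN M c n (c w) with hA
  set B : Finset (Fin k) := univ.filter fun j => MN M c n j with hB
  have hcard : B.card ≤ A.card := by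
    apply Finset.card_le_card_of_surjOn c
    intro j hj
    rw [Finset.mem_coe, hB, mem_filter] at hj
    obtain ⟨a, b, ha, hb, hca, hcb⟩ := hj.2
    refine ⟨a, ?_, hca⟩
    rw [Finset.mem_coe, hA, mem_filter]
    exact ⟨mem_univ _, ha, by rw [hca]; exact hj.2⟩
  have hinj : Set.InjOn (fun w => π.symm (c' w)) A := by
    intro x hx y hy hxy
    rw [Finset.mem_coe, hA, mem_filter] at hx hy
    by_contra hne
    have h1 : c' x = c' y := π.symm.injective hxy
    have h2 : M.θ x = M.θ y := by rw [hx.2.1, hy.2.1]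
    have h3 : c x ≠ c y := fun h => hne (hg.unique (mem_start hx.2.1) h2 h)
    exact hc' x y (Adj_of_Sd i0 ⟨hne, n, mem_start hx.2.1, mem_start hy.2.1⟩ h3) h1
  have hmaps : Set.MapsTo (fun w => π.symm (c' w)) A B := by
    intro x hx
    rw [Finset.mem_coe, hA, mem_filter] at hx
    obtain ⟨j, hj1, hj2⟩ := h x hx.2.1 hx.2.2
    rw [Finset.mem_coe, hB, mem_filter]
    refine ⟨mem_univ _, ?_⟩
    simp only
    rw [hj2, Equiv.symm_apply_apply]
    exact hj1
  have hsurj := Finset.surjOn_of_injOn_of_card_le _ hmaps hinj hcard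
  obtain ⟨w, hw1, hw2⟩ := hsurj (show j ∈ (B : Set (Fin k)) by
    rw [Finset.mem_coe, hB, mem_filter]
    exact ⟨mem_univ _, hj⟩)
  rw [Finset.mem_coe, hA, mem_filter] at hw1
  refine ⟨w, hw1.2.1, hw1.2.2, ?_⟩
  simp only at hw2
  rw [← hw2, Equiv.apply_symm_apply]

/-- The colouring on a vertex is as expected. -/
def Ok (M : Mdl V I) (c : V → Fin k) (i0 : I) (c' : V → Fin k) (π : Equiv.Perm (Fin k))
    (v : V) : Prop :=
  (∀ j, c' v = π j → j ≠ c v → Xb M c i0 v j) ∧
  ∀ n, Nd M i0 n → M.θ v = M.X n + M.l n → ∀ a, M.θ a = M.X n → c a = c v → c' v = c' a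

theorem Ok.A {n : I} {w : V} (h : Ok M c i0 c' π w) (hw : M.θ w = M.X n)
    (hwm : MN M c n (c w)) : ∃ j, MN M c n j ∧ c' w = π j := by
  by_cases hj : π.symm (c' w) = c w
  · refine ⟨c w, hwm, ?_⟩
    rw [← hj, Equiv.apply_symm_apply]
  · obtain ⟨n', h1, h2, h3⟩ := h.1 (π.symm (c' w)) (Equiv.apply_symm_apply _ _).symm hj
    have hn : n' = n := inN_unique h2 ⟨Or.inl hw, hwm⟩
    subst hn
    exact ⟨_, h3, (Equiv.apply_symm_apply _ _).symm⟩

include ho hg hc' ht1 ht2 hπ in
theorem ok_one (v : V) (ih : ∀ w, w < v → Ok M c i0 c' π w) (j : Fin k) (h1 : c' v = π j)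
    (h2 : j ≠ c v) : Xb M c i0 v j := by
  by_contra hcon
  have htv : t j < v := by
    rcases lt_trichotomy (t j) v with h | h | h
    · exact h
    · exfalso
      apply h2
      rw [← h, ht1]
    · exfalso
      refine hc' v (t j) ((HH_adj h).2 ⟨h, by rw [ht1]; exact h2.symm, Or.inr (Or.inl (ht2 j))⟩) ?_
      rw [hπ, h1]
  by_cases hw : ∃ w, w < v ∧ c w = j ∧ (Gp M c).Adj w v
  · obtain ⟨w, hw1, hw2, hw3⟩ := hw
    have hne : π.symm (c' w) ≠ c w := by
      intro h
      have h3 : c' w = π j := by rw [← hw2, ← h, Equiv.apply_symm_apply]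
      exact hc' w v (Adj_of_Sd i0 hw3.1 hw3.2) (h3.trans h1.symm)
    obtain ⟨n, hn1, hn2, _⟩ := (ih w hw1).1 _ (Equiv.apply_symm_apply _ _).symm hne
    have hjn : MN M c n j := by rw [← hw2]; exact hn2.2
    have hv : ¬ inN M c n v := fun h => hcon ⟨n, hn1, h, hjn⟩
    obtain ⟨_, m, hm1, hm2⟩ := hw3.1
    have e1 := ho.le hw1.le
    rcases hn2.1 with hwA | hwB
    · have hall : ∀ x, M.θ x = M.X n → MN M c n (c x) → x < v := by
        intro x hx1 hx2
        exact A_before ho hg hn1.2 hx1 hx2 (by rw [hx1, ← hwA]; exact e1) hv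
      obtain ⟨x, hx1, hx2, hx3⟩ := fullA i0 hg c' hc' π (fun y hy1 hy2 =>
        (ih y (hall y hy1 hy2)).A i0 c' π hy1 hy2) hjn
      have hxv := hall x hx1 hx2
      have hmx : M.mem m x := (mem_congr (by rw [hx1, hwA])).1 hm1
      have hcx : c x ≠ c v := by
        intro hcx
        rcases hg m x v hxv.ne hmx hm2 hcx with ⟨h3, h4⟩ | ⟨_, h4⟩
        · have hmn : n = m := M.e1 n m (hx1.symm.trans h3)
          subst hmn
          exact hv ⟨Or.inr (en_lt h4 hn1.2), by rw [← hcx]; exact hx2⟩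
        · exact not_start_en hx1 h4
      exact hc' x v (Adj_of_Sd i0 ⟨hxv.ne, m, hmx, hm2⟩ hcx) (hx3.trans h1.symm)
    · have hlt : M.θ w < M.θ v := by
        rcases eq_or_lt_of_le e1 with h | h
        · exfalso
          have h3 := B_after ho hg hwB hn2.2 (by rw [h]) hv
          exact absurd h3 (lt_asymm hw1)
        · exact h
      have hln := M.hl n
      obtain ⟨x, hx1, hx2, hx3⟩ := fullA i0 hg c' hc' π (fun y hy1 hy2 =>
        (ih y (ho.lt (by linarith))).A i0 c' π hy1 hy2) hjn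
      obtain ⟨a, b, ha, hb, hca, hcb⟩ := hx2
      have hbv : b < v := ho.lt (by linarith)
      have hb3 : c' b = c' x := (ih b hbv).2 n hn1 hb x hx1 hcb.symm
      have hmb : M.mem m b := (mem_congr (by rw [hb, hwB])).1 hm1
      have hcx : c b ≠ c v := by
        intro hcx
        rcases hg m b v hbv.ne hmb hm2 hcx with ⟨h3, _⟩ | ⟨h3, h4⟩
        · exact not_start_en h3 (Or.inl hb)
        · have hmn : n = m := en_unique (Or.inl hb) h4
          subst hmn
          linarith
      exact hc' b v (Adj_of_Sd i0 ⟨hbv.ne, m, hmb, hm2⟩ hcx) (hb3.trans (hx3.trans h1.symm))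
  · push Not at hw
    refine hc' (t j) v ((HH_adj htv).2 ⟨htv, by rw [ht1]; exact h2, Or.inr (Or.inr
      ⟨ht2 j, ?_, by rw [ht1]; exact hcon⟩)⟩) ?_
    · intro w hw1 hw2
      exact hw w hw1 (by rw [hw2, ht1])
    · rw [hπ, h1]

include ho hg hc' ht1 ht2 hπ in
/-- The structure of the colourings of the auxiliary graph. -/
theorem ok_all (v : V) : Ok M c i0 c' π v := by
  induction v using WellFoundedLT.induction with
  | ind v ih =>
    have hone := ok_one i0 ho hg c' hc' π t ht1 ht2 hπ v ih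
    refine ⟨hone, ?_⟩
    intro n hn hv a ha hca
    have hln := M.hl n
    have hmv : MN M c n (c v) := ⟨a, v, ha, hv, hca, rfl⟩
    have hj : MN M c n (π.symm (c' v)) := by
      by_cases h : π.symm (c' v) = c v
      · rw [h]; exact hmv
      · obtain ⟨n', h1, h2, h3⟩ := hone _ (Equiv.apply_symm_apply _ _).symm h
        have hnn : n' = n := inN_unique h2 ⟨Or.inr hv, hmv⟩
        subst hnn
        exact h3
    obtain ⟨x, hx1, hx2, hx3⟩ := fullA i0 hg c' hc' π (fun y hy1 hy2 =>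
        (ih y (ho.lt (by linarith))).A i0 c' π hy1 hy2) hj
    rw [Equiv.apply_symm_apply] at hx3
    have hxv : x < v := ho.lt (by linarith)
    by_cases hcx : c x = c v
    · have hxa : x = a := hg.unique (mem_start hx1) (by rw [hx1, ha]) (hcx.trans hca.symm)
      rw [← hxa, hx3]
    · exact absurd hx3 (hc' x v (Adj_of_Sd i0 ⟨hxv.ne, n, mem_start hx1, mem_en (Or.inl hv)⟩ hcx))

end Mdl

end Run7.h349
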