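import Pool.Agent.Run7.h349.Fz5

set_option autoImplicit false
set_option linter.unusedSectionVars false

/-!
# Involutive automorphisms and the product over the edges
-/

namespace Run7.h349

open Finset

section even

variable {V : Type} [Fintype V] [LinearOrder V] (G : SimpleGraph V)

theorem mem_edg {p : V × V} : p ∈ edg G ↔ p.1 < p.2 ∧ G.Adj p.1 p.2 := by
  classical
  unfold edg
  rw [mem_filter]
  exact ⟨fun h => h.2, fun h => ⟨mem_univ _, h⟩⟩

/-- An involutive automorphism that turns exactly two edges around in place is even. -/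
theorem prod_invol (τ : Equiv.Perm V) (hτ : ∀ v, τ (τ v) = v)
    (hG : ∀ u v, G.Adj u v → G.Adj (τ u) (τ v)) {p1 p2 : V × V} (h12 : p1 ≠ p2)
    (m1 : p1 ∈ edg G) (m2 : p2 ∈ edg G)
    (hp : ∀ p ∈ edg G, τ p.1 = p.2 ↔ p = p1 ∨ p = p2) (y : V → ℝ) :
    ∏ p ∈ edg G, (y (τ p.1) - y (τ p.2)) = ∏ p ∈ edg G, (y p.1 - y p.2) := by
  classical
  set g : V × V → V × V := fun p => if τ p.1 < τ p.2 then (τ p.1, τ p.2) else (τ p.2, τ p.1)
    with hg
  set ε : V × V → ℝ := fun p => if τ p.1 < τ p.2 then 1 else -1 with hε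
  have hg1 : ∀ p ∈ edg G, g p ∈ edg G := by
    intro p hp
    rw [mem_edg] at hp
    simp only [hg]
    split_ifs with h
    · rw [mem_edg]
      exact ⟨h, hG _ _ hp.2⟩
    · rw [mem_edg]
      refine ⟨?_, (hG _ _ hp.2).symm⟩
      apply lt_of_le_of_ne (not_lt.1 h)
      intro h2
      exact hp.1.ne (τ.injective h2.symm)
  have hg2 : ∀ p ∈ edg G, g (g p) = p := by
    intro p hp
    rw [mem_edg] at hp
    simp only [hg]
    by_cases h : τ p.1 < τ p.2
    · rw [if_pos h]
      simp only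
      rw [hτ, hτ, if_pos hp.1]
    · rw [if_neg h]
      simp only
      rw [hτ, hτ, if_neg (lt_asymm hp.1)]
  have hε2 : ∀ p ∈ edg G, ε (g p) = ε p := by
    intro p hp
    rw [mem_edg] at hp
    simp only [hg, hε]
    by_cases h : τ p.1 < τ p.2
    · rw [if_pos h, if_pos h]
      simp only
      rw [hτ, hτ, if_pos hp.1]
    · rw [if_neg h, if_neg h]
      simp only
      rw [hτ, hτ, if_neg (lt_asymm hp.1)]
  have hεs : ∀ p, ε p * ε p = 1 := by
    intro p
    simp only [hε]
    split_ifs <;> norm_num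
  have hin : ∀ p ∈ edg G, (p = p1 ∨ p = p2) → g p = p ∧ ε p = -1 := by
    intro p hp1 hp2
    have h1 := (hp p hp1).2 hp2
    have h2 : τ p.2 = p.1 := by rw [← h1, hτ]
    rw [mem_edg] at hp1
    simp only [hg, hε]
    rw [h1, h2, if_neg (lt_asymm hp1.1), if_neg (lt_asymm hp1.1)]
    exact ⟨rfl, rfl⟩
  have hprodε : ∏ p ∈ edg G, ε p = 1 := by
    rw [← Finset.mul_prod_erase _ _ m1, ← Finset.mul_prod_erase _ _
      (mem_erase.2 ⟨h12.symm, m2⟩), (hin p1 m1 (Or.inl rfl)).2, (hin p2 m2 (Or.inr rfl)).2]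
    have h3 : ∏ x ∈ ((edg G).erase p1).erase p2, ε x = 1 := by
      apply Finset.prod_involution (fun p _ => g p)
      · intro p hp'
        have h4 := mem_of_mem_erase (mem_of_mem_erase hp')
        rw [hε2 p h4]
        exact hεs p
      · intro p hp' h5 h6
        have h4 := mem_of_mem_erase (mem_of_mem_erase hp')
        have h7 : ¬ τ p.1 < τ p.2 := by
          intro h7
          apply h5
          simp only [hε]
          rw [if_pos h7]
        simp only [hg] at h6
        rw [if_neg h7] at h6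
        have h8 : τ p.1 = p.2 := congrArg Prod.snd h6
        rcases (hp p h4).1 h8 with h9 | h9
        · rw [h9] at hp'
          exact (mem_erase.1 (mem_of_mem_erase hp')).1 rfl
        · rw [h9] at hp'
          exact (mem_erase.1 hp').1 rfl
      · intro p hp'
        have h4 := mem_of_mem_erase (mem_of_mem_erase hp')
        have h9 : ∀ q, q ∈ edg G → (q = p1 ∨ q = p2) → g p ≠ q := by
          intro q hq hq2 h10
          have h11 : p = q := by
            rw [← hg2 p h4, h10, (hin q hq hq2).1]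
          rw [h11] at hp'
          rcases hq2 with h12 | h12
          · exact (mem_erase.1 (mem_of_mem_erase hp')).1 h12
          · exact (mem_erase.1 hp').1 h12
        rw [mem_erase, mem_erase]
        exact ⟨h9 p2 m2 (Or.inr rfl), h9 p1 m1 (Or.inl rfl), hg1 p h4⟩
      · intro p hp'
        exact hg2 p (mem_of_mem_erase (mem_of_mem_erase hp'))
    rw [h3]
    norm_num
  have h1 : ∏ p ∈ edg G, (y (τ p.1) - y (τ p.2)) =
      ∏ p ∈ edg G, (ε p * (y (g p).1 - y (g p).2)) := by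
    apply Finset.prod_congr rfl
    intro p _
    simp only [hg, hε]
    split_ifs
    · rw [one_mul]
    · simp only
      ring
  rw [h1, Finset.prod_mul_distrib, hprodε, one_mul]
  exact Finset.prod_nbij' g g hg1 hg1 hg2 hg2 (fun _ _ => rfl)

variable {a a2 b b2 : V} (h1 : a ≠ a2) (h2 : b ≠ b2) (h3 : a ≠ b) (h4 : a ≠ b2) (h5 : a2 ≠ b)
  (h6 : a2 ≠ b2)

open Equiv in
include h1 h2 h3 h4 h5 h6 in
theorem tau_vals : (swap a a2 * swap b b2) a = a2 ∧ (swap a a2 * swap b b2) a2 = a ∧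
    (swap a a2 * swap b b2) b = b2 ∧ (swap a a2 * swap b b2) b2 = b ∧
    ∀ x, x ≠ a → x ≠ a2 → x ≠ b → x ≠ b2 → (swap a a2 * swap b b2) x = x := by
  refine ⟨?_, ?_, ?_, ?_, ?_⟩
  · rw [Perm.mul_apply, swap_apply_of_ne_of_ne h3 h4, swap_apply_left]
  · rw [Perm.mul_apply, swap_apply_of_ne_of_ne h5 h6, swap_apply_right]
  · rw [Perm.mul_apply, swap_apply_left, swap_apply_of_ne_of_ne h4.symm h6.symm]
  · rw [Perm.mul_apply, swap_apply_right, swap_apply_of_ne_of_ne h3.symm h5.symm]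
  · intro x x1 x2 x3 x4
    rw [Perm.mul_apply, swap_apply_of_ne_of_ne x3 x4, swap_apply_of_ne_of_ne x1 x2]

open Equiv in
include h1 h2 h3 h4 h5 h6 in
theorem tau_tau (v : V) : (swap a a2 * swap b b2) ((swap a a2 * swap b b2) v) = v := by
  obtain ⟨t1, t2, t3, t4, t5⟩ := tau_vals h1 h2 h3 h4 h5 h6
  by_cases x1 : v = a
  · rw [x1, t1, t2]
  by_cases x2 : v = a2
  · rw [x2, t2, t1]
  by_cases x3 : v = b
  · rw [x3, t3, t4]
  by_cases x4 : v = b2
  · rw [x4, t4, t3]
  rw [t5 v x1 x2 x3 x4, t5 v x1 x2 x3 x4]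

variable {G} (hA : ∀ x, x ≠ a → x ≠ a2 → x ≠ b → x ≠ b2 → (G.Adj x a ↔ G.Adj x a2))
  (hB : ∀ x, x ≠ a → x ≠ a2 → x ≠ b → x ≠ b2 → (G.Adj x b ↔ G.Adj x b2))
  (g1 : G.Adj a a2) (g2 : G.Adj b b2) (g3 : G.Adj a b2) (g4 : G.Adj a2 b)
  (g5 : ¬ G.Adj a b) (g6 : ¬ G.Adj a2 b2)

open Equiv in
include h1 h2 h3 h4 h5 h6 hA hB g1 g2 g3 g4 g5 g6 in
theorem tau_auto (u v : V) (h : G.Adj u v) :
    G.Adj ((swap a a2 * swap b b2) u) ((swap a a2 * swap b b2) v) := by
  obtain ⟨t1, t2, t3, t4, t5⟩ := tau_vals h1 h2 h3 h4 h5 h6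
  have key : ∀ x y, x ≠ a → x ≠ a2 → x ≠ b → x ≠ b2 → G.Adj x y →
      G.Adj x ((swap a a2 * swap b b2) y) := by
    intro x y x1 x2 x3 x4 hxy
    by_cases y1 : y = a
    · subst y1
      rw [t1]
      exact (hA x x1 x2 x3 x4).1 hxy
    by_cases y2 : y = a2
    · subst y2
      rw [t2]
      exact (hA x x1 x2 x3 x4).2 hxy
    by_cases y3 : y = b
    · subst y3
      rw [t3]
      exact (hB x x1 x2 x3 x4).1 hxy
    by_cases y4 : y = b2
    · subst y4
      rw [t4]
      exact (hB x x1 x2 x3 x4).2 hxy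
    rw [t5 y y1 y2 y3 y4]
    exact hxy
  by_cases hu : u ≠ a ∧ u ≠ a2 ∧ u ≠ b ∧ u ≠ b2
  · rw [t5 u hu.1 hu.2.1 hu.2.2.1 hu.2.2.2]
    exact key u v hu.1 hu.2.1 hu.2.2.1 hu.2.2.2 h
  · by_cases hv : v ≠ a ∧ v ≠ a2 ∧ v ≠ b ∧ v ≠ b2
    · rw [t5 v hv.1 hv.2.1 hv.2.2.1 hv.2.2.2]
      exact (key v u hv.1 hv.2.1 hv.2.2.1 hv.2.2.2 h.symm).symm
    · have hu' : u = a ∨ u = a2 ∨ u = b ∨ u = b2 := by
        by_contra hcon
        push Not at hcon
        exact hu hcon
      have hv' : v = a ∨ v = a2 ∨ v = b ∨ v = b2 := by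
        by_contra hcon
        push Not at hcon
        exact hv hcon
      rcases hu' with rfl | rfl | rfl | rfl <;> rcases hv' with rfl | rfl | rfl | rfl
      · exact absurd rfl h.ne
      · rw [t1, t2]; exact g1.symm
      · exact absurd h g5
      · rw [t1, t4]; exact g4
      · rw [t2, t1]; exact g1
      · exact absurd rfl h.ne
      · rw [t2, t3]; exact g3
      · exact absurd h g6
      · exact absurd h.symm g5
      · rw [t3, t2]; exact g3.symm
      · exact absurd rfl h.ne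
      · rw [t3, t4]; exact g2.symm
      · rw [t4, t1]; exact g4.symm
      · exact absurd h.symm g6
      · rw [t4, t3]; exact g2
      · exact absurd rfl h.ne

open Equiv in
include h1 h2 h3 h4 h5 h6 hA hB g1 g2 g3 g4 g5 g6 in
theorem tau_even (y : V → ℝ) :
    ∏ p ∈ edg G, (y ((swap a a2 * swap b b2) p.1) - y ((swap a a2 * swap b b2) p.2)) =
      ∏ p ∈ edg G, (y p.1 - y p.2) := by
  obtain ⟨t1, t2, t3, t4, t5⟩ := tau_vals h1 h2 h3 h4 h5 h6
  have hmin : ∀ x z : V, x ≠ z → G.Adj x z → (min x z, max x z) ∈ edg G := by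
    intro x z hxz hG
    rw [mem_edg]
    simp only
    rcases lt_or_gt_of_ne hxz with h | h
    · rw [min_eq_left h.le, max_eq_right h.le]
      exact ⟨h, hG⟩
    · rw [min_eq_right h.le, max_eq_left h.le]
      exact ⟨h, hG.symm⟩
  have hmin2 : ∀ x z : V, ∀ p : V × V, p.1 < p.2 → ((p.1 = x ∧ p.2 = z) ∨ (p.1 = z ∧ p.2 = x)) →
      p = (min x z, max x z) := by
    rintro x z ⟨p, q⟩ hpq h
    simp only at hpq h
    rcases h with ⟨h, h'⟩ | ⟨h, h'⟩
    · subst h h'
      rw [min_eq_left hpq.le, max_eq_right hpq.le]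
    · subst h h'
      rw [min_eq_right hpq.le, max_eq_left hpq.le]
  have hmin3 : ∀ x z : V, ((min x z = x ∧ max x z = z) ∨ (min x z = z ∧ max x z = x)) := by
    intro x z
    rcases le_total x z with h | h
    · left; exact ⟨min_eq_left h, max_eq_right h⟩
    · right; exact ⟨min_eq_right h, max_eq_left h⟩
  refine prod_invol G (swap a a2 * swap b b2) (tau_tau h1 h2 h3 h4 h5 h6)
    (tau_auto h1 h2 h3 h4 h5 h6 hA hB g1 g2 g3 g4 g5 g6)
    (p1 := (min a a2, max a a2)) (p2 := (min b b2, max b b2)) ?_ (hmin a a2 h1 g1)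
    (hmin b b2 h2 g2) ?_ y
  · intro h
    have h7 := congrArg Prod.fst h
    simp only at h7
    rcases hmin3 a a2 with h8 | h8 <;> rcases hmin3 b b2 with h9 | h9
    · exact h3 (by rw [← h8.1, h7, h9.1])
    · exact h4 (by rw [← h8.1, h7, h9.1])
    · exact h5 (by rw [← h8.1, h7, h9.1])
    · exact h6 (by rw [← h8.1, h7, h9.1])
  · intro p hp
    rw [mem_edg] at hp
    constructor
    · intro h
      by_cases x1 : p.1 = a
      · left
        apply hmin2 a a2 p hp.1
        left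
        rw [x1, t1] at h
        exact ⟨x1, h.symm⟩
      by_cases x2 : p.1 = a2
      · left
        apply hmin2 a a2 p hp.1
        right
        rw [x2, t2] at h
        exact ⟨x2, h.symm⟩
      by_cases x3 : p.1 = b
      · right
        apply hmin2 b b2 p hp.1
        left
        rw [x3, t3] at h
        exact ⟨x3, h.symm⟩
      by_cases x4 : p.1 = b2
      · right
        apply hmin2 b b2 p hp.1
        right
        rw [x4, t4] at h
        exact ⟨x4, h.symm⟩
      rw [t5 _ x1 x2 x3 x4] at h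
      exact absurd h hp.1.ne
    · rintro (h | h)
      · rw [h]
        simp only
        rcases hmin3 a a2 with h8 | h8
        · rw [h8.1, h8.2, t1]
        · rw [h8.1, h8.2, t2]
      · rw [h]
        simp only
        rcases hmin3 b b2 with h8 | h8
        · rw [h8.1, h8.2, t3]
        · rw [h8.1, h8.2, t4]

end even

end Run7.h349
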