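import Pool.Agent.Run7.h349.Fz6

set_option autoImplicit false
set_option linter.unusedSectionVars false

/-!
# The orbit of the colourings, and the choosability theorem for arcs in coordinates
-/

namespace Run7.h349

open Finset

namespace Mdl

variable {V I : Type} [Fintype V] [LinearOrder V] {M : Mdl V I} {k : ℕ} {c : V → Fin k}

theorem partner_A (hg : Good M c) {n : I} (hn : M.X n + M.l n < 1) {a b : V}
    (ha : M.θ a = M.X n) (hb : M.θ b = M.X n + M.l n) (hab : c a = c b) {x : V}
    (hx : M.Sd x a) (hcx : c x = c a) : x = b := by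
  obtain ⟨hne, m, h1, h2⟩ := hx
  rcases hg m x a hne h1 h2 hcx with ⟨_, h4⟩ | ⟨h3, h4⟩
  · exact absurd h4 (not_start_en ha)
  · have hmn : n = m := M.e1 n m (ha.symm.trans h3)
    subst hmn
    exact hg.unique h1 ((en_lt h4 hn).trans hb.symm) (hcx.trans hab)

theorem partner_B (hg : Good M c) {n : I} {a b : V}
    (ha : M.θ a = M.X n) (hb : M.θ b = M.X n + M.l n) (hab : c a = c b) {x : V}
    (hx : M.Sd x b) (hcx : c x = c b) : x = a := by
  obtain ⟨hne, m, h1, h2⟩ := hx
  rcases hg m x b hne h1 h2 hcx with ⟨h3, h4⟩ | ⟨h3, h4⟩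
  · have hmn : n = m := en_unique (Or.inl hb) h4
    subst hmn
    exact hg.unique h1 (h3.trans ha.symm) (hcx.trans hab.symm)
  · exact absurd (Or.inl hb) (not_start_en h3)

variable (i0 : I) (h0 : M.X i0 = 0) (ho : Ordered M c) (hg : Good M c)
  (hss : ∀ u v, M.Sd u v → c u = c v → ∃ w, c w = c u ∧ M.θ w ≤ M.l i0)

include ho hss in
theorem not_fst {n : I} (hn : Nd M i0 n) {d : V} (hd : inN M c n d) : ¬ Fst c d := by
  intro h
  have h1 := fst_early i0 ho hss hd.2 h rfl
  have h2 := M.hl n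
  have h3 := hn.1
  rcases hd.1 with h4 | h4 <;> linarith

include ho hss in
theorem HN {n : I} (hn : Nd M i0 n) {d : V} (hd : inN M c n d) (x : V) :
    (HH (Gp M c) c (Xb M c i0)).Adj x d ↔ ((Gp M c).Adj x d ∨
      (¬ MN M c n (c x) ∧ Fst c x ∧ ∀ w, w < d → c w = c x → ¬ (Gp M c).Adj w d)) := by
  have hdl : M.l i0 < M.θ d := by
    have h2 := M.hl n
    have h3 := hn.1
    rcases hd.1 with h4 | h4 <;> linarith
  have hnf := not_fst i0 ho hss hn hd
  constructor
  · intro h
    rcases lt_trichotomy x d with h1 | h1 | h1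
    · obtain ⟨_, _, h3⟩ := (HH_adj h1).1 h
      rcases h3 with h3 | h3 | h3
      · exact Or.inl h3
      · exact absurd h3 hnf
      · right
        refine ⟨?_, h3.1, h3.2.1⟩
        intro h4
        exact h3.2.2 ⟨n, hn, hd, h4⟩
    · exact absurd h1 h.ne
    · obtain ⟨_, _, h3⟩ := (HH_adj h1).1 h.symm
      rcases h3 with h3 | h3 | h3
      · exact Or.inl h3.symm
      · right
        refine ⟨?_, h3, ?_⟩
        · intro h4
          exact absurd (fst_before i0 ho hss h4 h3 rfl hdl) (lt_asymm h1)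
        · intro w hw hcw
          exact absurd hcw (h3 w (hw.trans h1))
      · exact absurd h3.1 hnf
  · rintro (h | ⟨h1, h2, h3⟩)
    · exact Adj_of_Sd i0 h.1 h.2
    · have hne : c x ≠ c d := by
        intro h
        apply h1
        rw [h]
        exact hd.2
      rcases lt_trichotomy x d with h4 | h4 | h4
      · refine (HH_adj h4).2 ⟨h4, hne, Or.inr (Or.inr ⟨h2, h3, ?_⟩)⟩
        rintro ⟨n', h5, h6, h7⟩
        have h8 : n' = n := inN_unique h6 hd
        subst h8
        exact h1 h7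
      · rw [h4] at hne
        exact absurd rfl hne
      · have h5 : (HH (Gp M c) c (Xb M c i0)).Adj d x :=
          (HH_adj h4).2 ⟨h4, hne.symm, Or.inr (Or.inl h2)⟩
        exact h5.symm

include ho hss in
theorem h_twin {n : I} (hn : Nd M i0 n) {d d2 e2 : V} (hd : inN M c n d) (hd2 : inN M c n d2)
    (hθ : M.θ d = M.θ d2) (hO : ∀ w, ¬ MN M c n (c w) → w < d2 → w < d)
    (hpart : ∀ x, M.Sd x d2 → c x = c d2 → x = e2) {x : V} (h1 : x ≠ d2) (h2 : x ≠ e2)
    (h : (HH (Gp M c) c (Xb M c i0)).Adj x d) : (HH (Gp M c) c (Xb M c i0)).Adj x d2 := by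
  rw [HN i0 ho hss hn hd] at h
  rw [HN i0 ho hss hn hd2]
  rcases h with h | ⟨h3, h4, h5⟩
  · left
    have hS := Sd_congr hθ h1 h.1
    exact ⟨hS, fun h6 => h2 (hpart x hS h6)⟩
  · right
    refine ⟨h3, h4, ?_⟩
    intro w hw hcw hG
    have hcw' : ¬ MN M c n (c w) := by rw [hcw]; exact h3
    have hwd := hO w hcw' hw
    refine h5 w hwd hcw ⟨Sd_congr hθ.symm hwd.ne hG.1, ?_⟩
    intro h6
    apply hcw'
    rw [h6]
    exact hd.2

include ho hg hss in
/-- The colourings of the auxiliary graph form one orbit. -/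
theorem orbit (π : Equiv.Perm (Fin k)) (t : Fin k → V) (ht1 : ∀ j, c (t j) = j)
    (ht2 : ∀ j, Fst c (t j)) (m : ℕ) : ∀ c' : V → Fin k,
    (∀ u v, (HH (Gp M c) c (Xb M c i0)).Adj u v → c' u ≠ c' v) → (∀ j, c' (t j) = π j) →
    (univ.filter fun v => c' v ≠ π (c v)).card ≤ m →
    ∃ σ : Equiv.Perm V,
      (∀ y : V → ℝ, ∏ p ∈ edg (HH (Gp M c) c (Xb M c i0)), (y (σ p.1) - y (σ p.2)) =
        ∏ p ∈ edg (HH (Gp M c) c (Xb M c i0)), (y p.1 - y p.2)) ∧
      (∀ j, σ (t j) = t j) ∧ ∀ v, c' v = π (c (σ v)) := by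
  classical
  induction m with
  | zero =>
    intro c' _ _ hm
    refine ⟨1, fun _ => rfl, fun _ => rfl, ?_⟩
    intro v
    by_contra h
    have h1 := Finset.card_eq_zero.1 (Nat.le_zero.1 hm)
    have h2 : v ∈ univ.filter fun v => c' v ≠ π (c v) := mem_filter.2 ⟨mem_univ _, h⟩
    rw [h1] at h2
    exact absurd h2 (Finset.notMem_empty _)
  | succ m ih =>
    intro c' hc' hπ hm
    by_cases hall : ∀ v, c' v = π (c v)
    · exact ⟨1, fun _ => rfl, fun _ => rfl, hall⟩
    push Not at hall
    obtain ⟨v, hv⟩ := hall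
    have hok := ok_all i0 ho hg c' hc' π t ht1 ht2 hπ
    have hvj : c' v = π (π.symm (c' v)) := (Equiv.apply_symm_apply _ _).symm
    have hjv : π.symm (c' v) ≠ c v := by
      intro h
      apply hv
      rw [← h, Equiv.apply_symm_apply]
    obtain ⟨n, hn, hin, hMj⟩ := (hok v).1 _ hvj hjv
    set j := π.symm (c' v) with hj
    -- the matched pair of `v`
    have hab : ∃ a b, M.θ a = M.X n ∧ M.θ b = M.X n + M.l n ∧ c a = c v ∧ c b = c v ∧
        c' a = π j ∧ c' b = π j := by
      rcases hin.1 with h | h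
      · obtain ⟨_, b, _, hb, _, hcb⟩ := hin.2
        have h1 := (hok b).2 n hn hb v h hcb.symm
        exact ⟨v, b, h, hb, rfl, hcb, hvj, by rw [h1]; exact hvj⟩
      · obtain ⟨a, _, ha, _, hca, _⟩ := hin.2
        have h1 := (hok v).2 n hn h a ha hca
        exact ⟨a, v, ha, h, hca, rfl, by rw [← h1]; exact hvj, hvj⟩
    obtain ⟨a, b, ha, hb, hca, hcb, hc'a, hc'b⟩ := hab
    obtain ⟨a2, b2, ha2, hb2, hca2, hcb2⟩ := hMj
    have hMa : MN M c n (c a) := ⟨a, b, ha, hb, rfl, hcb.trans hca.symm⟩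
    have hMb : MN M c n (c b) := ⟨a, b, ha, hb, hca.trans hcb.symm, rfl⟩
    have hMa2 : MN M c n (c a2) := ⟨a2, b2, ha2, hb2, rfl, hcb2.trans hca2.symm⟩
    have hMb2 : MN M c n (c b2) := ⟨a2, b2, ha2, hb2, hca2.trans hcb2.symm, rfl⟩
    have ia : inN M c n a := ⟨Or.inl ha, hMa⟩
    have ib : inN M c n b := ⟨Or.inr hb, hMb⟩
    have ia2 : inN M c n a2 := ⟨Or.inl ha2, hMa2⟩
    have ib2 : inN M c n b2 := ⟨Or.inr hb2, hMb2⟩
    have cne : c a ≠ c a2 := by rw [hca, hca2]; exact hjv.symm
    have cnb : c b ≠ c b2 := by rw [hcb, hcb2]; exact hjv.symm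
    have cnab2 : c a ≠ c b2 := by rw [hca, hcb2]; exact hjv.symm
    have cna2b : c a2 ≠ c b := by rw [hca2, hcb]; exact hjv
    have d1 : a ≠ a2 := fun h => cne (by rw [h])
    have d2 : b ≠ b2 := fun h => cnb (by rw [h])
    have d3 : a ≠ b := by
      rintro rfl
      exact not_start_en ha (Or.inl hb)
    have d4 : a ≠ b2 := by
      rintro rfl
      exact not_start_en ha (Or.inl hb2)
    have d5 : a2 ≠ b := by
      rintro rfl
      exact not_start_en ha2 (Or.inl hb)
    have d6 : a2 ≠ b2 := by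
      rintro rfl
      exact not_start_en ha2 (Or.inl hb2)
    have ma := mem_start ha
    have ma2 := mem_start ha2
    have mb : M.mem n b := mem_en (Or.inl hb)
    have mb2 : M.mem n b2 := mem_en (Or.inl hb2)
    have g1 : (HH (Gp M c) c (Xb M c i0)).Adj a a2 := Adj_of_Sd i0 ⟨d1, n, ma, ma2⟩ cne
    have g2 : (HH (Gp M c) c (Xb M c i0)).Adj b b2 := Adj_of_Sd i0 ⟨d2, n, mb, mb2⟩ cnb
    have g3 : (HH (Gp M c) c (Xb M c i0)).Adj a b2 := Adj_of_Sd i0 ⟨d4, n, ma, mb2⟩ cnab2
    have g4 : (HH (Gp M c) c (Xb M c i0)).Adj a2 b := Adj_of_Sd i0 ⟨d5, n, ma2, mb⟩ cna2b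
    have g5 : ¬ (HH (Gp M c) c (Xb M c i0)).Adj a b := fun h => HH_ne h (hca.trans hcb.symm)
    have g6 : ¬ (HH (Gp M c) c (Xb M c i0)).Adj a2 b2 := fun h => HH_ne h (hca2.trans hcb2.symm)
    have hOA : ∀ d e, M.θ d = M.X n → M.θ e = M.X n → inN M c n d → inN M c n e →
        ∀ w, ¬ MN M c n (c w) → w < e → w < d := by
      intro d e hd he id ie w hw hwe
      by_contra hcon
      push Not at hcon
      have h1 := ho.le hcon
      have h2 := A_before ho hg hn.2 he ie.2 (by rw [he, ← hd]; exact h1) (fun h => hw h.2)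
      exact absurd h2 (lt_asymm hwe)
    have hOB : ∀ d e, M.θ d = M.X n + M.l n → M.θ e = M.X n + M.l n → inN M c n d →
        inN M c n e → ∀ w, ¬ MN M c n (c w) → w < e → w < d := by
      intro d e hd he id ie w hw hwe
      have h1 := ho.le hwe.le
      exact B_after ho hg hd id.2 (by rw [hd, ← he]; exact h1) (fun h => hw h.2)
    have hA : ∀ x, x ≠ a → x ≠ a2 → x ≠ b → x ≠ b2 →
        ((HH (Gp M c) c (Xb M c i0)).Adj x a ↔ (HH (Gp M c) c (Xb M c i0)).Adj x a2) := by
      intro x x1 x2 x3 x4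
      constructor
      · exact h_twin i0 ho hss hn ia ia2 (by rw [ha, ha2]) (hOA a a2 ha ha2 ia ia2)
          (fun x => partner_A hg hn.2 ha2 hb2 (hca2.trans hcb2.symm)) x2 x4
      · exact h_twin i0 ho hss hn ia2 ia (by rw [ha, ha2]) (hOA a2 a ha2 ha ia2 ia)
          (fun x => partner_A hg hn.2 ha hb (hca.trans hcb.symm)) x1 x3
    have hB : ∀ x, x ≠ a → x ≠ a2 → x ≠ b → x ≠ b2 →
        ((HH (Gp M c) c (Xb M c i0)).Adj x b ↔ (HH (Gp M c) c (Xb M c i0)).Adj x b2) := by
      intro x x1 x2 x3 x4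
      constructor
      · exact h_twin i0 ho hss hn ib ib2 (by rw [hb, hb2]) (hOB b b2 hb hb2 ib ib2)
          (fun x => partner_B hg ha2 hb2 (hca2.trans hcb2.symm)) x4 x2
      · exact h_twin i0 ho hss hn ib2 ib (by rw [hb, hb2]) (hOB b2 b hb2 hb ib2 ib)
          (fun x => partner_B hg ha hb (hca.trans hcb.symm)) x3 x1
    obtain ⟨t1, t2, t3, t4, t5⟩ := tau_vals d1 d2 d3 d4 d5 d6
    have htt := tau_tau d1 d2 d3 d4 d5 d6
    set τ : Equiv.Perm V := Equiv.swap a a2 * Equiv.swap b b2 with hτ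
    have hauto := tau_auto d1 d2 d3 d4 d5 d6 hA hB g1 g2 g3 g4 g5 g6
    have heven := tau_even d1 d2 d3 d4 d5 d6 hA hB g1 g2 g3 g4 g5 g6
    have htfix : ∀ i, τ (t i) = t i := by
      intro i
      apply t5
      · intro h
        exact not_fst i0 ho hss hn ia (by rw [← h]; exact ht2 i)
      · intro h
        exact not_fst i0 ho hss hn ia2 (by rw [← h]; exact ht2 i)
      · intro h
        exact not_fst i0 ho hss hn ib (by rw [← h]; exact ht2 i)
      · intro h
        exact not_fst i0 ho hss hn ib2 (by rw [← h]; exact ht2 i)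
    obtain ⟨σ, hσ1, hσ2, hσ3⟩ := ih (fun v => c' (τ v)) (fun u v h => hc' _ _ (hauto u v h))
      (by
        intro i
        rw [htfix, hπ])
      (by
        have hsub : (univ.filter fun v => c' (τ v) ≠ π (c v)) ⊂
            (univ.filter fun v => c' v ≠ π (c v)) := by
          rw [Finset.ssubset_iff_of_subset]
          · refine ⟨a2, ?_, ?_⟩
            · rw [mem_filter]
              refine ⟨mem_univ _, ?_⟩
              rw [hca2, ← hc'a]
              exact (hc' a a2 g1).symm
            · rw [mem_filter]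
              push Not
              intro _
              rw [t2, hc'a, hca2]
          · intro x hx
            rw [mem_filter] at hx
            rw [mem_filter]
            refine ⟨mem_univ _, ?_⟩
            by_cases x1 : x = a
            · rw [x1, hc'a, hca]
              exact fun h => hjv (π.injective h)
            by_cases x2 : x = a2
            · exfalso
              apply hx.2
              rw [x2, t2, hc'a, hca2]
            by_cases x3 : x = b
            · rw [x3, hc'b, hcb]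
              exact fun h => hjv (π.injective h)
            by_cases x4 : x = b2
            · exfalso
              apply hx.2
              rw [x4, t4, hc'b, hcb2]
            have h5 := hx.2
            rw [t5 x x1 x2 x3 x4] at h5
            exact h5
        have := Finset.card_lt_card hsub
        omega)
    refine ⟨σ * τ, ?_, ?_, ?_⟩
    · intro y
      have h5 := heven (fun v => y (σ v))
      rw [← hσ1 y, ← h5]
      rfl
    · intro i
      rw [Equiv.Perm.mul_apply, htfix, hσ2]
    · intro v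
      have h5 := hσ3 (τ v)
      rw [htt] at h5
      rw [Equiv.Perm.mul_apply]
      exact h5

include h0 ho hg hss in
/-- The choosability theorem in coordinates. -/
theorem choosable (hk : 0 < k) (hs : Function.Surjective c) (L : V → Finset ℕ)
    (hL : ∀ v, k ≤ (L v).card) :
    ∃ f : V → ℕ, (∀ v, f v ∈ L v) ∧ ∀ u v, M.Sd u v → c u ≠ c v → f u ≠ f v := by
  classical
  have ht : ∀ j, ∃ v, c v = j ∧ Fst c v := by
    intro j
    obtain ⟨v0, hv0⟩ := hs j
    obtain ⟨v, h1, h2, _⟩ := exists_Fst (c := c) v0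
    exact ⟨v, h1.trans hv0, h2⟩
  choose t ht1 ht2 using ht
  obtain ⟨f, hf1, hf2⟩ := orbit_choosable (HH (Gp M c) c (Xb M c i0)) c hk t ht1
    (by
      intro p hp
      exact HH_ne ((mem_edg _).1 hp).2)
    (by
      intro c' hc'
      have hprop : ∀ u v, (HH (Gp M c) c (Xb M c i0)).Adj u v → c' u ≠ c' v := by
        intro u v h
        rcases lt_trichotomy u v with h1 | h1 | h1
        · exact hc' (u, v) ((mem_edg _).2 ⟨h1, h⟩)
        · exact absurd h1 h.ne
        · exact (hc' (v, u) ((mem_edg _).2 ⟨h1, h.symm⟩)).symm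
      have hinj : Function.Injective fun j => c' (t j) := by
        intro i j hij
        simp only at hij
        by_contra hne
        rcases lt_trichotomy (t i) (t j) with h | h | h
        · exact hprop _ _ ((HH_adj h).2 ⟨h, by rw [ht1, ht1]; exact hne,
            Or.inr (Or.inl (ht2 j))⟩) hij
        · apply hne
          rw [← ht1 i, h, ht1]
        · exact hprop _ _ ((HH_adj h).2 ⟨h, by rw [ht1, ht1]; exact fun h => hne h.symm,
            Or.inr (Or.inl (ht2 i))⟩) hij.symm
      have hbij := Finite.injective_iff_bijective.1 hinj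
      obtain ⟨σ, h1, h2, h3⟩ := orbit i0 ho hg hss (Equiv.ofBijective _ hbij) t ht1 ht2 _ c'
        hprop (fun j => rfl) le_rfl
      exact ⟨_, σ, h1, h2, h3⟩)
    (by
      intro i j hij
      exact count i0 h0 ho hg hss hs i j hij.ne)
    L hL
  exact ⟨f, hf1, fun u v h1 h2 => hf2 u v (Adj_of_Sd i0 h1 h2)⟩

end Mdl

end Run7.h349
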