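import Pool.Agent.Run7.h349.Uniq

set_option autoImplicit false
set_option linter.unusedSectionVars false

/-!
# Graphs whose colourings form one orbit of even automorphisms
-/

namespace Run7.h349

open MvPolynomial Finset Filter Topology

variable {V : Type} [Fintype V] [LinearOrder V] (G : SimpleGraph V) {k : ℕ} (c : V → Fin k)

/-- The number of edges missing between two colour classes. -/
noncomputable def df (q : Fin k × Fin k) : ℕ :=
  sz c q.1 + sz c q.2 - (eo G c q.1 q.2 + eo G c q.2 q.1)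

theorem term_df (hc : ∀ p ∈ edg G, c p.1 ≠ c p.2)
    (he : ∀ i j : Fin k, i < j → eo G c i j + eo G c j i ≤ sz c i + sz c j)
    (x : Fin k → ℝ) (hx : Function.Injective x) (π : Equiv.Perm (Fin k)) :
    (∏ p ∈ edg G, (x (π (c p.1)) - x (π (c p.2)))) * ∏ v, lam x (π (c v)) =
      sgn G c * ∏ q ∈ (univ : Finset (Fin k × Fin k)).filter (fun q => q.1 < q.2),
        ((x (π q.1) - x (π q.2))⁻¹) ^ df G c q := by
  classical
  rw [prod_edges G c hc (fun i => x (π i)), prod_lam c x π, ← Finset.prod_mul_distrib]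
  unfold sgn
  rw [← Finset.prod_mul_distrib]
  apply Finset.prod_congr rfl
  intro q hq
  have hq2 := (mem_filter.1 hq).2
  set z : ℝ := x (π q.1) - x (π q.2) with hz
  have hz0 : z ≠ 0 := by
    rw [hz, sub_ne_zero]
    intro h
    exact hq2.ne (π.injective (hx h))
  have hz2 : x (π q.2) - x (π q.1) = -z := by rw [hz]; ring
  rw [hz2]
  have e1 : (-z) ^ eo G c q.2 q.1 = (-1) ^ eo G c q.2 q.1 * z ^ eo G c q.2 q.1 := by
    rw [neg_pow]
  have e2 : ((-z)⁻¹) ^ sz c q.2 = (-1) ^ sz c q.2 * (z⁻¹) ^ sz c q.2 := by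
    rw [inv_neg, neg_pow]
  rw [e1, e2]
  have e3 : z ^ eo G c q.1 q.2 * ((-1) ^ eo G c q.2 q.1 * z ^ eo G c q.2 q.1) *
      (z⁻¹ ^ sz c q.1 * ((-1) ^ sz c q.2 * z⁻¹ ^ sz c q.2)) =
      (-1) ^ (eo G c q.2 q.1 + sz c q.2) *
        (z ^ (eo G c q.1 q.2 + eo G c q.2 q.1) * z⁻¹ ^ (sz c q.1 + sz c q.2)) := by
    rw [pow_add, pow_add, pow_add]
    ring
  rw [e3]
  congr 1
  have h1 : sz c q.1 + sz c q.2 = (eo G c q.1 q.2 + eo G c q.2 q.1) + df G c q := by
    unfold df
    have := he q.1 q.2 hq2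
    omega
  rw [h1, pow_add z⁻¹, ← mul_assoc, ← mul_pow, mul_inv_cancel₀ hz0, one_pow, one_mul]

/-- The number of edges missing between the class `i` and the classes with larger names. -/
noncomputable def dn (i : Fin k) : ℕ := ∑ j ∈ univ.filter (fun j => i < j), df G c (i, j)

theorem prod_dn (g : Fin k → ℝ) :
    ∏ i, g i ^ dn G c i = ∏ q ∈ (univ : Finset (Fin k × Fin k)).filter (fun q => q.1 < q.2),
        g q.1 ^ df G c q := by
  rw [Finset.prod_filter, Fintype.prod_prod_type'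
    (fun i j : Fin k => if i < j then g i ^ df G c (i, j) else 1)]
  apply Finset.prod_congr rfl
  intro i _
  unfold dn
  rw [← Finset.prod_pow_eq_pow_sum, Finset.prod_filter]

theorem sum_dn : ∑ i, dn G c i = ∑ q ∈ (univ : Finset (Fin k × Fin k)).filter
    (fun q => q.1 < q.2), df G c q := by
  have h := prod_dn G c (fun _ => (2 : ℝ))
  rw [Finset.prod_pow_eq_pow_sum, Finset.prod_pow_eq_pow_sum] at h
  exact Nat.pow_right_injective (le_refl 2) (by exact_mod_cast h)

theorem prod_wt (t : Fin k → V) (ht : ∀ j, c (t j) = j) (g : V → ℝ) :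
    ∏ v, g v ^ (if v = t (c v) then dn G c (c v) else 0) = ∏ i, g (t i) ^ dn G c i := by
  classical
  rw [← Finset.prod_fiberwise_of_maps_to (s := univ) (t := univ)
      (g := fun v : V => c v) (fun _ _ => Finset.mem_univ _)]
  apply Finset.prod_congr rfl
  intro i _
  have h1 : ∏ v ∈ univ.filter (fun v => c v = i),
      g v ^ (if v = t (c v) then dn G c (c v) else 0) =
      ∏ v ∈ univ.filter (fun v => c v = i),
        (if v = t i then g v ^ dn G c i else 1) := by
    apply Finset.prod_congr rfl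
    intro v hv
    rw [(mem_filter.1 hv).2]
    split_ifs <;> simp
  rw [h1, Finset.prod_ite_eq']
  rw [if_pos]
  rw [mem_filter]
  exact ⟨mem_univ _, ht i⟩

/-- A graph all of whose `k`-colourings arise from one of them by permuting the colours and by even
automorphisms that fix one vertex of every colour is `k`-choosable if every two colour classes
induce a subgraph with at most as many edges as vertices. -/
theorem orbit_choosable (hk : 0 < k) (t : Fin k → V) (ht : ∀ j, c (t j) = j)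
    (hc : ∀ p ∈ edg G, c p.1 ≠ c p.2)
    (hu : ∀ c' : V → Fin k, (∀ p ∈ edg G, c' p.1 ≠ c' p.2) →
      ∃ (π : Equiv.Perm (Fin k)) (σ : Equiv.Perm V),
        (∀ y : V → ℝ, ∏ p ∈ edg G, (y (σ p.1) - y (σ p.2)) = ∏ p ∈ edg G, (y p.1 - y p.2)) ∧
        (∀ j, σ (t j) = t j) ∧ ∀ v, c' v = π (c (σ v)))
    (he : ∀ i j : Fin k, i < j → eo G c i j + eo G c j i ≤ sz c i + sz c j)
    (L : V → Finset ℕ) (hL : ∀ v, k ≤ (L v).card) :
    ∃ f : V → ℕ, (∀ v, f v ∈ L v) ∧ ∀ u v, G.Adj u v → f u ≠ f v := by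
  classical
  set w : V → ℕ := fun v => if v = t (c v) then dn G c (c v) else 0 with hw
  have hsum : ∑ v, w v = ∑ i, dn G c i := by
    have h := prod_wt G c t ht (fun _ => (2 : ℝ))
    rw [Finset.prod_pow_eq_pow_sum, Finset.prod_pow_eq_pow_sum] at h
    exact Nat.pow_right_injective (le_refl 2) (by exact_mod_cast h)
  have hdeg : (edg G).card + ∑ v, w v = Fintype.card V * (k - 1) := by
    rw [hsum, sum_dn, card_edges G c hc, ← sum_sz_pairs c, ← Finset.sum_add_distrib]
    apply Finset.sum_congr rfl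
    intro q hq
    have hq2 := (mem_filter.1 hq).2
    have := he q.1 q.2 hq2
    unfold df
    omega
  apply choosable_of_coeff G hk w hdeg.le ?_ L hL
  set P : Finset (V → Fin k) := univ.filter (fun c' => ∀ p ∈ edg G, c' p.1 ≠ c' p.2) with hP
  have hu' : ∀ c' ∈ P, ∃ (π : Equiv.Perm (Fin k)) (σ : Equiv.Perm V),
        (∀ y : V → ℝ, ∏ p ∈ edg G, (y (σ p.1) - y (σ p.2)) = ∏ p ∈ edg G, (y p.1 - y p.2)) ∧
        (∀ j, σ (t j) = t j) ∧ ∀ v, c' v = π (c (σ v)) :=
    fun c' hc' => hu c' (mem_filter.1 hc').2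
  choose! π σ hσ1 hσ2 hσ3 using hu'
  -- the coefficient is a sum over the colourings
  have key : ∀ s : ℝ, 1 < s → coeff (ex V k) (gp G w) = sgn G c * ∑ c' ∈ P,
      ∏ q ∈ (univ : Finset (Fin k × Fin k)).filter (fun q => q.1 < q.2),
        (s ^ (π c' q.1 : ℕ) * (s ^ (π c' q.1 : ℕ) - s ^ (π c' q.2 : ℕ))⁻¹) ^ df G c q := by
    intro s hs
    have hx : Function.Injective (fun a : Fin k => s ^ (a : ℕ)) := by
      intro a b hab
      exact Fin.ext ((pow_right_strictMono₀ hs).injective hab)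
    rw [coeff_formula (fun a : Fin k => s ^ (a : ℕ)) hk hx _
      ((totalDegree_gp G w).trans hdeg.le)]
    have h1 : ∑ c' : V → Fin k, (∏ e, lam (fun a : Fin k => s ^ (a : ℕ)) (c' e)) *
        eval (fun e => s ^ (c' e : ℕ)) (gp G w) =
        ∑ c' ∈ P, (∏ e, lam (fun a : Fin k => s ^ (a : ℕ)) (c' e)) *
        eval (fun e => s ^ (c' e : ℕ)) (gp G w) := by
      symm
      apply Finset.sum_subset (Finset.subset_univ _)
      intro c' _ hc'
      have h3 : ∃ p ∈ edg G, c' p.1 = c' p.2 := by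
        by_contra hcon
        push Not at hcon
        exact hc' (mem_filter.2 ⟨mem_univ _, hcon⟩)
      obtain ⟨p, hp, hpe⟩ := h3
      rw [eval_gp]
      have h4 : ∏ p ∈ edg G, (s ^ (c' p.1 : ℕ) - s ^ (c' p.2 : ℕ)) = 0 := by
        apply Finset.prod_eq_zero hp
        rw [hpe, sub_self]
      rw [h4, zero_mul, mul_zero]
    rw [h1, Finset.mul_sum]
    apply Finset.sum_congr rfl
    intro c' hc'
    rw [eval_gp]
    have e1 : ∏ e, lam (fun a : Fin k => s ^ (a : ℕ)) (c' e) =
        ∏ e, lam (fun a : Fin k => s ^ (a : ℕ)) (π c' (c e)) := by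
      rw [← Equiv.prod_comp (σ c') (fun e => lam (fun a : Fin k => s ^ (a : ℕ)) (π c' (c e)))]
      apply Finset.prod_congr rfl
      intro e _
      rw [hσ3 c' hc' e]
    have e2 : ∏ p ∈ edg G, (s ^ (c' p.1 : ℕ) - s ^ (c' p.2 : ℕ)) =
        ∏ p ∈ edg G, (s ^ (π c' (c p.1) : ℕ) - s ^ (π c' (c p.2) : ℕ)) := by
      rw [← hσ1 c' hc' (fun v => s ^ (π c' (c v) : ℕ))]
      apply Finset.prod_congr rfl
      intro p _
      rw [hσ3 c' hc' p.1, hσ3 c' hc' p.2]
    have e3 : ∏ v, (s ^ (c' v : ℕ)) ^ w v = ∏ i, (s ^ (π c' i : ℕ)) ^ dn G c i := by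
      rw [hw, prod_wt G c t ht (fun v => s ^ (c' v : ℕ))]
      apply Finset.prod_congr rfl
      intro i _
      rw [hσ3 c' hc' (t i), hσ2 c' hc' i, ht]
    rw [e1, e2, e3]
    have h6 := term_df G c hc he (fun a : Fin k => s ^ (a : ℕ)) hx (π c')
    calc (∏ e, lam (fun a : Fin k => s ^ (a : ℕ)) (π c' (c e))) *
          ((∏ p ∈ edg G, (s ^ (π c' (c p.1) : ℕ) - s ^ (π c' (c p.2) : ℕ))) *
            ∏ i, (s ^ (π c' i : ℕ)) ^ dn G c i) =
          ((∏ p ∈ edg G, (s ^ (π c' (c p.1) : ℕ) - s ^ (π c' (c p.2) : ℕ))) *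
          (∏ e, lam (fun a : Fin k => s ^ (a : ℕ)) (π c' (c e)))) *
            ∏ i, (s ^ (π c' i : ℕ)) ^ dn G c i := by ring
      _ = _ := by
        rw [h6, prod_dn G c (fun i => s ^ (π c' i : ℕ)), mul_assoc, ← Finset.prod_mul_distrib]
        congr 1
        apply Finset.prod_congr rfl
        intro q _
        rw [mul_pow, mul_comm]
  -- let `s` tend to infinity
  have hlim : Tendsto (fun s : ℝ => sgn G c * ∑ c' ∈ P,
      ∏ q ∈ (univ : Finset (Fin k × Fin k)).filter (fun q => q.1 < q.2),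
        (s ^ (π c' q.1 : ℕ) * (s ^ (π c' q.1 : ℕ) - s ^ (π c' q.2 : ℕ))⁻¹) ^ df G c q) atTop
      (𝓝 (sgn G c * ∑ c' ∈ P,
      ∏ q ∈ (univ : Finset (Fin k × Fin k)).filter (fun q => q.1 < q.2),
        (if π c' q.2 < π c' q.1 then (1 : ℝ) else 0) ^ df G c q)) := by
    apply Tendsto.const_mul
    apply tendsto_finsetSum
    intro c' _
    apply tendsto_finsetProd
    intro q hq
    have hq2 := (mem_filter.1 hq).2
    exact (tendsto_ratio _ _ (fun h2 => hq2.ne ((π c').injective h2))).pow _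
  have hconst : Tendsto (fun _ : ℝ => coeff (ex V k) (gp G w)) atTop
      (𝓝 (sgn G c * ∑ c' ∈ P,
      ∏ q ∈ (univ : Finset (Fin k × Fin k)).filter (fun q => q.1 < q.2),
        (if π c' q.2 < π c' q.1 then (1 : ℝ) else 0) ^ df G c q)) := by
    refine hlim.congr' ?_
    filter_upwards [eventually_gt_atTop (1 : ℝ)] with s hs
    exact (key s hs).symm
  rw [tendsto_nhds_unique tendsto_const_nhds hconst]
  apply mul_ne_zero (sgn_ne G c)
  apply ne_of_gt
  apply Finset.sum_pos'
  · intro c' _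
    apply Finset.prod_nonneg
    intro q _
    apply pow_nonneg
    split_ifs <;> norm_num
  · have hmem : (fun v => Fin.revPerm (c v)) ∈ P := by
      rw [hP, mem_filter]
      refine ⟨mem_univ _, fun p hp h => hc p hp (Fin.revPerm.injective h)⟩
    refine ⟨_, hmem, ?_⟩
    have hπ : ∀ i, π (fun v => Fin.revPerm (c v)) i = Fin.revPerm i := by
      intro i
      have h1 := hσ3 _ hmem (t i)
      rw [hσ2 _ hmem i, ht] at h1
      exact h1.symm
    apply Finset.prod_pos
    intro q hq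
    have hq2 := (mem_filter.1 hq).2
    apply pow_pos
    have h8 : Fin.revPerm q.2 < Fin.revPerm q.1 := Fin.rev_lt_rev.2 hq2
    rw [hπ, hπ, if_pos h8]
    norm_num

end Run7.h349
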