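import Pool.Agent.Run7.h349.Orb

set_option autoImplicit false
set_option linter.unusedSectionVars false

/-!
# The auxiliary graph of an ordered coloured graph
-/

namespace Run7.h349

open Finset

variable {V : Type} [LinearOrder V] (G : SimpleGraph V) {k : ℕ} (c : V → Fin k)
  (X : V → Fin k → Prop)

/-- `v` is the first vertex of its colour. -/
def Fst (v : V) : Prop := ∀ w, w < v → c w ≠ c v

/-- The adjacency of the auxiliary graph, for `u < v`. -/
def hr (u v : V) : Prop :=
  u < v ∧ c u ≠ c v ∧ (G.Adj u v ∨ Fst c v ∨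
    (Fst c u ∧ (∀ w, w < v → c w = c u → ¬ G.Adj w v) ∧ ¬ X v (c u)))

/-- The auxiliary graph. -/
def HH : SimpleGraph V where
  Adj u v := hr G c X u v ∨ hr G c X v u
  symm := ⟨fun _ _ h => h.symm⟩
  loopless := ⟨fun _ h => by
    rcases h with h | h
    · exact lt_irrefl _ h.1
    · exact lt_irrefl _ h.1⟩

variable {G c X}

theorem HH_adj {u v : V} (huv : u < v) : (HH G c X).Adj u v ↔ hr G c X u v := by
  constructor
  · rintro (h | h)
    · exact h
    · exact absurd huv (lt_asymm h.1)
  · exact fun h => Or.inl h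

theorem HH_ne {u v : V} (h : (HH G c X).Adj u v) : c u ≠ c v := by
  rcases h with h | h
  · exact h.2.1
  · exact h.2.1.symm

theorem Fst_unique {u v : V} (hu : Fst c u) (hv : Fst c v) (h : c u = c v) : u = v := by
  rcases lt_trichotomy u v with h1 | h1 | h1
  · exact absurd h (hv u h1)
  · exact h1
  · exact absurd h.symm (hu v h1)

/-- There is a later neighbour of the colour of `u` below `v`. -/
def Ex (G : SimpleGraph V) (c : V → Fin k) (u v : V) : Prop :=
  ∃ w, u < w ∧ w < v ∧ c w = c u ∧ G.Adj w v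

variable [Fintype V]

theorem exists_Fst (v0 : V) : ∃ v, c v = c v0 ∧ Fst c v ∧ v ≤ v0 := by
  classical
  have hne : (univ.filter fun v : V => c v = c v0).Nonempty := ⟨v0, by simp⟩
  set m := (univ.filter fun v : V => c v = c v0).min' hne with hm
  have h1 : m ∈ univ.filter fun v : V => c v = c v0 := Finset.min'_mem _ _
  have h2 : c m = c v0 := (mem_filter.1 h1).2
  refine ⟨m, h2, ?_, ?_⟩
  · intro w hw hcw
    have h3 : m ≤ w := Finset.min'_le _ _ (mem_filter.2 ⟨mem_univ _, by rw [hcw, h2]⟩)
    exact absurd hw (not_lt.2 h3)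
  · have h3 : v0 ∈ univ.filter fun v : V => c v = c v0 := mem_filter.2 ⟨mem_univ v0, rfl⟩
    exact Finset.min'_le _ _ h3

variable (G c X)

open Classical in
/-- The edges of the auxiliary graph between two classes. -/
noncomputable def Eij (i j : Fin k) : Finset (V × V) :=
  (edg (HH G c X)).filter fun p => (c p.1 = i ∧ c p.2 = j) ∨ (c p.1 = j ∧ c p.2 = i)

variable {G c X}

theorem mem_Eij {i j : Fin k} {p : V × V} : p ∈ Eij G c X i j ↔
    hr G c X p.1 p.2 ∧ ((c p.1 = i ∧ c p.2 = j) ∨ (c p.1 = j ∧ c p.2 = i)) := by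
  classical
  unfold Eij edg
  rw [mem_filter, mem_filter]
  constructor
  · rintro ⟨⟨_, h1, h2⟩, h3⟩
    exact ⟨(HH_adj h1).1 h2, h3⟩
  · rintro ⟨h1, h2⟩
    exact ⟨⟨mem_univ _, h1.1, (HH_adj h1.1).2 h1⟩, h2⟩

theorem card_Eij {i j : Fin k} (hij : i ≠ j) :
    eo (HH G c X) c i j + eo (HH G c X) c j i = (Eij G c X i j).card := by
  classical
  unfold eo Eij
  rw [Finset.filter_or, Finset.card_union_of_disjoint]
  rw [Finset.disjoint_left]
  intro p hp hq
  rw [mem_filter] at hp hq
  exact hij (hp.2.1.symm.trans hq.2.1)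

theorem card_Vij {i j : Fin k} (hij : i ≠ j) :
    sz c i + sz c j = (univ.filter fun v => c v = i ∨ c v = j).card := by
  classical
  unfold sz
  rw [Finset.filter_or, Finset.card_union_of_disjoint]
  rw [Finset.disjoint_left]
  intro p hp hq
  rw [mem_filter] at hp hq
  exact hij (hp.2.symm.trans hq.2)

/-- The number of edges between two classes is at most the number of vertices, if the surplus edges
can be assigned to free vertices. -/
theorem count_le {i j : Fin k} (hij : i ≠ j) (sp : V → V → V)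
    (h1 : ∀ u v, u < v → G.Adj u v → ((c u = i ∧ c v = j) ∨ (c u = j ∧ c v = i)) → ¬ Fst c v →
      Ex G c u v → (c (sp u v) = i ∨ c (sp u v) = j) ∧
        (∀ t, Fst c t → sp u v < t → (c t = i ∨ c t = j) → c t = c (sp u v)) ∧
        (Fst c (sp u v) ∨ ∀ w, w < sp u v → (c w = i ∨ c w = j) → ¬ hr G c X w (sp u v)))
    (h2 : ∀ u v u' v', u < v → G.Adj u v → ((c u = i ∧ c v = j) ∨ (c u = j ∧ c v = i)) →
      ¬ Fst c v → Ex G c u v → u' < v' → G.Adj u' v' →
      ((c u' = i ∧ c v' = j) ∨ (c u' = j ∧ c v' = i)) → ¬ Fst c v' →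
      Ex G c u' v' → sp u v = sp u' v' → u = u' ∧ v = v') :
    eo (HH G c X) c i j + eo (HH G c X) c j i ≤ sz c i + sz c j := by
  classical
  rw [card_Eij hij, card_Vij hij]
  set own : V × V → V := fun p => if Fst c p.2 then p.1 else
    if Ex G c p.1 p.2 then sp p.1 p.2 else p.2 with hown
  -- surplus edges are edges of `G`
  have hG : ∀ u v, hr G c X u v → ¬ Fst c v → Ex G c u v → G.Adj u v := by
    intro u v h hF hE
    rcases h.2.2 with h3 | h3 | h3
    · exact h3
    · exact absurd h3 hF
    · obtain ⟨w, _, hw2, hw3, hw4⟩ := hE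
      exact absurd hw4 (h3.2.1 w hw2 hw3)
  apply Finset.card_le_card_of_injOn own
  · intro p hp
    rw [Finset.mem_coe, mem_Eij] at hp
    rw [Finset.mem_coe, mem_filter]
    refine ⟨mem_univ _, ?_⟩
    simp only [hown]
    split_ifs with hF hE
    · rcases hp.2 with h | h
      · exact Or.inl h.1
      · exact Or.inr h.1
    · exact (h1 _ _ hp.1.1 (hG _ _ hp.1 hF hE) hp.2 hF hE).1
    · rcases hp.2 with h | h
      · exact Or.inr h.2
      · exact Or.inl h.2
  · rintro ⟨u, v⟩ hp ⟨u', v'⟩ hp' heq
    rw [Finset.mem_coe, mem_Eij] at hp hp'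
    simp only at hp hp'
    simp only [hown] at heq
    -- an edge into a non-first vertex is never owned by a vertex owning an edge to a first vertex
    have key1 : ∀ a b a' b', hr G c X a b → ((c a = i ∧ c b = j) ∨ (c a = j ∧ c b = i)) →
        hr G c X a' b' → ((c a' = i ∧ c b' = j) ∨ (c a' = j ∧ c b' = i)) →
        Fst c b → a ≠ b' := by
      intro a b a' b' h3 h4 h5 h6 h7 h8
      subst h8
      have h9 : a' < b := h5.1.trans h3.1
      apply h7 a' h9
      rcases h4 with h4 | h4 <;> rcases h6 with h6 | h6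
      · exact absurd (h4.1.symm.trans h6.2) hij
      · rw [h6.1, h4.2]
      · rw [h6.1, h4.2]
      · exact absurd (h6.2.symm.trans h4.1) hij
    have key2 : ∀ a b a' b', hr G c X a b → ((c a = i ∧ c b = j) ∨ (c a = j ∧ c b = i)) →
        hr G c X a' b' → ((c a' = i ∧ c b' = j) ∨ (c a' = j ∧ c b' = i)) →
        Fst c b → ¬ Fst c b' → Ex G c a' b' → a ≠ sp a' b' := by
      intro a b a' b' h3 h4 h5 h6 h7 h8 h9 h10
      have h11 := h1 a' b' h5.1 (hG _ _ h5 h8 h9) h6 h8 h9
      have h12 := h11.2.1 b h7 (by rw [← h10]; exact h3.1) (by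
        rcases h4 with h4 | h4
        · exact Or.inr h4.2
        · exact Or.inl h4.2)
      rw [← h10] at h12
      exact h3.2.1 h12.symm
    have key3 : ∀ a b a' b', hr G c X a b → ((c a = i ∧ c b = j) ∨ (c a = j ∧ c b = i)) →
        hr G c X a' b' → ((c a' = i ∧ c b' = j) ∨ (c a' = j ∧ c b' = i)) →
        ¬ Fst c b → ¬ Fst c b' → Ex G c a' b' → b ≠ sp a' b' := by
      intro a b a' b' h3 h4 h5 h6 h7 h8 h9 h10
      have h11 := h1 a' b' h5.1 (hG _ _ h5 h8 h9) h6 h8 h9
      rcases h11.2.2 with h12 | h12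
      · rw [← h10] at h12
        exact h7 h12
      · apply h12 a (by rw [← h10]; exact h3.1) (by
          rcases h4 with h4 | h4
          · exact Or.inl h4.1
          · exact Or.inr h4.1)
        rw [← h10]
        exact h3
    by_cases hF : Fst c v <;> by_cases hF' : Fst c v'
    · rw [if_pos hF, if_pos hF'] at heq
      subst heq
      rw [Prod.mk.injEq]
      refine ⟨rfl, ?_⟩
      apply Fst_unique hF hF'
      rcases hp.2 with h | h <;> rcases hp'.2 with h' | h'
      · rw [h.2, h'.2]
      · exact absurd (h.1.symm.trans h'.1) hij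
      · exact absurd (h'.1.symm.trans h.1) hij
      · rw [h.2, h'.2]
    · rw [if_pos hF, if_neg hF'] at heq
      by_cases hE' : Ex G c u' v'
      · rw [if_pos hE'] at heq
        exact absurd heq (key2 u v u' v' hp.1 hp.2 hp'.1 hp'.2 hF hF' hE')
      · rw [if_neg hE'] at heq
        exact absurd heq (key1 u v u' v' hp.1 hp.2 hp'.1 hp'.2 hF)
    · rw [if_neg hF, if_pos hF'] at heq
      by_cases hE : Ex G c u v
      · rw [if_pos hE] at heq
        exact absurd heq.symm (key2 u' v' u v hp'.1 hp'.2 hp.1 hp.2 hF' hF hE)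
      · rw [if_neg hE] at heq
        exact absurd heq.symm (key1 u' v' u v hp'.1 hp'.2 hp.1 hp.2 hF')
    · rw [if_neg hF, if_neg hF'] at heq
      by_cases hE : Ex G c u v <;> by_cases hE' : Ex G c u' v'
      · rw [if_pos hE, if_pos hE'] at heq
        have h3 := h2 u v u' v' hp.1.1 (hG _ _ hp.1 hF hE) hp.2 hF hE hp'.1.1
          (hG _ _ hp'.1 hF' hE') hp'.2 hF' hE' heq
        rw [h3.1, h3.2]
      · rw [if_pos hE, if_neg hE'] at heq
        exact absurd heq.symm (key3 u' v' u v hp'.1 hp'.2 hp.1 hp.2 hF' hF hE)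
      · rw [if_neg hE, if_pos hE'] at heq
        exact absurd heq (key3 u v u' v' hp.1 hp.2 hp'.1 hp'.2 hF hF' hE')
      · rw [if_neg hE, if_neg hE'] at heq
        subst heq
        rw [Prod.mk.injEq]
        refine ⟨?_, rfl⟩
        have hcc : c u = c u' := by
          rcases hp.2 with h | h <;> rcases hp'.2 with h' | h'
          · rw [h.1, h'.1]
          · exact absurd (h'.2.symm.trans h.2) hij
          · exact absurd (h.2.symm.trans h'.2) hij
          · rw [h.1, h'.1]
        -- both are the latest neighbours, or both are first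
        rcases hp.1.2.2 with h | h | h
        · rcases hp'.1.2.2 with h' | h' | h'
          · rcases lt_trichotomy u u' with h3 | h3 | h3
            · exact absurd ⟨u', h3, hp'.1.1, hcc.symm, h'⟩ hE
            · exact h3
            · exact absurd ⟨u, h3, hp.1.1, hcc, h⟩ hE'
          · exact absurd h' hF
          · exact absurd h (h'.2.1 u hp.1.1 hcc)
        · exact absurd h hF
        · rcases hp'.1.2.2 with h' | h' | h'
          · exact absurd h' (h.2.1 u' hp'.1.1 hcc.symm)
          · exact absurd h' hF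
          · exact Fst_unique h.1 h'.1 hcc

/-- The auxiliary graph without nodes is uniquely colourable. -/
theorem HH_uniq (hs : Function.Surjective c) (hX : ∀ v j, ¬ X v j)
    (c' : V → Fin k) (hc' : ∀ u v, u < v → hr G c X u v → c' u ≠ c' v) :
    ∃ π : Equiv.Perm (Fin k), ∀ v, c' v = π (c v) := by
  classical
  have ht : ∀ j, ∃ v, c v = j ∧ Fst c v := by
    intro j
    obtain ⟨v0, hv0⟩ := hs j
    obtain ⟨v, h1, h2, _⟩ := exists_Fst (c := c) v0
    exact ⟨v, h1.trans hv0, h2⟩
  choose t ht1 ht2 using ht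
  have hinj : Function.Injective fun j => c' (t j) := by
    intro i j hij
    simp only at hij
    by_contra hne
    rcases lt_trichotomy (t i) (t j) with h | h | h
    · exact hc' _ _ h ⟨h, by rw [ht1, ht1]; exact hne, Or.inr (Or.inl (ht2 j))⟩ hij
    · apply hne
      rw [← ht1 i, h, ht1]
    · exact hc' _ _ h ⟨h, by rw [ht1, ht1]; exact fun h => hne h.symm,
        Or.inr (Or.inl (ht2 i))⟩ hij.symm
  have hbij := Finite.injective_iff_bijective.1 hinj
  refine ⟨Equiv.ofBijective _ hbij, ?_⟩
  intro v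
  induction v using WellFoundedLT.induction with
  | ind v ih =>
    rw [Equiv.ofBijective_apply]
    by_contra hne
    obtain ⟨j, hj⟩ := hbij.2 (c' v)
    simp only at hj
    have hjv : j ≠ c v := by
      rintro rfl
      exact hne hj.symm
    rcases lt_trichotomy (t j) v with h | h | h
    · by_cases hw : ∃ w, w < v ∧ c w = j ∧ G.Adj w v
      · obtain ⟨w, hw1, hw2, hw3⟩ := hw
        have h3 := ih w hw1
        rw [Equiv.ofBijective_apply, hw2] at h3
        exact hc' w v hw1 ⟨hw1, by rw [hw2]; exact hjv, Or.inl hw3⟩ (h3.trans hj)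
      · push Not at hw
        refine hc' (t j) v h ⟨h, by rw [ht1]; exact hjv, Or.inr (Or.inr ⟨ht2 j, ?_, hX _ _⟩)⟩ hj
        intro w hw1 hw2
        exact hw w hw1 (by rw [hw2, ht1])
    · apply hjv
      rw [← h, ht1]
    · exact hc' v (t j) h ⟨h, by rw [ht1]; exact hjv.symm, Or.inr (Or.inl (ht2 j))⟩ hj.symm

/-- The criterion: if every pair of colour classes has at most one surplus edge, the graph is
`k`-choosable. -/
theorem order_choosable (hk : 0 < k) (hs : Function.Surjective c)
    (hc : ∀ u v, G.Adj u v → c u ≠ c v)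
    (hx : ∀ i j, i ≠ j → ∀ u v u' v', u < v → G.Adj u v →
      ((c u = i ∧ c v = j) ∨ (c u = j ∧ c v = i)) →
      ¬ Fst c v → Ex G c u v → u' < v' → G.Adj u' v' →
      ((c u' = i ∧ c v' = j) ∨ (c u' = j ∧ c v' = i)) → ¬ Fst c v' →
      Ex G c u' v' → u = u' ∧ v = v')
    (L : V → Finset ℕ) (hL : ∀ v, k ≤ (L v).card) :
    ∃ f : V → ℕ, (∀ v, f v ∈ L v) ∧ ∀ u v, G.Adj u v → f u ≠ f v := by
  classical
  set X : V → Fin k → Prop := fun _ _ => False with hXdef
  have ht : ∀ j, ∃ v, c v = j ∧ Fst c v := by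
    intro j
    obtain ⟨v0, hv0⟩ := hs j
    obtain ⟨v, h1, h2, _⟩ := exists_Fst (c := c) v0
    exact ⟨v, h1.trans hv0, h2⟩
  choose t ht1 ht2 using ht
  obtain ⟨f, hf1, hf2⟩ := orbit_choosable (HH G c X) c hk t ht1
    (by
      intro p hp
      unfold edg at hp
      exact HH_ne (mem_filter.1 hp).2.2)
    (by
      intro c' hc'
      obtain ⟨π, hπ⟩ := HH_uniq (G := G) (X := X) hs (fun _ _ h => h) c' (by
        intro u v huv h
        exact hc' (u, v) (mem_filter.2 ⟨mem_univ _, huv, (HH_adj huv).2 h⟩))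
      exact ⟨π, 1, fun y => rfl, fun j => rfl, fun v => hπ v⟩)
    (by
      intro i j hij
      apply count_le hij.ne (fun _ _ => max (t i) (t j))
      · intro u v _ _ _ _ _
        refine ⟨?_, ?_, ?_⟩
        · rcases max_choice (t i) (t j) with h | h
          · rw [h]; exact Or.inl (ht1 i)
          · rw [h]; exact Or.inr (ht1 j)
        · intro t' ht' h3 h4
          exfalso
          rcases h4 with h4 | h4
          · have h5 := Fst_unique ht' (ht2 i) (h4.trans (ht1 i).symm)
            rw [h5] at h3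
            exact absurd (le_max_left (t i) (t j)) (not_le.2 h3)
          · have h5 := Fst_unique ht' (ht2 j) (h4.trans (ht1 j).symm)
            rw [h5] at h3
            exact absurd (le_max_right (t i) (t j)) (not_le.2 h3)
        · left
          rcases max_choice (t i) (t j) with h | h
          · rw [h]; exact ht2 i
          · rw [h]; exact ht2 j
      · intro u v u' v' h3 h4 h5 h6 h7 h8 h9 h10 h11 h12 _
        exact hx i j hij.ne u v u' v' h3 h4 h5 h6 h7 h8 h9 h10 h11 h12)
    L hL
  refine ⟨f, hf1, fun u v huv => hf2 u v ?_⟩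
  rcases lt_trichotomy u v with h | h | h
  · exact (HH_adj h).2 ⟨h, hc u v huv, Or.inl huv⟩
  · exact absurd h huv.ne
  · exact ((HH_adj h).2 ⟨h, (hc u v huv).symm, Or.inl huv.symm⟩).symm

end Run7.h349
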