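import Mathlib

set_option autoImplicit false
set_option linter.unusedSectionVars false

/-!
# Periodic sets of integers: next element, previous element, number of residues
-/

namespace Run7.h349

open Finset

/-- A periodic set of integers. -/
def Per (n : ℕ) (P : ℤ → Prop) : Prop := ∀ i, P (i + n) ↔ P i

variable {n : ℕ}

theorem Per.mul {P : ℤ → Prop} (h : Per n P) (i g : ℤ) : P (i + n * g) ↔ P i := by
  induction g with
  | zero => simp
  | succ g ih =>
    rw [← ih, ← h (i + n * g)]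
    have e : i + (n : ℤ) * (g + 1) = i + n * g + n := by ring
    rw [e]
  | pred g ih =>
    rw [← ih, ← h (i + n * (-(g : ℤ) - 1))]
    have e : i + (n : ℤ) * (-(g : ℤ) - 1) + n = i + n * -(g : ℤ) := by ring
    rw [e]

theorem Per.mod {P : ℤ → Prop} (h : Per n P) (i : ℤ) : P (i % n) ↔ P i := by
  have h1 := h.mul (i % n) (i / n)
  rw [Int.emod_add_mul_ediv] at h1
  exact h1.symm

theorem Per.dvd {P : ℤ → Prop} (h : Per n P) {i j : ℤ} (hd : (n : ℤ) ∣ i - j) : P i ↔ P j := by
  obtain ⟨g, hg⟩ := hd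
  have e : i = j + n * g := by linarith
  rw [e]
  exact h.mul j g

theorem Per.ex_gt {P : ℤ → Prop} (h : Per n P) (hn : 0 < n) {i0 : ℤ} (h0 : P i0) (i : ℤ) :
    ∃ t : ℕ, P (i + 1 + t) := by
  have hn' : (1 : ℤ) ≤ n := by exact_mod_cast hn
  have h1 : i + 1 ≤ i0 + n * (|i| + |i0| + 1) := by
    have h2 : (|i| + |i0| + 1) ≤ n * (|i| + |i0| + 1) := by
      have : (0 : ℤ) ≤ |i| + |i0| + 1 := by positivity
      nlinarith
    have h3 := le_abs_self i
    have h4 := neg_abs_le i0
    linarith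
  refine ⟨(i0 + n * (|i| + |i0| + 1) - (i + 1)).toNat, ?_⟩
  rw [Int.toNat_of_nonneg (by linarith)]
  have e : i + 1 + (i0 + n * (|i| + |i0| + 1) - (i + 1)) = i0 + n * (|i| + |i0| + 1) := by ring
  rw [e, h.mul]
  exact h0

open Classical in
/-- The next element of `P` after `i`. -/
noncomputable def nx (P : ℤ → Prop) (i : ℤ) : ℤ :=
  if h : ∃ t : ℕ, P (i + 1 + t) then i + 1 + Nat.find h else i

/-- The previous element of `P` before `i`. -/
noncomputable def pv (P : ℤ → Prop) (i : ℤ) : ℤ := - nx (fun j => P (-j)) (-i)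

section nx

variable {P : ℤ → Prop} (hP : Per n P) (hn : 0 < n) {i0 : ℤ} (h0 : P i0)
include hP hn h0

theorem nx_mem (i : ℤ) : P (nx P i) := by
  classical
  unfold nx
  rw [dif_pos (hP.ex_gt hn h0 i)]
  exact Nat.find_spec (hP.ex_gt hn h0 i)

theorem nx_gt (i : ℤ) : i < nx P i := by
  classical
  unfold nx
  rw [dif_pos (hP.ex_gt hn h0 i)]
  have : (0 : ℤ) ≤ (Nat.find (hP.ex_gt hn h0 i) : ℤ) := Int.natCast_nonneg _
  linarith

theorem nx_le {i j : ℤ} (hij : i < j) (hj : P j) : nx P i ≤ j := by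
  classical
  unfold nx
  rw [dif_pos (hP.ex_gt hn h0 i)]
  have h1 : P (i + 1 + ((j - i - 1).toNat : ℕ)) := by
    rw [Int.toNat_of_nonneg (by linarith)]
    have e : i + 1 + (j - i - 1) = j := by ring
    rw [e]
    exact hj
  have h2 := Nat.find_min' (hP.ex_gt hn h0 i) h1
  have h3 : ((Nat.find (hP.ex_gt hn h0 i) : ℕ) : ℤ) ≤ ((j - i - 1).toNat : ℕ) := by
    exact_mod_cast h2
  rw [Int.toNat_of_nonneg (by linarith)] at h3
  linarith

theorem nx_min {i w : ℤ} (h1 : i < w) (h2 : w < nx P i) : ¬ P w := by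
  intro h
  have := nx_le hP hn h0 h1 h
  linarith

theorem nx_unique {i j : ℤ} (hij : i < j) (hj : P j) (hmin : ∀ w, i < w → w < j → ¬ P w) :
    nx P i = j := by
  apply le_antisymm (nx_le hP hn h0 hij hj)
  by_contra h
  push Not at h
  exact hmin _ (nx_gt hP hn h0 i) h (nx_mem hP hn h0 i)

theorem nx_add (i g : ℤ) : nx P (i + n * g) = nx P i + n * g := by
  apply nx_unique hP hn h0
  · have := nx_gt hP hn h0 i
    linarith
  · rw [hP.mul]
    exact nx_mem hP hn h0 i
  · intro w h1 h2 h3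
    have e : w = (w - n * g) + n * g := by ring
    rw [e, hP.mul] at h3
    exact nx_min hP hn h0 (i := i) (w := w - n * g) (by linarith) (by linarith) h3

end nx

theorem Per.neg {P : ℤ → Prop} (h : Per n P) : Per n (fun j => P (-j)) := by
  intro i
  have e : -(i + (n : ℤ)) + n = -i := by ring
  have h1 := h (-(i + n))
  rw [e] at h1
  exact h1.symm

section pv

variable {P : ℤ → Prop} (hP : Per n P) (hn : 0 < n) {i0 : ℤ} (h0 : P i0)
include hP hn h0

theorem pv_mem (i : ℤ) : P (pv P i) := by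
  have h0' : (fun j => P (-j)) (-i0) := by simpa using h0
  exact nx_mem hP.neg hn h0' (-i)

theorem pv_lt (i : ℤ) : pv P i < i := by
  have h0' : (fun j => P (-j)) (-i0) := by simpa using h0
  have := nx_gt hP.neg hn h0' (-i)
  unfold pv
  linarith

theorem le_pv {i j : ℤ} (hij : j < i) (hj : P j) : j ≤ pv P i := by
  have h0' : (fun j => P (-j)) (-i0) := by simpa using h0
  have hj' : (fun j => P (-j)) (-j) := by simpa using hj
  have := nx_le hP.neg hn h0' (i := -i) (j := -j) (by linarith) hj'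
  unfold pv
  linarith

theorem pv_min {i w : ℤ} (h1 : pv P i < w) (h2 : w < i) : ¬ P w := by
  intro h
  have := le_pv hP hn h0 h2 h
  linarith

theorem pv_unique {i j : ℤ} (hij : j < i) (hj : P j) (hmin : ∀ w, j < w → w < i → ¬ P w) :
    pv P i = j := by
  apply le_antisymm _ (le_pv hP hn h0 hij hj)
  by_contra h
  push Not at h
  exact hmin _ h (pv_lt hP hn h0 i) (pv_mem hP hn h0 i)

theorem pv_add (i g : ℤ) : pv P (i + n * g) = pv P i + n * g := by
  apply pv_unique hP hn h0
  · have := pv_lt hP hn h0 i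
    linarith
  · rw [hP.mul]
    exact pv_mem hP hn h0 i
  · intro w h1 h2 h3
    have e : w = (w - n * g) + n * g := by ring
    rw [e, hP.mul] at h3
    exact pv_min hP hn h0 (i := i) (w := w - n * g) (by linarith) (by linarith) h3

theorem nx_pv {i : ℤ} (hi : P i) : nx P (pv P i) = i :=
  nx_unique hP hn h0 (pv_lt hP hn h0 i) hi (fun _ h1 h2 => pv_min hP hn h0 h1 h2)

theorem pv_nx {i : ℤ} (hi : P i) : pv P (nx P i) = i :=
  pv_unique hP hn h0 (nx_gt hP hn h0 i) hi (fun _ h1 h2 => nx_min hP hn h0 h1 h2)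

end pv

section cnt

open Classical in
/-- The number of residues of a periodic set. -/
noncomputable def cnt (n : ℕ) (P : ℤ → Prop) : ℕ :=
  ((Finset.range n).filter fun t : ℕ => P (t : ℤ)).card

theorem cnt_pos {P : ℤ → Prop} (hP : Per n P) (hn : 0 < n) {i0 : ℤ} (h0 : P i0) :
    0 < cnt n P := by
  classical
  unfold cnt
  rw [Finset.card_pos]
  have hn' : (0 : ℤ) < n := by exact_mod_cast hn
  have h1 := Int.emod_nonneg i0 hn'.ne'
  have h2 := Int.emod_lt_of_pos i0 hn'
  refine ⟨(i0 % n).toNat, ?_⟩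
  rw [mem_filter, mem_range]
  refine ⟨by omega, ?_⟩
  rw [Int.toNat_of_nonneg h1, hP.mod]
  exact h0

theorem exists_of_cnt_pos {P : ℤ → Prop} (h : 0 < cnt n P) : ∃ i, P i := by
  classical
  unfold cnt at h
  rw [Finset.card_pos] at h
  obtain ⟨t, ht⟩ := h
  exact ⟨t, (mem_filter.1 ht).2⟩

variable {P Q : ℤ → Prop}

theorem shift_fun (hP : Per n P) (f : ℤ → ℤ) (hf : ∀ i, P i → f (i + n) = f i + n) :
    ∀ g i, P i → f (i + n * g) = f i + n * g := by
  intro g
  induction g with
  | zero => intro i _; simp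
  | succ g ih =>
    intro i hi
    have e : i + (n : ℤ) * (g + 1) = i + n * g + n := by ring
    rw [e, hf _ ((hP.mul i g).2 hi), ih i hi]
    ring
  | pred g ih =>
    intro i hi
    have h1 : P (i + n * (-(g : ℤ) - 1)) := (hP.mul i _).2 hi
    have h2 := hf _ h1
    have e : i + (n : ℤ) * (-(g : ℤ) - 1) + n = i + n * -(g : ℤ) := by ring
    rw [e, ih i hi] at h2
    linarith

theorem cnt_aux (hn : 0 < n) (hP : Per n P) (hQ : Per n Q) (f : ℤ → ℤ) (hPQ : ∀ i, P i → Q (f i))
    (hf : ∀ i, P i → f (i + n) = f i + n) (hinj : ∀ i j, P i → P j → f i = f j → i = j) :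
    cnt n P ≤ cnt n Q ∧ (cnt n Q ≤ cnt n P → ∀ q, Q q → ∃ i, P i ∧ f i = q) := by
  classical
  have hn' : (0 : ℤ) < n := by exact_mod_cast hn
  set F : ℕ → ℕ := fun t => (f t % n).toNat with hF
  have hFc : ∀ t, ((F t : ℕ) : ℤ) = f t % n := by
    intro t
    rw [hF]
    exact Int.toNat_of_nonneg (Int.emod_nonneg _ hn'.ne')
  have hmaps : ∀ t ∈ (Finset.range n).filter (fun t : ℕ => P (t : ℤ)),
      F t ∈ (Finset.range n).filter (fun t : ℕ => Q (t : ℤ)) := by
    intro t ht
    rw [mem_filter, mem_range] at ht ⊢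
    constructor
    · have := Int.emod_lt_of_pos (f t) hn'
      have h2 := hFc t
      omega
    · rw [hFc, hQ.mod]
      exact hPQ _ ht.2
  have hinj' : Set.InjOn F ((Finset.range n).filter (fun t : ℕ => P (t : ℤ)) : Finset ℕ) := by
    intro t ht t' ht' he
    rw [Finset.mem_coe, mem_filter, mem_range] at ht ht'
    have h1 : f t % n = f t' % n := by rw [← hFc, ← hFc, he]
    have h2 : (n : ℤ) ∣ f t - f t' := Int.ModEq.dvd (show f t' ≡ f t [ZMOD n] from h1.symm)
    obtain ⟨g, hg⟩ := h2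
    have h3 : f t = f (t' + n * g) := by
      rw [shift_fun hP f hf g _ ht'.2]
      linarith
    have h4 := hinj _ _ ht.2 ((hP.mul _ g).2 ht'.2) h3
    have h5 : (t : ℤ) < n := by exact_mod_cast ht.1
    have h6 : (t' : ℤ) < n := by exact_mod_cast ht'.1
    have h7 : g = 0 := by
      have h8 : n * g < n * 1 := by
        have : (0 : ℤ) ≤ t' := Int.natCast_nonneg _
        linarith
      have h9 : n * (-1) < n * g := by
        have : (0 : ℤ) ≤ t := Int.natCast_nonneg _
        linarith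
      have h10 := lt_of_mul_lt_mul_left h8 hn'.le
      have h11 := lt_of_mul_lt_mul_left h9 hn'.le
      omega
    rw [h7] at h4
    simp only [mul_zero, add_zero] at h4
    exact_mod_cast h4
  refine ⟨Finset.card_le_card_of_injOn F hmaps hinj', ?_⟩
  intro hle q hq
  have hsurj : ∀ b ∈ (Finset.range n).filter (fun t : ℕ => Q (t : ℤ)),
      ∃ a ∈ (Finset.range n).filter (fun t : ℕ => P (t : ℤ)), F a = b := by
    have himg : ((Finset.range n).filter (fun t : ℕ => P (t : ℤ))).image F =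
        (Finset.range n).filter (fun t : ℕ => Q (t : ℤ)) := by
      apply Finset.eq_of_subset_of_card_le
      · intro b hb
        obtain ⟨a, ha, rfl⟩ := Finset.mem_image.1 hb
        exact hmaps a ha
      · rw [Finset.card_image_of_injOn hinj']
        exact hle
    intro b hb
    rw [← himg] at hb
    obtain ⟨a, ha, hab⟩ := Finset.mem_image.1 hb
    exact ⟨a, ha, hab⟩
  have hq1 : (q % n).toNat ∈ (Finset.range n).filter (fun t : ℕ => Q (t : ℤ)) := by
    have h1 := Int.emod_nonneg q hn'.ne'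
    have h2 := Int.emod_lt_of_pos q hn'
    rw [mem_filter, mem_range, Int.toNat_of_nonneg h1, hQ.mod]
    exact ⟨by omega, hq⟩
  obtain ⟨t, ht, hte⟩ := hsurj _ hq1
  rw [mem_filter] at ht
  have h1 : f t % n = q % n := by
    rw [← hFc, hte, Int.toNat_of_nonneg (Int.emod_nonneg _ hn'.ne')]
  have h2 : (n : ℤ) ∣ q - f t := Int.ModEq.dvd (show f t ≡ q [ZMOD n] from h1)
  obtain ⟨g, hg⟩ := h2
  refine ⟨t + n * g, (hP.mul _ g).2 ht.2, ?_⟩
  rw [shift_fun hP f hf g _ ht.2]
  linarith

theorem cnt_le (hn : 0 < n) (hP : Per n P) (hQ : Per n Q) (f : ℤ → ℤ) (hPQ : ∀ i, P i → Q (f i))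
    (hf : ∀ i, P i → f (i + n) = f i + n) (hinj : ∀ i j, P i → P j → f i = f j → i = j) :
    cnt n P ≤ cnt n Q := (cnt_aux hn hP hQ f hPQ hf hinj).1

theorem cnt_surj (hn : 0 < n) (hP : Per n P) (hQ : Per n Q) (f : ℤ → ℤ) (hPQ : ∀ i, P i → Q (f i))
    (hf : ∀ i, P i → f (i + n) = f i + n) (hinj : ∀ i j, P i → P j → f i = f j → i = j)
    (hle : cnt n Q ≤ cnt n P) : ∀ q, Q q → ∃ i, P i ∧ f i = q :=
  (cnt_aux hn hP hQ f hPQ hf hinj).2 hle

/-- Removing one residue. -/
theorem cnt_erase (hn : 0 < n) (hP : Per n P) {x0 : ℤ} (h0 : P x0) :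
    cnt n P = cnt n (fun i => P i ∧ ¬ (n : ℤ) ∣ i - x0) + 1 := by
  classical
  have hn' : (0 : ℤ) < n := by exact_mod_cast hn
  have h1 := Int.emod_nonneg x0 hn'.ne'
  have h2 := Int.emod_lt_of_pos x0 hn'
  unfold cnt
  have h3 : (Finset.range n).filter (fun t : ℕ => P (t : ℤ)) =
      insert (x0 % n).toNat ((Finset.range n).filter
        (fun t : ℕ => P (t : ℤ) ∧ ¬ (n : ℤ) ∣ t - x0)) := by
    ext t
    rw [mem_insert, mem_filter, mem_filter, mem_range]
    constructor
    · intro ⟨h4, h5⟩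
      by_cases h6 : (n : ℤ) ∣ t - x0
      · left
        have h7 : (t : ℤ) % n = x0 % n := (Int.modEq_iff_dvd.2 h6 : x0 ≡ t [ZMOD n]).symm
        have h8 : (t : ℤ) % n = t := Int.emod_eq_of_lt (Int.natCast_nonneg _) (by exact_mod_cast h4)
        omega
      · right
        exact ⟨h4, h5, h6⟩
    · rintro (h4 | ⟨h4, h5, _⟩)
      · rw [h4]
        refine ⟨by omega, ?_⟩
        rw [Int.toNat_of_nonneg h1, hP.mod]
        exact h0
      · exact ⟨h4, h5⟩
  have h9 : (x0 % n).toNat ∉ (Finset.range n).filter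
        (fun t : ℕ => P (t : ℤ) ∧ ¬ (n : ℤ) ∣ t - x0) := by
    intro hmem
    obtain ⟨_, _, h4⟩ := mem_filter.1 hmem
    apply h4
    rw [Int.toNat_of_nonneg h1]
    exact ⟨-(x0 / n), by have := Int.emod_add_mul_ediv x0 n; linarith⟩
  rw [h3, Finset.card_insert_of_notMem h9]
  congr 2
  ext t
  simp only [mem_filter]

end cnt

end Run7.h349
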