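import Pool.Agent.Run7.h349.Per

set_option autoImplicit false
set_option linter.unusedSectionVars false

/-!
# Alternating recolouring of two classes of a periodic colouring
-/

namespace Run7.h349

open Finset

variable {n k : ℕ}

/-- The union of two colour classes. -/
def DD (c : ℤ → Fin k) (a b : Fin k) (i : ℤ) : Prop := c i = a ∨ c i = b

theorem DD_per {c : ℤ → Fin k} (hc : ∀ i, c (i + n) = c i) (a b : Fin k) : Per n (DD c a b) := by
  intro i
  unfold DD
  rw [hc]

theorem cl_per {c : ℤ → Fin k} (hc : ∀ i, c (i + n) = c i) (a : Fin k) :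
    Per n (fun i => c i = a) := by
  intro i
  change c (i + n) = a ↔ c i = a
  rw [hc]

theorem c_mul {c : ℤ → Fin k} (hc : ∀ i, c (i + n) = c i) (i g : ℤ) : c (i + n * g) = c i :=
  ((cl_per hc (c i)).mul i g).2 rfl

theorem c_dvd {c : ℤ → Fin k} (hc : ∀ i, c (i + n) = c i) {i j : ℤ} (h : (n : ℤ) ∣ i - j) :
    c i = c j := ((cl_per hc (c j)).dvd h).2 rfl

open Classical in
/-- The number of elements of `D` between `v0` and `i`, modulo the period. -/
noncomputable def rk (n : ℕ) (D : ℤ → Prop) (v0 i : ℤ) : ℕ :=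
  ((Finset.range ((i - v0) % n).toNat).filter fun t : ℕ => D (v0 + t)).card

theorem rk_per (D : ℤ → Prop) (v0 i : ℤ) : rk n D v0 (i + n) = rk n D v0 i := by
  unfold rk
  have e : (i + n - v0) % n = (i - v0) % n := by
    have : i + n - v0 = i - v0 + n := by ring
    rw [this, Int.add_emod_right]
  rw [e]

theorem rk_succ (hn : 0 < n) {D : ℤ → Prop} (hD : Per n D) {v0 z : ℤ} (hv : D v0) (hz : D z)
    (hnd : ¬ (n : ℤ) ∣ nx D z - v0) : rk n D v0 (nx D z) = rk n D v0 z + 1 := by
  classical
  have hn' : (0 : ℤ) < n := by exact_mod_cast hn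
  set g := (z - v0) / n with hg
  set m := (z - v0) % n with hm
  have h1 : z = v0 + m + n * g := by
    have := Int.emod_add_mul_ediv (z - v0) n
    rw [hg, hm]
    linarith
  have hm0 : 0 ≤ m := Int.emod_nonneg _ hn'.ne'
  have hmn : m < n := Int.emod_lt_of_pos _ hn'
  have h2 : nx D z ≤ v0 + n * (g + 1) := by
    apply nx_le hD hn hz
    · rw [h1]; linarith
    · rw [hD.mul]; exact hv
  have h3 : nx D z ≠ v0 + n * (g + 1) := by
    intro h
    apply hnd
    rw [h]
    exact ⟨g + 1, by ring⟩
  have h4 : nx D z < v0 + n * (g + 1) := lt_of_le_of_ne h2 h3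
  have h5 := nx_gt hD hn hz z
  have h6 : (nx D z - v0) % n = nx D z - v0 - n * g := by
    have e : nx D z - v0 = (nx D z - v0 - n * g) + n * g := by ring
    rw [e, Int.add_mul_emod_self_left]
    rw [Int.emod_eq_of_lt (by linarith) (by linarith)]
    ring
  unfold rk
  rw [h6, ← hm]
  have h7 : (Finset.range (nx D z - v0 - n * g).toNat).filter (fun t : ℕ => D (v0 + t)) =
      insert m.toNat ((Finset.range m.toNat).filter fun t : ℕ => D (v0 + t)) := by
    ext t
    rw [mem_insert, mem_filter, mem_filter, mem_range, mem_range]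
    constructor
    · rintro ⟨h8, h9⟩
      by_cases h10 : (t : ℤ) ≤ m
      · rcases eq_or_lt_of_le h10 with h11 | h11
        · left; omega
        · right
          exact ⟨by omega, h9⟩
      · exfalso
        push Not at h10
        have h11 : (t : ℤ) < nx D z - v0 - n * g := by omega
        apply nx_min hD hn hz (i := z) (w := v0 + t + n * g) (by linarith) (by linarith)
        rw [hD.mul]
        exact h9
    · rintro (h8 | ⟨h8, h9⟩)
      · rw [h8]
        refine ⟨by omega, ?_⟩
        rw [Int.toNat_of_nonneg hm0, ← hD.mul _ g, ← h1]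
        exact hz
      · exact ⟨by omega, h9⟩
  rw [h7, Finset.card_insert_of_notMem]
  rw [mem_filter, mem_range]
  omega

open Classical in
/-- Alternating recolouring of the classes `a` and `b`, starting at `v0`. -/
noncomputable def recol (n : ℕ) (c : ℤ → Fin k) (a b : Fin k) (v0 i : ℤ) : Fin k :=
  if DD c a b i then (if Even (rk n (DD c a b) v0 i) then a else b) else c i

section

variable {c : ℤ → Fin k} {a b : Fin k} {v0 : ℤ}

theorem recol_per (hc : ∀ i, c (i + n) = c i) (i : ℤ) :
    recol n c a b v0 (i + n) = recol n c a b v0 i := by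
  unfold recol
  rw [rk_per, hc]
  have h := DD_per hc a b i
  by_cases h1 : DD c a b i
  · rw [if_pos h1, if_pos (h.2 h1)]
  · rw [if_neg h1, if_neg (fun h2 => h1 (h.1 h2))]

theorem recol_of_not {i : ℤ} (h : ¬ DD c a b i) : recol n c a b v0 i = c i := by
  unfold recol
  rw [if_neg h]

theorem recol_mem {i : ℤ} (h : DD c a b i) :
    recol n c a b v0 i = a ∨ recol n c a b v0 i = b := by
  unfold recol
  rw [if_pos h]
  split_ifs
  · left; rfl
  · right; rfl

theorem recol_ne (hn : 0 < n) (hc : ∀ i, c (i + n) = c i) (hab : a ≠ b) (hv : DD c a b v0) {z : ℤ}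
    (hz : DD c a b z) (hnd : ¬ (n : ℤ) ∣ nx (DD c a b) z - v0) :
    recol n c a b v0 z ≠ recol n c a b v0 (nx (DD c a b) z) := by
  have hD := DD_per hc a b
  have h1 := nx_mem hD hn hz z
  have h2 := rk_succ hn hD hv hz hnd
  unfold recol
  rw [if_pos hz, if_pos h1, h2]
  by_cases h3 : Even (rk n (DD c a b) v0 z)
  · rw [if_pos h3, if_neg (by rw [Nat.even_add_one]; exact fun h => h h3)]
    exact hab
  · rw [if_neg h3, if_pos (by rw [Nat.even_add_one]; exact h3)]
    exact hab.symm

/-- Two consecutive elements with different colours keep different colours. -/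
theorem recol_ne' (hn : 0 < n) (hc : ∀ i, c (i + n) = c i) (hab : a ≠ b) (hv : DD c a b v0)
    (hm : c (pv (DD c a b) v0) = c v0) {z : ℤ}
    (hz : DD c a b z) (hne : c z ≠ c (nx (DD c a b) z)) :
    recol n c a b v0 z ≠ recol n c a b v0 (nx (DD c a b) z) := by
  have hD := DD_per hc a b
  apply recol_ne hn hc hab hv hz
  rintro ⟨g, hg⟩
  apply hne
  have h1 : nx (DD c a b) z = v0 + n * g := by linarith
  have h2 : z = pv (DD c a b) v0 + n * g := by
    rw [← pv_add hD hn hv v0 g, ← h1, pv_nx hD hn hv hz]
  rw [h1, c_mul hc, ← hm, h2, c_mul hc]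

/-- Between two elements with different colours there is a change of colour. -/
theorem change (hn : 0 < n) (hc : ∀ i, c (i + n) = c i) {i j : ℤ} (hij : i < j)
    (hi : DD c a b i) (hj : DD c a b j) (hne : c i ≠ c j) :
    ∃ z, i ≤ z ∧ nx (DD c a b) z ≤ j ∧ DD c a b z ∧ c z ≠ c (nx (DD c a b) z) := by
  have hD := DD_per hc a b
  set P : ℤ → Prop := fun w => DD c a b w ∧ c w ≠ c i with hPdef
  have hP : Per n P := by
    intro w
    simp only [hPdef]
    rw [hD w, hc]
  have hPj : P j := ⟨hj, hne.symm⟩
  have h1 := nx_mem hP hn hPj i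
  have h2 := nx_gt hP hn hPj i
  have h3 := nx_le hP hn hPj hij hPj
  set z' := nx P i with hz'
  have h4 : i ≤ pv (DD c a b) z' := le_pv hD hn hi h2 hi
  have h5 : nx (DD c a b) (pv (DD c a b) z') = z' := nx_pv hD hn hi h1.1
  have h6 : c (pv (DD c a b) z') = c i := by
    rcases eq_or_lt_of_le h4 with h | h
    · rw [← h]
    · by_contra hcon
      exact nx_min hP hn hPj h (pv_lt hD hn hi z') ⟨pv_mem hD hn hi z', hcon⟩
  refine ⟨pv (DD c a b) z', h4, ?_, pv_mem hD hn hi z', ?_⟩
  · rw [h5]; exact h3
  · rw [h5, h6]; exact fun h => h1.2 h.symm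

theorem recol_good (hn : 0 < n) (hc : ∀ i, c (i + n) = c i) (hab : a ≠ b) (hv : DD c a b v0)
    (hm : c (pv (DD c a b) v0) = c v0) (R : ℤ → ℤ → Prop)
    (hR : ∀ i i' j' j, i ≤ i' → i' ≤ j' → j' ≤ j → R i j → R i' j')
    (hg : ∀ i j, i < j → R i j → c i ≠ c j) :
    ∀ i j, i < j → R i j → recol n c a b v0 i ≠ recol n c a b v0 j := by
  intro i j hij hRij he
  have hD := DD_per hc a b
  by_cases hi : DD c a b i
  · by_cases hj : DD c a b j
    · -- both in `D`
      have h1 := nx_gt hD hn hi i
      have h2 := nx_le hD hn hi hij hj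
      rcases eq_or_lt_of_le h2 with h3 | h3
      · by_cases h4 : c i = c j
        · exact hg i j hij hRij h4
        · rw [← h3] at he h4
          exact recol_ne' hn hc hab hv hm hi h4 he
      · set w := nx (DD c a b) i with hw
        have hwD : DD c a b w := nx_mem hD hn hi i
        have g1 := hg i w h1 (hR i i w j le_rfl h1.le h3.le hRij)
        have g2 := hg w j h3 (hR i w j j h1.le h3.le le_rfl hRij)
        have g3 := hg i j hij hRij
        unfold DD at hi hj hwD
        rcases hi with hi | hi <;> rcases hj with hj | hj <;> rcases hwD with hw | hw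
        · exact g1 (hi.trans hw.symm)
        · exact g3 (hi.trans hj.symm)
        · exact g1 (hi.trans hw.symm)
        · exact g2 (hw.trans hj.symm)
        · exact g2 (hw.trans hj.symm)
        · exact g1 (hi.trans hw.symm)
        · exact g3 (hi.trans hj.symm)
        · exact g1 (hi.trans hw.symm)
    · rw [recol_of_not hj] at he
      apply hj
      rcases recol_mem (n := n) (v0 := v0) hi with h | h
      · left; rw [← he, h]
      · right; rw [← he, h]
  · rw [recol_of_not hi] at he
    by_cases hj : DD c a b j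
    · apply hi
      rcases recol_mem (n := n) (v0 := v0) hj with h | h
      · left; rw [he, h]
      · right; rw [he, h]
    · rw [recol_of_not hj] at he
      exact hg i j hij hRij he

/-- The number of colours different from `a, b` in a window does not change. -/
theorem win_out (x y : ℤ) :
    (((Finset.Ico x y).image c).filter fun e => ¬ (e = a ∨ e = b)) =
      (((Finset.Ico x y).image (recol n c a b v0)).filter fun e => ¬ (e = a ∨ e = b)) := by
  ext e
  rw [mem_filter, mem_filter, mem_image, mem_image]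
  constructor
  · rintro ⟨⟨i, hi, rfl⟩, h2⟩
    refine ⟨⟨i, hi, recol_of_not h2⟩, h2⟩
  · rintro ⟨⟨i, hi, hie⟩, h2⟩
    have h3 : ¬ DD c a b i := by
      intro h
      apply h2
      rw [← hie]
      exact recol_mem h
    refine ⟨⟨i, hi, ?_⟩, h2⟩
    rw [← hie, recol_of_not h3]

theorem pair_sub {T : Finset (Fin k)} :
    (T.filter fun e => e = a ∨ e = b) ⊆ {a, b} := by
  intro e he
  rw [mem_filter] at he
  rw [mem_insert, mem_singleton]
  exact he.2

theorem win_in_of_ne (hab : a ≠ b) {x y i j : ℤ} (hi : i ∈ Finset.Ico x y)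
    (hj : j ∈ Finset.Ico x y) (hiD : DD c a b i) (hjD : DD c a b j)
    (hne : recol n c a b v0 i ≠ recol n c a b v0 j) :
    (((Finset.Ico x y).image (recol n c a b v0)).filter fun e => (e = a ∨ e = b)).card = 2 := by
  have h1 : ({recol n c a b v0 i, recol n c a b v0 j} : Finset (Fin k)) ⊆
      (((Finset.Ico x y).image (recol n c a b v0)).filter fun e => (e = a ∨ e = b)) := by
    intro e he
    rw [mem_insert, mem_singleton] at he
    rw [mem_filter, mem_image]
    rcases he with rfl | rfl
    · exact ⟨⟨i, hi, rfl⟩, recol_mem hiD⟩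
    · exact ⟨⟨j, hj, rfl⟩, recol_mem hjD⟩
  have h2 := Finset.card_le_card h1
  rw [Finset.card_pair hne] at h2
  have h3 := Finset.card_le_card (pair_sub (a := a) (b := b)
    (T := (Finset.Ico x y).image (recol n c a b v0)))
  rw [Finset.card_pair hab] at h3
  omega

theorem win_le (hn : 0 < n) (hc : ∀ i, c (i + n) = c i) (hab : a ≠ b) (hv : DD c a b v0)
    (hm : c (pv (DD c a b) v0) = c v0) (x y : ℤ) :
    ((Finset.Ico x y).image c).card ≤ ((Finset.Ico x y).image (recol n c a b v0)).card := by
  rw [← card_filter_add_card_filter_not (s := (Finset.Ico x y).image c)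
    (fun e => (e = a ∨ e = b)),
    ← card_filter_add_card_filter_not (s := (Finset.Ico x y).image (recol n c a b v0))
    (fun e => (e = a ∨ e = b)), win_out (n := n) (v0 := v0) x y]
  apply Nat.add_le_add_right
  by_cases h1 : ∃ i ∈ Finset.Ico x y, ∃ j ∈ Finset.Ico x y, DD c a b i ∧ DD c a b j ∧ i < j ∧
      c i ≠ c j
  · obtain ⟨i, hi, j, hj, hiD, hjD, hij, hne⟩ := h1
    obtain ⟨z, hz1, hz2, hz3, hz4⟩ := change hn hc hij hiD hjD hne
    rw [mem_Ico] at hi hj
    have hD := DD_per hc a b
    have h5 := nx_gt hD hn hv z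
    rw [win_in_of_ne hab (i := z) (j := nx (DD c a b) z) (by rw [mem_Ico]; omega)
      (by rw [mem_Ico]; omega) hz3 (nx_mem hD hn hv z) (recol_ne' hn hc hab hv hm hz3 hz4)]
    have h3 := Finset.card_le_card (pair_sub (a := a) (b := b) (T := (Finset.Ico x y).image c))
    rw [Finset.card_pair hab] at h3
    exact h3
  · push Not at h1
    have h2 : ∀ i ∈ Finset.Ico x y, ∀ j ∈ Finset.Ico x y, DD c a b i → DD c a b j →
        c i = c j := by
      intro i hi j hj hiD hjD
      rcases lt_trichotomy i j with h | h | h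
      · exact h1 i hi j hj hiD hjD h
      · rw [h]
      · exact (h1 j hj i hi hjD hiD h).symm
    by_cases h3 : ∃ i ∈ Finset.Ico x y, DD c a b i
    · obtain ⟨i, hi, hiD⟩ := h3
      have h4 : ((Finset.Ico x y).image c).filter (fun e => (e = a ∨ e = b)) ⊆ {c i} := by
        intro e he
        rw [mem_filter, mem_image] at he
        obtain ⟨⟨j, hj, rfl⟩, hje⟩ := he
        rw [mem_singleton]
        exact h2 j hj i hi hje hiD
      have h5 : 0 < (((Finset.Ico x y).image (recol n c a b v0)).filter
          fun e => (e = a ∨ e = b)).card := by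
        rw [Finset.card_pos]
        refine ⟨recol n c a b v0 i, ?_⟩
        rw [mem_filter, mem_image]
        exact ⟨⟨i, hi, rfl⟩, recol_mem hiD⟩
      have h6 := Finset.card_le_card h4
      rw [Finset.card_singleton] at h6
      omega
    · push Not at h3
      have h4 : ((Finset.Ico x y).image c).filter (fun e => (e = a ∨ e = b)) = ∅ := by
        rw [Finset.filter_eq_empty_iff]
        intro e he
        rw [mem_image] at he
        obtain ⟨j, hj, rfl⟩ := he
        exact h3 j hj
      rw [h4, Finset.card_empty]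
      exact Nat.zero_le _

theorem win_lt (hn : 0 < n) (hc : ∀ i, c (i + n) = c i) (hab : a ≠ b) (hv : DD c a b v0)
    {u : ℤ} (hu : DD c a b u) (huu : c u = c (nx (DD c a b) u))
    (hnd : ¬ (n : ℤ) ∣ nx (DD c a b) u - v0) :
    ((Finset.Ico u (nx (DD c a b) u + 1)).image c).card <
      ((Finset.Ico u (nx (DD c a b) u + 1)).image (recol n c a b v0)).card := by
  have hD := DD_per hc a b
  have h5 := nx_gt hD hn hv u
  rw [← card_filter_add_card_filter_not (s := (Finset.Ico u (nx (DD c a b) u + 1)).image c)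
    (fun e => (e = a ∨ e = b)),
    ← card_filter_add_card_filter_not
    (s := (Finset.Ico u (nx (DD c a b) u + 1)).image (recol n c a b v0))
    (fun e => (e = a ∨ e = b)), win_out (n := n) (v0 := v0)]
  apply Nat.add_lt_add_right
  rw [win_in_of_ne hab (i := u) (j := nx (DD c a b) u) (by rw [mem_Ico]; omega)
      (by rw [mem_Ico]; omega) hu (nx_mem hD hn hv u) (recol_ne hn hc hab hv hu hnd)]
  have h4 : ((Finset.Ico u (nx (DD c a b) u + 1)).image c).filter (fun e => (e = a ∨ e = b)) ⊆
      {c u} := by
    intro e he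
    rw [mem_filter, mem_image] at he
    obtain ⟨⟨j, hj, rfl⟩, hje⟩ := he
    rw [mem_singleton]
    rw [mem_Ico] at hj
    rcases eq_or_lt_of_le hj.1 with h | h
    · rw [h]
    · rcases lt_or_eq_of_le (show j ≤ nx (DD c a b) u by omega) with h2 | h2
      · exact absurd hje (nx_min hD hn hv h h2)
      · rw [h2, huu]
  have h6 := Finset.card_le_card h4
  rw [Finset.card_singleton] at h6
  omega

end

/-- The potential: the total number of colours in the windows of length at most `n`. -/
noncomputable def Psi (n : ℕ) (c : ℤ → Fin k) : ℕ :=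
  ∑ x ∈ Finset.range n, ∑ l ∈ Finset.range (n + 1),
    ((Finset.Ico (x : ℤ) (x + l)).image c).card

theorem Psi_le (c : ℤ → Fin k) : Psi n c ≤ n * ((n + 1) * k) := by
  unfold Psi
  calc _ ≤ ∑ x ∈ Finset.range n, ∑ l ∈ Finset.range (n + 1), k := by
        apply Finset.sum_le_sum
        intro x _
        apply Finset.sum_le_sum
        intro l _
        refine (Finset.card_le_univ _).trans ?_
        rw [Fintype.card_fin]
    _ = _ := by simp

theorem win_shift {c : ℤ → Fin k} (hc : ∀ i, c (i + n) = c i) (x y g : ℤ) :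
    (Finset.Ico (x + n * g) (y + n * g)).image c = (Finset.Ico x y).image c := by
  ext e
  rw [mem_image, mem_image]
  constructor
  · rintro ⟨i, hi, rfl⟩
    rw [mem_Ico] at hi
    refine ⟨i - n * g, by rw [mem_Ico]; omega, ?_⟩
    rw [← c_mul hc (i - n * g) g]
    congr 1
    ring
  · rintro ⟨i, hi, rfl⟩
    rw [mem_Ico] at hi
    exact ⟨i + n * g, by rw [mem_Ico]; omega, c_mul hc i g⟩

theorem Psi_lt (hn : 0 < n) {c c' : ℤ → Fin k} (hc : ∀ i, c (i + n) = c i)
    (hc' : ∀ i, c' (i + n) = c' i)
    (hle : ∀ x y, ((Finset.Ico x y).image c).card ≤ ((Finset.Ico x y).image c').card)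
    {u v : ℤ} (huv : u ≤ v) (hvu : v - u ≤ n)
    (hlt : ((Finset.Ico u v).image c).card < ((Finset.Ico u v).image c').card) :
    Psi n c < Psi n c' := by
  have hn' : (0 : ℤ) < n := by exact_mod_cast hn
  have h1 := Int.emod_nonneg u hn'.ne'
  have h2 := Int.emod_lt_of_pos u hn'
  have h3 := Int.emod_add_mul_ediv u n
  unfold Psi
  apply Finset.sum_lt_sum
  · intro x _
    exact Finset.sum_le_sum (fun l _ => hle _ _)
  · refine ⟨(u % n).toNat, ?_, ?_⟩
    · rw [mem_range]; omega
    · apply Finset.sum_lt_sum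
      · intro l _
        exact hle _ _
      · refine ⟨(v - u).toNat, ?_, ?_⟩
        · rw [mem_range]; omega
        · rw [Int.toNat_of_nonneg h1, Int.toNat_of_nonneg (by omega)]
          rw [← win_shift hc _ _ (u / n), ← win_shift hc' _ _ (u / n)]
          have e1 : u % n + n * (u / n) = u := h3
          have e2 : u % n + (v - u) + n * (u / n) = v := by linarith
          rw [e1, e2]
          exact hlt

/-- An extremal colouring: two monochromatic steps in the union of two classes are equal modulo
the period. -/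
theorem extremal (hn : 0 < n) (R : ℤ → ℤ → Prop)
    (hR : ∀ i i' j' j, i ≤ i' → i' ≤ j' → j' ≤ j → R i j → R i' j')
    (h : ∃ c : ℤ → Fin k, (∀ i, c (i + n) = c i) ∧ ∀ i j, i < j → R i j → c i ≠ c j) :
    ∃ c : ℤ → Fin k, (∀ i, c (i + n) = c i) ∧ (∀ i j, i < j → R i j → c i ≠ c j) ∧
      ∀ a b, a ≠ b → ∀ u v, DD c a b u → DD c a b v → c u = c (nx (DD c a b) u) →
        c v = c (nx (DD c a b) v) → (n : ℤ) ∣ nx (DD c a b) u - nx (DD c a b) v := by
  classical
  -- choose a colouring of largest potential
  have hex : ∃ m, ∃ c : ℤ → Fin k, ((∀ i, c (i + n) = c i) ∧ ∀ i j, i < j → R i j → c i ≠ c j) ∧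
      n * ((n + 1) * k) - Psi n c = m := by
    obtain ⟨c, hc⟩ := h
    exact ⟨_, c, hc, rfl⟩
  obtain ⟨c, ⟨hc, hg⟩, hm⟩ := Nat.find_spec hex
  have hmin : ∀ c' : ℤ → Fin k, (∀ i, c' (i + n) = c' i) →
      (∀ i j, i < j → R i j → c' i ≠ c' j) → Psi n c' ≤ Psi n c := by
    intro c' hc' hg'
    have h1 := Nat.find_min' hex ⟨c', ⟨hc', hg'⟩, rfl⟩
    have h2 := Psi_le (n := n) c
    have h3 := Psi_le (n := n) c'
    omega
  refine ⟨c, hc, hg, ?_⟩
  intro a b hab u v hu hv huu hvv
  by_contra hnd
  have hD := DD_per hc a b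
  set v0 := nx (DD c a b) v with hv0
  have hv0D : DD c a b v0 := nx_mem hD hn hv v
  have hm0 : c (pv (DD c a b) v0) = c v0 := by
    rw [hv0, pv_nx hD hn hv hv]
    exact hvv
  have h1 := Psi_lt hn hc (recol_per (n := n) (a := a) (b := b) (v0 := v0) hc)
    (win_le hn hc hab hv0D hm0) (u := u) (v := nx (DD c a b) u + 1)
    (by have := nx_gt hD hn hu u; omega)
    (by
      have h2 : nx (DD c a b) u ≤ u + n := by
        apply nx_le hD hn hu
        · have : (0 : ℤ) < n := by exact_mod_cast hn
          linarith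
        · rw [hD]; exact hu
      rcases lt_or_eq_of_le h2 with h3 | h3
      · omega
      · exfalso
        -- there is an element of `D` congruent to `v0` between
        have hn' : (0 : ℤ) < n := by exact_mod_cast hn
        have h4 := Int.emod_nonneg (v0 - u) hn'.ne'
        have h5 := Int.emod_lt_of_pos (v0 - u) hn'
        have h6 := Int.emod_add_mul_ediv (v0 - u) n
        have h7 : (v0 - u) % n ≠ 0 := by
          intro h8
          apply hnd
          rw [h3]
          have h9 : (n : ℤ) ∣ v0 - u := Int.dvd_of_emod_eq_zero h8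
          obtain ⟨g, hg⟩ := h9
          exact ⟨1 - g, by linarith⟩
        apply nx_min hD hn hu (i := u) (w := u + (v0 - u) % n) (by omega) (by omega)
        have e : u + (v0 - u) % n = v0 + n * (-((v0 - u) / n)) := by linarith
        rw [e, hD.mul]
        exact hv0D)
    (win_lt hn hc hab hv0D hu huu hnd)
  have h2 := hmin _ (recol_per (n := n) (a := a) (b := b) (v0 := v0) hc)
    (recol_good hn hc hab hv0D hm0 R hR hg)
  omega

end Run7.h349
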