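import Pool.Agent.Run7.h349.Rec

set_option autoImplicit false
set_option linter.unusedSectionVars false

/-!
# The structure of an extremal periodic colouring
-/

namespace Run7.h349

open Finset

variable {n k : ℕ}

/-- The size of a colour class modulo the period. -/
noncomputable def ss (n : ℕ) (c : ℤ → Fin k) (j : Fin k) : ℕ := cnt n (fun i => c i = j)

/-- The extremality condition. -/
def Ext (n : ℕ) (c : ℤ → Fin k) : Prop :=
  ∀ a b, a ≠ b → ∀ u v, DD c a b u → DD c a b v → c u = c (nx (DD c a b) u) →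
        c v = c (nx (DD c a b) v) → (n : ℤ) ∣ nx (DD c a b) u - nx (DD c a b) v

section

variable {c : ℤ → Fin k} (hn : 0 < n) (hc : ∀ i, c (i + n) = c i) (hE : Ext n c)
include hn hc hE

theorem class_nonempty (hk : k ≤ n) (j : Fin k) : ∃ i, c i = j := by
  by_contra hcon
  push Not at hcon
  have h1 : ∃ t ∈ Finset.range n, ∃ t' ∈ Finset.range n, t ≠ t' ∧ c (t : ℤ) = c (t' : ℤ) := by
    apply Finset.exists_ne_map_eq_of_card_lt_of_maps_to (t := univ.erase j)
    · rw [Finset.card_erase_of_mem (mem_univ j), Finset.card_univ, Fintype.card_fin,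
        Finset.card_range]
      have := j.isLt
      omega
    · intro t _
      exact Finset.mem_coe.2 (Finset.mem_erase.2 ⟨hcon _, mem_univ _⟩)
  obtain ⟨t, ht, t', ht', hne, he⟩ := h1
  have hab : c (t : ℤ) ≠ j := hcon _
  have hD := DD_per hc (c (t : ℤ)) j
  have htD : DD c (c (t : ℤ)) j t := Or.inl rfl
  have htD' : DD c (c (t : ℤ)) j t' := Or.inl he.symm
  have key : ∀ x : ℤ, DD c (c (t : ℤ)) j x → c x = c (t : ℤ) := by
    intro x hx
    rcases hx with h | h
    · exact h
    · exact absurd h (hcon x)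
  have h2 := hE _ _ hab (pv (DD c (c (t : ℤ)) j) t) (pv (DD c (c (t : ℤ)) j) t')
    (pv_mem hD hn htD _) (pv_mem hD hn htD _)
    (by rw [key _ (pv_mem hD hn htD _), key _ (nx_mem hD hn htD _)])
    (by rw [key _ (pv_mem hD hn htD _), key _ (nx_mem hD hn htD _)])
  rw [nx_pv hD hn htD htD, nx_pv hD hn htD htD'] at h2
  obtain ⟨g, hg⟩ := h2
  rw [mem_range] at ht ht'
  have hn' : (0 : ℤ) < n := by exact_mod_cast hn
  have h3 : (t : ℤ) < n := by exact_mod_cast ht
  have h4 : (t' : ℤ) < n := by exact_mod_cast ht'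
  have h5 : g < 1 := by
    by_contra h
    push Not at h
    nlinarith
  have h6 : -1 < g := by
    by_contra h
    push Not at h
    nlinarith
  have h7 : g = 0 := by omega
  rw [h7] at hg
  apply hne
  have : (t : ℤ) = t' := by linarith
  exact_mod_cast this

theorem mc {a b : Fin k} (hab : a ≠ b) (hs : ss n c b ≤ ss n c a) {u : ℤ} (hu : c u = b) :
    c (nx (DD c a b) u) = a := by
  have hD := DD_per hc a b
  have huD : DD c a b u := Or.inr hu
  by_contra hcon
  have h1 : c (nx (DD c a b) u) = b := by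
    rcases nx_mem hD hn huD u with h | h
    · exact absurd h hcon
    · exact h
  have hmap : ∀ x, c x = a → c (nx (DD c a b) x) = b := by
    intro x hx
    rcases nx_mem hD hn huD x with h | h
    · exfalso
      have h2 := hE a b hab x u (Or.inl hx) huD (by rw [hx, h]) (by rw [hu, h1])
      have h3 := c_dvd hc h2
      rw [h, h1] at h3
      exact hab h3
    · exact h
  have h4 := cnt_surj hn (cl_per hc a) (cl_per hc b) (nx (DD c a b)) hmap
    (fun i hi => by
      have := nx_add hD hn huD i 1
      simpa using this)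
    (fun i j hi hj he => by
      rw [← pv_nx hD hn huD (i := i) (Or.inl hi), he, pv_nx hD hn huD (i := j) (Or.inl hj)])
    hs (nx (DD c a b) u) h1
  obtain ⟨i, hi, hie⟩ := h4
  have h5 : i = u := by
    rw [← pv_nx hD hn huD (i := i) (Or.inl hi), hie, pv_nx hD hn huD (i := u) huD]
  rw [h5, hu] at hi
  exact hab hi.symm

theorem mc_pv {a b : Fin k} (hab : a ≠ b) (hs : ss n c b ≤ ss n c a) {u : ℤ} (hu : c u = b) :
    c (pv (DD c a b) u) = a := by
  have hD := DD_per hc a b
  have huD : DD c a b u := Or.inr hu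
  rcases pv_mem hD hn huD u with h | h
  · exact h
  · exfalso
    have h1 := mc hn hc hE hab hs h
    rw [nx_pv hD hn huD huD, hu] at h1
    exact hab h1.symm

theorem ss_le_succ (a b : Fin k) (hane : ∃ i, c i = a) : ss n c a ≤ ss n c b + 1 := by
  by_cases hab : a = b
  · rw [hab]; omega
  by_contra hcon
  push Not at hcon
  obtain ⟨i0, hi0⟩ := hane
  have hD := DD_per hc a b
  have huD : DD c a b i0 := Or.inl hi0
  have hadd : ∀ i, nx (DD c a b) (i + n) = nx (DD c a b) i + n := by
    intro i
    have := nx_add hD hn huD i 1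
    simpa using this
  have hinj : ∀ i j, c i = a → c j = a → nx (DD c a b) i = nx (DD c a b) j → i = j := by
    intro i j hi hj he
    rw [← pv_nx hD hn huD (i := i) (Or.inl hi), he, pv_nx hD hn huD (i := j) (Or.inl hj)]
  have h1 : ∃ x0, c x0 = a ∧ c (nx (DD c a b) x0) = a := by
    by_contra hno
    push Not at hno
    have h2 : cnt n (fun i => c i = a) ≤ cnt n (fun i => c i = b) :=
      cnt_le hn (cl_per hc a) (cl_per hc b) (nx (DD c a b))
      (fun x hx => by
        rcases nx_mem hD hn huD x with h | h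
        · exact absurd h (hno x hx)
        · exact h) (fun i _ => hadd i) hinj
    unfold ss at hcon
    omega
  obtain ⟨x0, hx0, hx1⟩ := h1
  have h3 := cnt_erase hn (cl_per hc a) hx0
  have hP : Per n (fun i => c i = a ∧ ¬ (n : ℤ) ∣ i - x0) := by
    intro i
    change (c (i + n) = a ∧ ¬ (n : ℤ) ∣ i + n - x0) ↔ (c i = a ∧ ¬ (n : ℤ) ∣ i - x0)
    rw [hc]
    have e : i + (n : ℤ) - x0 = (i - x0) + n := by ring
    rw [e, dvd_add_self_right]
  have h4 : cnt n (fun i => c i = a ∧ ¬ (n : ℤ) ∣ i - x0) ≤ cnt n (fun i => c i = b) :=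
    cnt_le hn hP (cl_per hc b) (nx (DD c a b))
      (fun x hx => by
        rcases nx_mem hD hn huD x with h | h
        · exfalso
          have h5 := hE a b hab x x0 (Or.inl hx.1) (Or.inl hx0) (by rw [hx.1, h])
            (by rw [hx0, hx1])
          obtain ⟨g, hg⟩ := h5
          have h6 : nx (DD c a b) x = nx (DD c a b) (x0 + n * g) := by
            rw [nx_add hD hn huD]
            linarith
          have h7 := hinj _ _ hx.1 (by rw [c_mul hc]; exact hx0) h6
          exact hx.2 ⟨g, by linarith⟩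
        · exact h) (fun i _ => hadd i) (fun i j hi hj he => hinj i j hi.1 hj.1 he)
  unfold ss at hcon
  omega

theorem gap {i0 j : Fin k} (hij : i0 ≠ j) (hs : ss n c i0 ≤ ss n c j) {u : ℤ} (hu : c u = i0) :
    ∃ w, u < w ∧ w < nx (fun i => c i = i0) u ∧ c w = j := by
  have hD := DD_per hc j i0
  have huD : DD c j i0 u := Or.inr hu
  have h1 := mc hn hc hE hij.symm hs hu
  refine ⟨nx (DD c j i0) u, nx_gt hD hn huD u, ?_, h1⟩
  have h2 : nx (DD c j i0) u ≤ nx (fun i => c i = i0) u := by
    apply nx_le hD hn huD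
    · exact nx_gt (cl_per hc i0) hn (i0 := u) hu u
    · right
      exact nx_mem (cl_per hc i0) hn (i0 := u) hu u
  rcases lt_or_eq_of_le h2 with h3 | h3
  · exact h3
  · exfalso
    rw [h3] at h1
    have h4 : c (nx (fun i => c i = i0) u) = i0 := nx_mem (cl_per hc i0) hn (i0 := u) hu u
    rw [h4] at h1
    exact hij h1

/-- The independence condition for a periodic set in the auxiliary graph. -/
def Ind (c : ℤ → Fin k) (P : ℤ → Prop) : Prop :=
  ∀ u v, u < v → P u → P v → c u ≠ c v → ∃ w, u < w ∧ w < v ∧ (c w = c u ∨ c w = c v)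

theorem step {P : ℤ → Prop} (hI : Ind c P) {j : Fin k} (hj : ∀ i, P i → ss n c (c i) ≤ ss n c j)
    {u v : ℤ} (huv : u < v) (hu : P u) (hv : P v) : ∃ w, u < w ∧ w ≤ v ∧ c w = j := by
  -- a helper: between an element and the next one of the same colour
  have help : ∀ x y, x < y → c x = c y → ss n c (c x) ≤ ss n c j →
      ∃ w, x < w ∧ w ≤ y ∧ c w = j := by
    intro x y hxy he hs
    have h1 : nx (fun i => c i = c x) x ≤ y :=
      nx_le (cl_per hc (c x)) hn (i0 := x) rfl hxy he.symm
    by_cases hxj : c x = j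
    · exact ⟨nx (fun i => c i = c x) x, nx_gt (cl_per hc (c x)) hn (i0 := x) rfl x, h1, by
        rw [← hxj]
        exact nx_mem (cl_per hc (c x)) hn (i0 := x) rfl x⟩
    · obtain ⟨w, hw1, hw2, hw3⟩ := gap hn hc hE hxj hs rfl
      exact ⟨w, hw1, by omega, hw3⟩
  by_cases he : c u = c v
  · exact help u v huv he (hj u hu)
  · obtain ⟨w, hw1, hw2, hw3⟩ := hI u v huv hu hv he
    rcases hw3 with h | h
    · obtain ⟨w', h1, h2, h3⟩ := help u w hw1 h.symm (hj u hu)
      exact ⟨w', h1, by omega, h3⟩
    · obtain ⟨w', h1, h2, h3⟩ := help w v hw2 h (by rw [h]; exact hj v hv)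
      exact ⟨w', by omega, h2, h3⟩

/-- The last element of colour `j` up to `v`. -/
noncomputable def lst (c : ℤ → Fin k) (j : Fin k) (v : ℤ) : ℤ := pv (fun i => c i = j) (v + 1)

omit hE in
theorem lst_inj {P : ℤ → Prop} {j : Fin k} (hjne : ∃ i, c i = j)
    (hst : ∀ u v, u < v → P u → P v → ∃ w, u < w ∧ w ≤ v ∧ c w = j) :
    ∀ u v, P u → P v → lst c j u = lst c j v → u = v := by
  obtain ⟨i0, hi0⟩ := hjne
  have key : ∀ u v, u < v → P u → P v → lst c j u < lst c j v := by
    intro u v huv hu hv
    obtain ⟨w, h1, h2, h3⟩ := hst u v huv hu hv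
    have h4 : w ≤ lst c j v := le_pv (cl_per hc j) hn (i0 := i0) hi0 (by omega) h3
    have h5 : lst c j u < u + 1 := pv_lt (cl_per hc j) hn (i0 := i0) hi0 (u + 1)
    omega
  intro u v hu hv he
  rcases lt_trichotomy u v with h | h | h
  · have := key u v h hu hv
    omega
  · exact h
  · have := key v u h hv hu
    omega

omit hE in
theorem lst_add {j : Fin k} (hjne : ∃ i, c i = j) (v : ℤ) : lst c j (v + n) = lst c j v + n := by
  obtain ⟨i0, hi0⟩ := hjne
  unfold lst
  have := pv_add (cl_per hc j) hn (i0 := i0) hi0 (v + 1) 1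
  rw [mul_one] at this
  rw [← this]
  congr 1
  ring

theorem cnt_ind_le {P : ℤ → Prop} (hP : Per n P) (hI : Ind c P) {j : Fin k}
    (hjne : ∃ i, c i = j) (hj : ∀ i, P i → ss n c (c i) ≤ ss n c j) : cnt n P ≤ ss n c j := by
  have hst : ∀ u v, u < v → P u → P v → ∃ w, u < w ∧ w ≤ v ∧ c w = j :=
    fun u v huv hu hv => step hn hc hE hI hj huv hu hv
  have hjne' := hjne
  obtain ⟨i0, hi0⟩ := hjne'
  exact cnt_le hn hP (cl_per hc j) (lst c j)
    (fun i _ => pv_mem (cl_per hc j) hn (i0 := i0) hi0 _)
    (fun i _ => lst_add hn hc hjne i) (lst_inj hn hc hjne hst)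

theorem ind_eq {P : ℤ → Prop} (hP : Per n P) (hI : Ind c P) {j : Fin k}
    (hj : ∀ i, P i → ss n c (c i) ≤ ss n c j) {v : ℤ} (hv : P v) (hvj : c v = j)
    (hle : ss n c j ≤ cnt n P) : ∀ i, P i ↔ c i = j := by
  have hjne : ∃ i, c i = j := ⟨v, hvj⟩
  have hst : ∀ u v, u < v → P u → P v → ∃ w, u < w ∧ w ≤ v ∧ c w = j :=
    fun u v huv hu hv => step hn hc hE hI hj huv hu hv
  have hCj := cl_per hc j
  have hvj' : (fun i => c i = j) v := hvj
  have hsur := cnt_surj hn hP hCj (lst c j)
    (fun i _ => pv_mem hCj hn hvj' _)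
    (fun i _ => lst_add hn hc hjne i) (lst_inj hn hc hjne hst) hle
  -- the previous element of colour `j` also lies in `P`
  have hprev : ∀ v, P v → c v = j → P (pv (fun i => c i = j) v) := by
    intro v hv hvj
    set x := pv (fun i => c i = j) v with hx
    have hxj : c x = j := pv_mem hCj hn hvj' v
    have hxv : x < v := pv_lt hCj hn hvj' v
    obtain ⟨u, hu, hul⟩ := hsur x hxj
    have h1 : x < u + 1 := by
      rw [← hul]
      exact pv_lt hCj hn hvj' (u + 1)
    have h2 : u < v := by
      by_contra h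
      push Not at h
      have h3 : v ≤ lst c j u := le_pv hCj hn hvj' (by omega) hvj
      omega
    rcases eq_or_lt_of_le (show x ≤ u by omega) with h3 | h3
    · rw [h3]; exact hu
    · exfalso
      have h4 : c u ≠ j := fun h => pv_min hCj hn hvj' (i := v) h3 h2 h
      obtain ⟨w, hw1, hw2, hw3⟩ := hI u v h2 hu hv (by rw [hvj]; exact h4)
      rcases hw3 with h | h
      · obtain ⟨w', h5, h6, h7⟩ := gap hn hc hE h4 (hj u hu) rfl
        have h8 : nx (fun i => c i = c u) u ≤ w :=
          nx_le (cl_per hc (c u)) hn (i0 := u) rfl hw1 h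
        exact pv_min hCj hn hvj' (i := v) (w := w') (by omega) (by omega) h7
      · rw [hvj] at h
        exact pv_min hCj hn hvj' (i := v) (w := w) (by omega) (by omega) h
  have hall : ∀ m : ℕ, ∀ v y, P v → c v = j → c y = j → y ≤ v → v - y ≤ m → P y := by
    intro m
    induction m with
    | zero =>
      intro v y hv _ _ h1 h2
      have : y = v := by
        have : v - y ≤ 0 := by exact_mod_cast h2
        omega
      rw [this]; exact hv
    | succ m ih =>
      intro v y hv hvj hy h1 h2
      rcases eq_or_lt_of_le h1 with h3 | h3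
      · rw [h3]; exact hv
      · apply ih (pv (fun i => c i = j) v) y (hprev v hv hvj)
          (pv_mem hCj hn hvj' v) hy (le_pv hCj hn hvj' h3 hy)
        have h4 := pv_lt hCj hn hvj' v
        push_cast at h2
        omega
  have hsub : ∀ y, c y = j → P y := by
    intro y hy
    have hn' : (1 : ℤ) ≤ n := by exact_mod_cast hn
    set g := |y - v| with hg
    have h1 : y ≤ v + n * g := by
      have h2 := le_abs_self (y - v)
      have h3 : |y - v| ≤ n * |y - v| := by
        have := abs_nonneg (y - v)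
        nlinarith
      rw [← hg] at h2 h3
      linarith
    apply hall (v + n * g - y).toNat (v + n * g) y ((hP.mul v g).2 hv)
      (by rw [c_mul hc]; exact hvj) hy h1
    rw [Int.toNat_of_nonneg (by omega)]
  intro i
  refine ⟨fun hi => ?_, hsub i⟩
  have h1 := cnt_surj hn hCj hP id (fun i hi => hsub i hi) (fun i _ => rfl)
    (fun i j _ _ h => h) (cnt_ind_le hn hc hE hP hI hjne hj) i hi
  obtain ⟨i', h2, h3⟩ := h1
  rw [← h3]
  exact h2

omit hE in
theorem sum_ss : ∑ j, ss n c j = n := by
  classical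
  unfold ss cnt
  have h1 := Finset.card_eq_sum_card_fiberwise (s := Finset.range n) (t := (univ : Finset (Fin k)))
    (f := fun t : ℕ => c (t : ℤ)) (fun _ _ => Finset.mem_coe.2 (Finset.mem_univ _))
  rw [Finset.card_range] at h1
  refine Eq.trans ?_ h1.symm
  apply Finset.sum_congr rfl
  intro j _
  congr 1
  ext t
  simp only [mem_filter]

/-- The classes of every colouring of the auxiliary graph are the classes of `c`. -/
theorem classes_eq (hk : k ≤ n) (hk0 : 0 < k) (c' : ℤ → Fin k) (hc' : ∀ i, c' (i + n) = c' i)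
    (hI : ∀ x, Ind c (fun i => c' i = x)) : ∀ x, ∃ j, ∀ i, c' i = x ↔ c i = j := by
  classical
  have hne : ∀ j, ∃ i, c i = j := class_nonempty hn hc hE hk
  have : Nonempty (Fin k) := ⟨⟨0, hk0⟩⟩
  obtain ⟨j0, hj0⟩ : ∃ j0, ∀ j, ss n c j ≤ ss n c j0 := by
    obtain ⟨j0, _, h⟩ := Finset.exists_max_image (univ : Finset (Fin k)) (ss n c) univ_nonempty
    exact ⟨j0, fun j => h j (mem_univ j)⟩
  set q := ss n c j0 with hq
  have hq1 : ∀ j, q ≤ ss n c j + 1 := fun j => ss_le_succ hn hc hE j0 j (hne j0)
  have hq0 : 0 < q := by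
    obtain ⟨i, hi⟩ := hne j0
    exact cnt_pos (cl_per hc j0) hn (i0 := i) hi
  have hP : ∀ x, Per n (fun i => c' i = x) := fun x => cl_per hc' x
  have h1 : ∀ x, ss n c' x ≤ q := fun x =>
    cnt_ind_le hn hc hE (hP x) (hI x) (hne j0) (fun i _ => hj0 _)
  have h2 : ∀ x, ss n c' x = q → ∃ j, ss n c j = q ∧ ∀ i, c' i = x ↔ c i = j := by
    intro x hx
    by_cases h3 : ∃ v, c' v = x ∧ ss n c (c v) = q
    · obtain ⟨v, hv, hvq⟩ := h3
      refine ⟨c v, hvq, ?_⟩
      exact ind_eq hn hc hE (hP x) (hI x) (j := c v) (fun i _ => by rw [hvq]; exact hj0 _)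
        (v := v) hv rfl (by rw [hvq, ← hx]; exact le_rfl)
    · push Not at h3
      exfalso
      obtain ⟨v, hv⟩ : ∃ v, c' v = x := exists_of_cnt_pos (n := n) (by
        have : 0 < ss n c' x := by omega
        exact this)
      have h4 : ∀ i, c' i = x → ss n c (c i) + 1 = q := by
        intro i hi
        have := h3 i hi
        have := hj0 (c i)
        have := hq1 (c i)
        omega
      have h5 := cnt_ind_le hn hc hE (hP x) (hI x) (j := c v) ⟨v, rfl⟩
        (fun i hi => by have := h4 i hi; have := h4 v hv; omega)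
      have h6 := h4 v hv
      have h7 : cnt n (fun i => c' i = x) = ss n c' x := rfl
      omega
  -- counting
  set A : Finset (Fin k) := univ.filter (fun j => ss n c j = q) with hA
  set X : Finset (Fin k) := univ.filter (fun x => ss n c' x = q) with hX
  have h3 : ∀ x ∈ X, ∃ j, ss n c j = q ∧ ∀ i, c' i = x ↔ c i = j :=
    fun x hx => h2 x (mem_filter.1 hx).2
  choose! f hf1 hf2 using h3
  have hfinj : Set.InjOn f (X : Set (Fin k)) := by
    intro x hx y hy hxy
    obtain ⟨i, hi⟩ := hne (f x)
    have h4 := (hf2 x hx i).2 hi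
    have h5 := (hf2 y hy i).2 (by rw [← hxy]; exact hi)
    rw [← h4, ← h5]
  have hfmaps : ∀ x ∈ X, f x ∈ A := fun x hx => mem_filter.2 ⟨mem_univ _, hf1 x hx⟩
  have h4 : X.card ≤ A.card := Finset.card_le_card_of_injOn f hfmaps hfinj
  have hs1 : ∑ x, (q - ss n c' x) = ∑ j, (q - ss n c j) := by
    have e1 : ∑ x, (q - ss n c' x) + ∑ x, ss n c' x = ∑ x : Fin k, q := by
      rw [← Finset.sum_add_distrib]
      apply Finset.sum_congr rfl
      intro x _
      have := h1 x
      omega
    have e2 : ∑ j, (q - ss n c j) + ∑ j, ss n c j = ∑ j : Fin k, q := by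
      rw [← Finset.sum_add_distrib]
      apply Finset.sum_congr rfl
      intro x _
      have := hj0 x
      omega
    rw [sum_ss hn hc'] at e1
    rw [sum_ss hn hc] at e2
    omega
  have hs2 : ∑ j, (q - ss n c j) = (univ \ A).card := by
    rw [← Finset.sum_sdiff (Finset.subset_univ A), Finset.card_eq_sum_ones]
    have e1 : ∑ j ∈ A, (q - ss n c j) = 0 := by
      apply Finset.sum_eq_zero
      intro j hj
      rw [(mem_filter.1 hj).2]
      omega
    rw [e1, add_zero]
    apply Finset.sum_congr rfl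
    intro j hj
    rw [mem_sdiff] at hj
    have h5 : ss n c j ≠ q := fun h => hj.2 (mem_filter.2 ⟨mem_univ _, h⟩)
    have := hj0 j
    have := hq1 j
    omega
  have hs3 : ∑ x ∈ univ \ X, (q - ss n c' x) = (univ \ A).card := by
    rw [← hs2, ← hs1, ← Finset.sum_sdiff (Finset.subset_univ X)]
    have e1 : ∑ j ∈ X, (q - ss n c' j) = 0 := by
      apply Finset.sum_eq_zero
      intro j hj
      rw [(mem_filter.1 hj).2]
      omega
    rw [e1, add_zero]
  have hs4 : ∀ x ∈ univ \ X, 1 ≤ q - ss n c' x := by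
    intro x hx
    rw [mem_sdiff] at hx
    have h5 : ss n c' x ≠ q := fun h => hx.2 (mem_filter.2 ⟨mem_univ _, h⟩)
    have := h1 x
    omega
  have hcX : (univ \ X).card = k - X.card := by
    rw [Finset.card_sdiff_of_subset (Finset.subset_univ X), Finset.card_univ, Fintype.card_fin]
  have hcA : (univ \ A).card = k - A.card := by
    rw [Finset.card_sdiff_of_subset (Finset.subset_univ A), Finset.card_univ, Fintype.card_fin]
  have hXk : X.card ≤ k := by
    have := Finset.card_le_univ X
    rwa [Fintype.card_fin] at this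
  have hAk : A.card ≤ k := by
    have := Finset.card_le_univ A
    rwa [Fintype.card_fin] at this
  have hs5 : (univ \ X).card ≤ (univ \ A).card := by
    rw [← hs3, Finset.card_eq_sum_ones]
    exact Finset.sum_le_sum hs4
  have hXA : X.card = A.card := by omega
  have hs6 : ∀ x ∈ univ \ X, q - ss n c' x = 1 := by
    have e : ∑ x ∈ univ \ X, (q - ss n c' x) = ∑ x ∈ univ \ X, 1 := by
      rw [hs3, ← Finset.card_eq_sum_ones, hcA, hcX, hXA]
    have h5 := (Finset.sum_eq_sum_iff_of_le (fun x hx => hs4 x hx)).1 e.symm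
    intro x hx
    exact (h5 x hx).symm
  have hfsurj : ∀ j ∈ A, ∃ x ∈ X, f x = j := by
    have himg : X.image f = A := by
      apply Finset.eq_of_subset_of_card_le
      · intro j hj
        obtain ⟨x, hx, rfl⟩ := Finset.mem_image.1 hj
        exact hfmaps x hx
      · rw [Finset.card_image_of_injOn hfinj, hXA]
    intro j hj
    rw [← himg] at hj
    obtain ⟨x, hx, hxj⟩ := Finset.mem_image.1 hj
    exact ⟨x, hx, hxj⟩
  intro x
  by_cases hx : x ∈ X
  · exact ⟨f x, hf2 x hx⟩
  · have hx' : x ∈ univ \ X := mem_sdiff.2 ⟨mem_univ _, hx⟩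
    have h5 := hs6 x hx'
    have h6 : ∀ v, c' v = x → ss n c (c v) + 1 = q := by
      intro v hv
      have h7 : ss n c (c v) ≠ q := by
        intro h
        obtain ⟨y, hy, hyj⟩ := hfsurj (c v) (mem_filter.2 ⟨mem_univ _, h⟩)
        have h8 := (hf2 y hy v).2 hyj.symm
        rw [hv] at h8
        exact hx (h8 ▸ hy)
      have := hj0 (c v)
      have := hq1 (c v)
      omega
    by_cases hq2 : 1 < q
    · obtain ⟨v, hv⟩ : ∃ v, c' v = x := exists_of_cnt_pos (n := n) (by
        have : 0 < ss n c' x := by omega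
        exact this)
      refine ⟨c v, ?_⟩
      exact ind_eq hn hc hE (hP x) (hI x) (j := c v)
        (fun i hi => by have := h6 i hi; have := h6 v hv; omega)
        (v := v) hv rfl (by
          have := h6 v hv
          have h9 : cnt n (fun i => c' i = x) = ss n c' x := rfl
          omega)
    · exfalso
      -- all classes have size one
      have h7 : ∀ j, ss n c j = q := by
        intro j
        obtain ⟨i, hi⟩ := hne j
        have h8 : 0 < ss n c j := cnt_pos (cl_per hc j) hn (i0 := i) hi
        have := hj0 j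
        omega
      have h8 : A = univ := by
        rw [hA]
        exact Finset.filter_true_of_mem (fun j _ => h7 j)
      have h9 : X.card = k := by rw [hXA, h8, Finset.card_univ, Fintype.card_fin]
      have h10 : X = univ := by
        apply Finset.eq_univ_of_card
        rw [h9, Fintype.card_fin]
      exact hx (h10 ▸ mem_univ x)

end

end Run7.h349
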